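import Mathlib
import Pool.Agent.H4R2.Rdm

set_option autoImplicit false
set_option linter.unusedSectionVars false

open scoped BigOperators
open Finset
open Pool.Agent.H4R2

namespace Pool.Agent.TH64.PerNet

/-- Value on the `L × L` torus of a scalar network (a tensor without physical index). -/
noncomputable def scal {K : Type*} [Fintype K] (W : K → K → K → K → ℂ) (L : ℕ) [NeZero L] : ℂ :=
  ∑ h : Site L → K, ∑ v : Site L → K,
    ∏ x : Site L, W (h (x.1 - 1, x.2)) (h x) (v x) (v (x.1, x.2 - 1))

/-- Direct sum over `j : J` of the products of the tensor `A j` with the scalar network `W j`: all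
four virtual indices carry the same label `j`. -/
noncomputable def comb {J K K' : Type*} [DecidableEq J] {d : ℕ}
    (A : J → Fin d → K → K → K → K → ℂ) (W : J → K' → K' → K' → K' → ℂ) :
    Fin d → J × K × K' → J × K × K' → J × K × K' → J × K × K' → ℂ := fun s l r u n =>
  if l.1 = r.1 ∧ u.1 = r.1 ∧ n.1 = r.1 then
    A r.1 s l.2.1 r.2.1 u.2.1 n.2.1 * W r.1 l.2.2 r.2.2 u.2.2 n.2.2 else 0

lemma const_of_left {J : Type*} {L : ℕ} [NeZero L] (a : Site L → J)
    (h1 : ∀ x : Site L, a (x.1 - 1, x.2) = a x) (h2 : ∀ x : Site L, a (x.1, x.2 - 1) = a x) (x : Site L) :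
    a x = a (0, 0) := by
  have k1 : ∀ (n : ℕ) (j : ZMod L), a ((n : ZMod L), j) = a (0, j) := by
    intro n
    induction n with
    | zero => intro j; simp
    | succ n ih =>
      intro j
      rw [← ih j]
      have := h1 (((n + 1 : ℕ) : ZMod L), j)
      simp only [Nat.cast_add, Nat.cast_one, add_sub_cancel_right] at this
      push_cast
      exact this.symm
  have k2 : ∀ (n : ℕ), a (0, (n : ZMod L)) = a (0, 0) := by
    intro n
    induction n with
    | zero => simp
    | succ n ih =>
      rw [← ih]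
      have := h2 (0, ((n + 1 : ℕ) : ZMod L))
      simp only [Nat.cast_add, Nat.cast_one, add_sub_cancel_right] at this
      push_cast
      exact this.symm
  obtain ⟨i, j⟩ := x
  have e1 := k1 i.val j
  have e2 := k2 j.val
  rw [ZMod.natCast_val, ZMod.cast_id] at e1 e2
  rw [e1, e2]

theorem contract_comb {J K K' : Type*} [Fintype J] [DecidableEq J] [Fintype K] [Fintype K'] {d : ℕ}
    (A : J → Fin d → K → K → K → K → ℂ) (W : J → K' → K' → K' → K' → ℂ) (L : ℕ) [NeZero L]
    (s : Site L → Fin d) :
    contract (comb A W) L s = ∑ j, contract (A j) L s * scal (W j) L := by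
  classical
  let e : J × ((Site L → K) × (Site L → K)) × ((Site L → K') × (Site L → K')) →
      (Site L → J × K × K') × (Site L → J × K × K') := fun p =>
    (fun x => (p.1, p.2.1.1 x, p.2.2.1 x), fun x => (p.1, p.2.1.2 x, p.2.2.2 x))
  have he : Function.Injective e := by
    rintro ⟨j, ⟨b, b'⟩, ⟨c, c'⟩⟩ ⟨j2, ⟨b2, b2'⟩, ⟨c2, c2'⟩⟩ h
    have h1 : ∀ x, (j, b x, c x) = (j2, b2 x, c2 x) := fun x => congrFun (congrArg Prod.fst h) x
    have h2 : ∀ x, (j, b' x, c' x) = (j2, b2' x, c2' x) := fun x => congrFun (congrArg Prod.snd h) x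
    simp only [Prod.mk.injEq] at h1 h2
    have hj : j = j2 := (h1 (0, 0)).1
    have hb : b = b2 := funext fun x => (h1 x).2.1
    have hc : c = c2 := funext fun x => (h1 x).2.2
    have hb' : b' = b2' := funext fun x => (h2 x).2.1
    have hc' : c' = c2' := funext fun x => (h2 x).2.2
    subst hj hb hc hb' hc'
    rfl
  let G : (Site L → J × K × K') × (Site L → J × K × K') → ℂ := fun P =>
    ∏ x : Site L, comb A W (s x) (P.1 (x.1 - 1, x.2)) (P.1 x) (P.2 x) (P.2 (x.1, x.2 - 1))
  have hL : contract (comb A W) L s = ∑ P, G P := by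
    unfold contract
    rw [Fintype.sum_prod_type]
  have hR : ∑ j, contract (A j) L s * scal (W j) L =
      ∑ p : J × ((Site L → K) × (Site L → K)) × ((Site L → K') × (Site L → K')),
        (∏ x : Site L, A p.1 (s x) (p.2.1.1 (x.1 - 1, x.2)) (p.2.1.1 x) (p.2.1.2 x) (p.2.1.2 (x.1, x.2 - 1))) *
        (∏ x : Site L, W p.1 (p.2.2.1 (x.1 - 1, x.2)) (p.2.2.1 x) (p.2.2.2 x) (p.2.2.2 (x.1, x.2 - 1))) := by
    rw [Fintype.sum_prod_type]
    refine Finset.sum_congr rfl fun j _ => ?_
    unfold contract scal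
    rw [Fintype.sum_prod_type]
    simp_rw [Fintype.sum_prod_type]
    rw [Finset.sum_mul]
    refine Finset.sum_congr rfl fun b _ => ?_
    rw [Finset.sum_mul]
    refine Finset.sum_congr rfl fun b' _ => ?_
    rw [Finset.mul_sum]
    refine Finset.sum_congr rfl fun c _ => ?_
    rw [Finset.mul_sum]
  rw [hL, hR]
  symm
  apply Fintype.sum_of_injective e he
  · intro P hP
    by_contra hne
    apply hP
    have hne' : ∀ x : Site L, comb A W (s x) (P.1 (x.1 - 1, x.2)) (P.1 x) (P.2 x) (P.2 (x.1, x.2 - 1)) ≠ 0 := by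
      intro x hx
      exact hne (Finset.prod_eq_zero (Finset.mem_univ x) hx)
    have hc : ∀ x : Site L, (P.1 (x.1 - 1, x.2)).1 = (P.1 x).1 ∧ (P.2 x).1 = (P.1 x).1 ∧
        (P.2 (x.1, x.2 - 1)).1 = (P.1 x).1 := by
      intro x
      by_contra hcc
      exact hne' x (if_neg hcc)
    have h1 : ∀ x : Site L, (P.1 x).1 = (P.1 (0, 0)).1 := by
      apply const_of_left (fun x => (P.1 x).1)
      · intro x; exact (hc x).1
      · intro x
        have e1 := (hc x).2.2
        have e2 := (hc (x.1, x.2 - 1)).2.1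
        exact e2.symm.trans e1
    refine ⟨((P.1 (0, 0)).1, ((fun x => (P.1 x).2.1, fun x => (P.2 x).2.1)),
      (fun x => (P.1 x).2.2, fun x => (P.2 x).2.2)), ?_⟩
    apply Prod.ext
    · funext x
      exact Prod.ext (h1 x).symm rfl
    · funext x
      exact Prod.ext ((h1 x).symm.trans (hc x).2.1.symm) rfl
  · intro p
    change _ = ∏ x : Site L, comb A W (s x) _ _ _ _
    rw [← Finset.prod_mul_distrib]
    refine Finset.prod_congr rfl fun x _ => ?_
    unfold comb
    simp [e]

/-! ### The clock network -/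

/-- The clock network with line weights `y`: the horizontal index is increased by `1 - u`, where `u`
is the vertical index, which is constant along vertical lines. -/
noncomputable def clk {q : ℕ} (y : ZMod q → ℝ) : ZMod q → ZMod q → ZMod q → ZMod q → ℂ :=
  fun l r u n => if n = u ∧ r = l + 1 - u then (y u : ℂ) else 0

variable {q : ℕ} [NeZero q] {L : ℕ} [NeZero L]

open Classical in
/-- solutions of the clock equation for a given family of vertical lines -/
noncomputable def sols (q : ℕ) [NeZero q] (L : ℕ) [NeZero L] (f : ZMod L → ZMod q) :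
    Finset (Site L → ZMod q) :=
  Finset.univ.filter (fun h => ∀ x : Site L, h x = h (x.1 - 1, x.2) + 1 - f x.1)

noncomputable def Zr (y : ZMod q → ℝ) (L : ℕ) [NeZero L] : ℝ :=
  ∑ f : ZMod L → ZMod q, (∏ x : Site L, y (f x.1)) * ((sols q L f).card : ℝ)

lemma scal_clk (y : ZMod q → ℝ) (L : ℕ) [NeZero L] : scal (clk y) L = ((Zr y L : ℝ) : ℂ) := by
  classical
  let e : (ZMod L → ZMod q) × (Site L → ZMod q) → (Site L → ZMod q) × (Site L → ZMod q) :=
    fun p => (p.2, fun x => p.1 x.1)
  have he : Function.Injective e := by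
    rintro ⟨f, h⟩ ⟨f', h'⟩ hh
    have h1 : h = h' := congrArg Prod.fst hh
    have h2 : ∀ x : Site L, f x.1 = f' x.1 := fun x => congrFun (congrArg Prod.snd hh) x
    have h3 : f = f' := funext fun i => h2 (i, 0)
    subst h1 h3
    rfl
  let G : (Site L → ZMod q) × (Site L → ZMod q) → ℂ := fun P =>
    ∏ x : Site L, clk y (P.1 (x.1 - 1, x.2)) (P.1 x) (P.2 x) (P.2 (x.1, x.2 - 1))
  have hL : scal (clk y) L = ∑ P, G P := by
    unfold scal
    rw [Fintype.sum_prod_type]
  have hR : ((Zr y L : ℝ) : ℂ) = ∑ p : (ZMod L → ZMod q) × (Site L → ZMod q),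
      ∏ x : Site L, (if p.2 x = p.2 (x.1 - 1, x.2) + 1 - p.1 x.1 then (y (p.1 x.1) : ℂ) else 0) := by
    rw [Fintype.sum_prod_type]
    unfold Zr
    push_cast
    refine Finset.sum_congr rfl fun f _ => ?_
    have h1 : ∀ h : Site L → ZMod q,
        (∏ x : Site L, (if h x = h (x.1 - 1, x.2) + 1 - f x.1 then (y (f x.1) : ℂ) else 0)) =
        if ∀ x : Site L, h x = h (x.1 - 1, x.2) + 1 - f x.1 then ∏ x : Site L, (y (f x.1) : ℂ) else 0 := by
      intro h
      rw [Finset.prod_ite_zero]
      simp
    simp only [h1]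
    rw [← Finset.sum_filter, Finset.sum_const, nsmul_eq_mul, mul_comm]
    rfl
  rw [hL, hR]
  symm
  apply Fintype.sum_of_injective e he
  · intro P hP
    by_contra hne
    apply hP
    have hne' : ∀ x : Site L, clk y (P.1 (x.1 - 1, x.2)) (P.1 x) (P.2 x) (P.2 (x.1, x.2 - 1)) ≠ 0 := by
      intro x hx
      exact hne (Finset.prod_eq_zero (Finset.mem_univ x) hx)
    have hc : ∀ x : Site L, P.2 (x.1, x.2 - 1) = P.2 x := by
      intro x
      by_contra hcc
      exact hne' x (if_neg (fun h => hcc h.1))
    have k2 : ∀ (i : ZMod L) (n : ℕ), P.2 (i, (n : ZMod L)) = P.2 (i, 0) := by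
      intro i n
      induction n with
      | zero => simp
      | succ n ih =>
        rw [← ih]
        have := hc (i, ((n + 1 : ℕ) : ZMod L))
        simp only [Nat.cast_add, Nat.cast_one, add_sub_cancel_right] at this
        push_cast
        exact this.symm
    refine ⟨(fun i => P.2 (i, 0), P.1), ?_⟩
    apply Prod.ext
    · rfl
    · funext x
      obtain ⟨i, j⟩ := x
      have e2 := k2 i j.val
      rw [ZMod.natCast_val, ZMod.cast_id] at e2
      exact e2.symm
  · intro p
    change _ = ∏ x : Site L, clk y _ _ _ _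
    refine Finset.prod_congr rfl fun x _ => ?_
    unfold clk
    simp [e]

/-- the number of solutions of the homogeneous equation -/
noncomputable def hom (q : ℕ) [NeZero q] (L : ℕ) [NeZero L] : ℕ := by
  classical
  exact (Finset.univ.filter (fun h : Site L → ZMod q => ∀ x : Site L, h x = h (x.1 - 1, x.2))).card

lemma sols_le (f : ZMod L → ZMod q) : (sols q L f).card ≤ hom q L := by
  classical
  unfold hom
  by_cases hne : (sols q L f).Nonempty
  · obtain ⟨h₀, hh₀⟩ := hne
    apply Finset.card_le_card_of_injOn (fun h => h - h₀)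
    · intro h hh
      simp only [sols, Finset.coe_filter, Finset.mem_univ, true_and, Set.mem_ofPred_eq,
        Finset.mem_filter] at hh hh₀ ⊢
      intro x
      simp only [Pi.sub_apply]
      rw [hh x, hh₀ x]
      ring
    · intro h _ h' _ hhh
      exact sub_left_injective hhh
  · rw [Finset.not_nonempty_iff_eq_empty] at hne
    rw [hne]
    simp

/-- for one line of the right value all solutions exist -/
lemma le_sols : hom q L ≤ (sols q L (fun i => if i = 0 then (L : ZMod q) else 0)).card := by
  classical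
  unfold hom
  have h₀ : ∀ x : Site L, ((x.1.val : ℕ) : ZMod q) = (((x.1 - 1).val : ℕ) : ZMod q) + 1 -
      (if x.1 = 0 then (L : ZMod q) else 0) := by
    intro x
    have hL0 : 0 < L := Nat.pos_of_ne_zero (NeZero.ne L)
    obtain ⟨k, hk⟩ : ∃ k : ℕ, k = (x.1 - 1).val := ⟨_, rfl⟩
    have hkL : k < L := by rw [hk]; exact ZMod.val_lt _
    have hx : x.1 = ((k + 1 : ℕ) : ZMod L) := by
      rw [Nat.cast_add, hk, ZMod.natCast_val, ZMod.cast_id]
      simp
    by_cases hc : k + 1 < L
    · have h1 : x.1.val = k + 1 := by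
        rw [hx, ZMod.val_natCast, Nat.mod_eq_of_lt hc]
      have h2 : x.1 ≠ 0 := by
        intro h
        rw [h, ZMod.val_zero] at h1
        omega
      rw [if_neg h2, h1, ← hk]
      push_cast
      ring
    · have h3 : k + 1 = L := by omega
      have h1 : x.1 = 0 := by rw [hx, h3]; simp
      rw [if_pos h1, ← hk, h1, ZMod.val_zero]
      have : ((k + 1 : ℕ) : ZMod q) = (L : ZMod q) := by rw [h3]
      push_cast at this
      rw [this]
      simp
  apply Finset.card_le_card_of_injOn (fun h => h + fun x => ((x.1.val : ℕ) : ZMod q))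
  · intro h hh
    simp only [sols, Finset.coe_filter, Finset.mem_univ, true_and, Set.mem_ofPred_eq,
      Finset.mem_filter] at hh ⊢
    intro x
    simp only [Pi.add_apply]
    rw [h₀ x, ← hh x]
    ring
  · intro h _ h' _ hhh
    exact add_left_injective _ hhh

lemma hom_pos : 0 < hom q L := by
  classical
  unfold hom
  rw [Finset.card_pos]
  exact ⟨0, by simp⟩

/-- the total shift of the lines is `L` -/
lemma sum_of_sols (f : ZMod L → ZMod q) (h : (sols q L f).Nonempty) : ∑ i, f i = (L : ZMod q) := by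
  classical
  obtain ⟨g, hg⟩ := h
  simp only [sols, Finset.mem_filter, Finset.mem_univ, true_and] at hg
  have h1 : ∀ i : ZMod L, f i = g (i - 1, 0) + 1 - g (i, 0) := by
    intro i
    have := hg (i, 0)
    simp only at this
    rw [this]
    ring
  have h2 : ∑ i : ZMod L, g (i - 1, 0) = ∑ i : ZMod L, g (i, 0) :=
    Equiv.sum_comp (Equiv.subRight (1 : ZMod L)) (fun i => g (i, 0))
  calc ∑ i, f i = ∑ i : ZMod L, (g (i - 1, 0) + 1 - g (i, 0)) := Finset.sum_congr rfl fun i _ => h1 i
    _ = (L : ZMod q) := by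
      rw [Finset.sum_sub_distrib, Finset.sum_add_distrib, h2]
      simp [ZMod.card]

end Pool.Agent.TH64.PerNet
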