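import Mathlib
import Pool.Agent.TH64.PerNet

set_option autoImplicit false
set_option linter.unusedSectionVars false

open scoped BigOperators
open Finset
open Pool.Agent.H4R2

namespace Pool.Agent.TH64.PerNet

variable {q : ℕ} [NeZero q] {L : ℕ} [NeZero L]

/-- Weights of the vertical lines in the sector `j`. -/
noncomputable def yw (q : ℕ) (j u : ZMod q) : ℝ :=
  if u = 0 then (if j = 0 then 2 * (q : ℝ) else 1) else if u = j then (2 * (q : ℝ))⁻¹ else 0

lemma q_pos : (1 : ℝ) ≤ q := by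
  exact_mod_cast Nat.one_le_iff_ne_zero.mpr (NeZero.ne q)

lemma inv_le_one' : (2 * (q : ℝ))⁻¹ ≤ 1 := by
  have := q_pos (q := q)
  apply inv_le_one_of_one_le₀
  linarith

lemma inv_nonneg' : 0 ≤ (2 * (q : ℝ))⁻¹ := by positivity

lemma yw_nonneg (j u : ZMod q) : 0 ≤ yw q j u := by
  unfold yw
  split_ifs <;> positivity

lemma yw_le_one (j u : ZMod q) (hj : j ≠ 0) : yw q j u ≤ 1 := by
  have := inv_le_one' (q := q)
  unfold yw
  split_ifs <;> first | linarith | exact zero_le_one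

lemma yw_le_inv (j u : ZMod q) (hu : u ≠ 0) : yw q j u ≤ (2 * (q : ℝ))⁻¹ := by
  have := inv_nonneg' (q := q)
  unfold yw
  rw [if_neg hu]
  split_ifs <;> linarith

lemma yw_zero (j u : ZMod q) (hu : u ≠ 0) (huj : u ≠ j) : yw q j u = 0 := by
  unfold yw
  rw [if_neg hu, if_neg huj]

lemma prod_site (g : ZMod L → ℝ) : ∏ x : Site L, g x.1 = (∏ i, g i) ^ L := by
  rw [Fintype.prod_prod_type]
  simp only [Finset.prod_const, Finset.card_univ, ZMod.card]
  exact Finset.prod_pow _ _ _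

lemma prod_le_two (j : ZMod q) (hj : j ≠ 0) (f : ZMod L → ZMod q) (i₁ i₂ : ZMod L) (hne : i₂ ≠ i₁)
    (h1 : f i₁ ≠ 0) (h2 : f i₂ ≠ 0) :
    ∏ i, yw q j (f i) ≤ (2 * (q : ℝ))⁻¹ * (2 * (q : ℝ))⁻¹ := by
  classical
  rw [← Finset.mul_prod_erase Finset.univ _ (Finset.mem_univ i₁)]
  rw [← Finset.mul_prod_erase (Finset.univ.erase i₁) _
    (Finset.mem_erase.mpr ⟨hne, Finset.mem_univ i₂⟩)]
  have h3 : ∏ i ∈ (Finset.univ.erase i₁).erase i₂, yw q j (f i) ≤ 1 :=
    Finset.prod_le_one (fun i _ => yw_nonneg _ _) (fun i _ => yw_le_one _ _ hj)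
  have h4 : 0 ≤ ∏ i ∈ (Finset.univ.erase i₁).erase i₂, yw q j (f i) :=
    Finset.prod_nonneg (fun i _ => yw_nonneg _ _)
  have h5 : yw q j (f i₂) * ∏ i ∈ (Finset.univ.erase i₁).erase i₂, yw q j (f i) ≤ (2 * (q : ℝ))⁻¹ := by
    calc yw q j (f i₂) * ∏ i ∈ (Finset.univ.erase i₁).erase i₂, yw q j (f i)
        ≤ (2 * (q : ℝ))⁻¹ * 1 := mul_le_mul (yw_le_inv _ _ h2) h3 h4 inv_nonneg'
      _ = _ := mul_one _
  exact mul_le_mul (yw_le_inv _ _ h1) h5 (mul_nonneg (yw_nonneg _ _) h4) inv_nonneg'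

/-- weight of the reference configuration -/
noncomputable def refw (q : ℕ) [NeZero q] (L : ℕ) [NeZero L] : ℝ :=
  ∏ x : Site L, yw q (L : ZMod q) (if x.1 = 0 then (L : ZMod q) else 0)

lemma refw_eq_of_ne (h : (L : ZMod q) ≠ 0) : refw q L = ((2 * (q : ℝ))⁻¹) ^ L := by
  classical
  unfold refw
  rw [prod_site (fun i => yw q (L : ZMod q) (if i = 0 then (L : ZMod q) else 0))]
  congr 1
  rw [Finset.prod_eq_single (0 : ZMod L)]
  · rw [if_pos rfl]
    unfold yw
    rw [if_neg h, if_pos rfl]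
  · intro i _ hi
    rw [if_neg hi]
    unfold yw
    rw [if_pos rfl, if_neg h]
  · intro hc; exact absurd (Finset.mem_univ _) hc

lemma refw_eq_of_eq (h : (L : ZMod q) = 0) : refw q L = ((2 * (q : ℝ)) ^ L) ^ L := by
  classical
  unfold refw
  rw [prod_site (fun i => yw q (L : ZMod q) (if i = 0 then (L : ZMod q) else 0))]
  congr 1
  have : ∀ i : ZMod L, yw q (L : ZMod q) (if i = 0 then (L : ZMod q) else 0) = 2 * (q : ℝ) := by
    intro i
    rw [h, ite_self]
    unfold yw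
    rw [if_pos rfl, if_pos rfl]
  simp only [this, Finset.prod_const, Finset.card_univ, ZMod.card]

lemma refw_pos : 0 < refw q L := by
  have := q_pos (q := q)
  by_cases h : (L : ZMod q) = 0
  · rw [refw_eq_of_eq h]; positivity
  · rw [refw_eq_of_ne h]; positivity

lemma Zr_ge : refw q L * hom q L ≤ Zr (yw q (L : ZMod q)) L := by
  classical
  unfold Zr
  have h1 := Finset.single_le_sum (f := fun f : ZMod L → ZMod q =>
    (∏ x : Site L, yw q (L : ZMod q) (f x.1)) * ((sols q L f).card : ℝ))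
    (fun f _ => mul_nonneg (Finset.prod_nonneg fun _ _ => yw_nonneg _ _) (Nat.cast_nonneg _))
    (Finset.mem_univ (fun i : ZMod L => if i = 0 then (L : ZMod q) else 0))
  refine le_trans ?_ h1
  refine mul_le_mul_of_nonneg_left ?_ refw_pos.le
  exact Nat.cast_le.mpr le_sols

lemma Zr_pos : 0 < Zr (yw q (L : ZMod q)) L := by
  refine lt_of_lt_of_le ?_ Zr_ge
  have h1 : (0 : ℝ) < hom q L := by exact_mod_cast hom_pos
  exact mul_pos refw_pos h1

lemma Zr_nonneg (j : ZMod q) : 0 ≤ Zr (yw q j) L :=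
  Finset.sum_nonneg fun f _ =>
    mul_nonneg (Finset.prod_nonneg fun _ _ => yw_nonneg _ _) (Nat.cast_nonneg _)

lemma term_le (j : ZMod q) (hj : j ≠ (L : ZMod q)) (f : ZMod L → ZMod q) (hf : ∑ i, f i = (L : ZMod q)) :
    ∏ x : Site L, yw q j (f x.1) ≤ ((2 * (q : ℝ))⁻¹) ^ L * refw q L := by
  classical
  have hq := q_pos (q := q)
  have hq0 : (0 : ℝ) < 2 * q := by linarith
  have hRnn : 0 ≤ ((2 * (q : ℝ))⁻¹) ^ L * refw q L :=
    mul_nonneg (by positivity) refw_pos.le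
  rw [prod_site (fun i => yw q j (f i))]
  have hPnn : 0 ≤ ∏ i, yw q j (f i) := Finset.prod_nonneg fun _ _ => yw_nonneg _ _
  have hL0 : L ≠ 0 := NeZero.ne L
  by_cases hr : (L : ZMod q) = 0
  · have hj0 : j ≠ 0 := fun h => hj (by rw [h, hr])
    have h1 : ∏ i, yw q j (f i) ≤ 1 :=
      Finset.prod_le_one (fun i _ => yw_nonneg _ _) (fun i _ => yw_le_one _ _ hj0)
    refine (pow_le_one₀ hPnn h1).trans ?_
    rw [refw_eq_of_eq hr, ← mul_pow, inv_mul_eq_div]
    apply one_le_pow₀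
    rw [le_div_iff₀ hq0, one_mul]
    exact le_self_pow₀ (by linarith) hL0
  · rw [refw_eq_of_ne hr]
    obtain ⟨i₁, hi₁⟩ : ∃ i, f i ≠ 0 := by
      by_contra hc
      push Not at hc
      exact hr (by rw [← hf]; exact Finset.sum_eq_zero fun i _ => hc i)
    by_cases h2 : ∃ i₂, i₂ ≠ i₁ ∧ f i₂ ≠ 0
    · obtain ⟨i₂, hne, hi₂⟩ := h2
      by_cases hj0 : j = 0
      · have : ∏ i, yw q j (f i) = 0 := by
          apply Finset.prod_eq_zero (Finset.mem_univ i₁)
          exact yw_zero _ _ hi₁ (by rw [hj0]; exact hi₁)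
        rw [this, zero_pow hL0]
        positivity
      · rw [← mul_pow]
        exact pow_le_pow_left₀ hPnn (prod_le_two j hj0 f i₁ i₂ hne hi₁ hi₂) L
    · push Not at h2
      have h3 : f i₁ = (L : ZMod q) := by
        rw [← hf]
        exact (Finset.sum_eq_single i₁ (fun i _ hi => h2 i hi) (by simp)).symm
      have : ∏ i, yw q j (f i) = 0 := by
        apply Finset.prod_eq_zero (Finset.mem_univ i₁)
        exact yw_zero _ _ hi₁ (by rw [h3]; exact hj.symm)
      rw [this, zero_pow hL0]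
      positivity

theorem Zr_dom (j : ZMod q) (hj : j ≠ (L : ZMod q)) :
    Zr (yw q j) L ≤ (1 / 2 : ℝ) ^ L * Zr (yw q (L : ZMod q)) L := by
  classical
  have hq := q_pos (q := q)
  have hN : (0 : ℝ) < hom q L := by exact_mod_cast hom_pos
  have h1 : ∀ f : ZMod L → ZMod q, (∏ x : Site L, yw q j (f x.1)) * ((sols q L f).card : ℝ) ≤
      ((2 * (q : ℝ))⁻¹) ^ L * refw q L * hom q L := by
    intro f
    by_cases hne : (sols q L f).Nonempty
    · have h2 : ((sols q L f).card : ℝ) ≤ hom q L := by exact_mod_cast sols_le f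
      exact mul_le_mul (term_le j hj f (sum_of_sols f hne)) h2 (Nat.cast_nonneg _)
        (mul_nonneg (by positivity) refw_pos.le)
    · rw [Finset.not_nonempty_iff_eq_empty] at hne
      rw [hne]
      simp only [Finset.card_empty, Nat.cast_zero, mul_zero]
      exact mul_nonneg (mul_nonneg (by positivity) refw_pos.le) hN.le
  unfold Zr
  refine (Finset.sum_le_sum fun f _ => h1 f).trans ?_
  rw [Finset.sum_const, Finset.card_univ, nsmul_eq_mul]
  have h3 : (Fintype.card (ZMod L → ZMod q) : ℝ) = (q : ℝ) ^ L := by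
    simp [ZMod.card]
  rw [h3]
  have h4 : (q : ℝ) ^ L * (((2 * (q : ℝ))⁻¹) ^ L * refw q L * hom q L) =
      (1 / 2 : ℝ) ^ L * (refw q L * hom q L) := by
    have h5 : (q : ℝ) ^ L * ((2 * (q : ℝ))⁻¹) ^ L = (1 / 2 : ℝ) ^ L := by
      rw [← mul_pow]
      congr 1
      field_simp
    calc (q : ℝ) ^ L * (((2 * (q : ℝ))⁻¹) ^ L * refw q L * hom q L)
        = ((q : ℝ) ^ L * ((2 * (q : ℝ))⁻¹) ^ L) * (refw q L * hom q L) := by ring
      _ = _ := by rw [h5]
  rw [h4]
  exact mul_le_mul_of_nonneg_left Zr_ge (by positivity)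

end Pool.Agent.TH64.PerNet
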