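import Mathlib
import Pool.Agent.H4R2.Rdm

set_option autoImplicit false
set_option linter.unusedSectionVars false

open scoped BigOperators
open Finset
open Pool.Agent.H4R2

namespace Pool.Agent.TH64.PerNet

section stab

variable {V ι : Type*} [Fintype V] [DecidableEq V] {d : ℕ}

open Classical in
lemma ker_sum_left (j : ι → V) (a b : ι → Fin d) (F : (V → Fin d) → ℝ) (hF : ∀ s, 0 ≤ F s) :
    ∑ s : V → Fin d, ∑ t : V → Fin d, (if Ker j a b s t then F s else 0) ≤ ∑ s, F s := by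
  refine Finset.sum_le_sum fun s _ => ?_
  by_cases hs : ∃ t, Ker j a b s t
  · obtain ⟨t, ht⟩ := hs
    rw [Finset.sum_eq_single t]
    · rw [if_pos ht]
    · intro t' _ hne
      rw [if_neg]
      intro h'
      exact hne (h'.unique_right ht)
    · intro hc; exact absurd (Finset.mem_univ _) hc
  · push Not at hs
    rw [Finset.sum_eq_zero (fun t _ => by rw [if_neg (hs t)])]
    exact hF s

open Classical in
lemma ker_sum_right (j : ι → V) (a b : ι → Fin d) (F : (V → Fin d) → ℝ) (hF : ∀ s, 0 ≤ F s) :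
    ∑ s : V → Fin d, ∑ t : V → Fin d, (if Ker j a b s t then F t else 0) ≤ ∑ s, F s := by
  rw [Finset.sum_comm]
  refine Finset.sum_le_sum fun t _ => ?_
  by_cases hs : ∃ s, Ker j a b s t
  · obtain ⟨s, ht⟩ := hs
    rw [Finset.sum_eq_single s]
    · rw [if_pos ht]
    · intro t' _ hne
      rw [if_neg]
      intro h'
      exact hne (h'.unique_left ht)
    · intro hc; exact absurd (Finset.mem_univ _) hc
  · push Not at hs
    rw [Finset.sum_eq_zero (fun t _ => by rw [if_neg (hs t)])]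
    exact hF t

/-- the local error density -/
noncomputable def den {S : Type*} (δ : ℝ) (ψ η : S → ℂ) (s : S) : ℝ :=
  (δ * ‖ψ s‖ ^ 2 + δ⁻¹ * ‖η s‖ ^ 2 + ‖η s‖ ^ 2) / 2

lemma den_nonneg {S : Type*} (δ : ℝ) (hδ : 0 < δ) (ψ η : S → ℂ) (s : S) : 0 ≤ den δ ψ η s := by
  unfold den
  positivity

lemma sum_den {S : Type*} [Fintype S] (δ : ℝ) (hδ : 0 < δ) (hδ1 : δ ≤ 1) (ψ η : S → ℂ)
    (hη : normSq η ≤ δ ^ 2 * normSq ψ) : 2 * ∑ s, den δ ψ η s ≤ 3 * δ * normSq ψ := by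
  have h1 : 2 * ∑ s, den δ ψ η s = δ * normSq ψ + δ⁻¹ * normSq η + normSq η := by
    unfold den normSq
    rw [← Finset.sum_div, Finset.sum_add_distrib, Finset.sum_add_distrib, ← Finset.mul_sum,
      ← Finset.mul_sum]
    ring
  rw [h1]
  have hN : 0 ≤ normSq ψ := Finset.sum_nonneg fun _ _ => by positivity
  have h2 : δ⁻¹ * normSq η ≤ δ * normSq ψ := by
    rw [inv_mul_le_iff₀ hδ]
    calc normSq η ≤ δ ^ 2 * normSq ψ := hη
      _ = δ * (δ * normSq ψ) := by ring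
  have h3 : normSq η ≤ δ * normSq ψ := by
    refine hη.trans (mul_le_mul_of_nonneg_right ?_ hN)
    nlinarith
  linarith

lemma amgm (δ x y : ℝ) (hδ : 0 < δ) : x * y ≤ (δ * x ^ 2 + δ⁻¹ * y ^ 2) / 2 := by
  have h1 : 0 ≤ δ⁻¹ * (δ * x - y) ^ 2 := by positivity
  have h2 : δ⁻¹ * (δ * x - y) ^ 2 = δ * x ^ 2 + δ⁻¹ * y ^ 2 - 2 * (x * y) := by
    field_simp
    ring
  linarith

lemma rdm_add_sub (j : ι → V) (ψ η : (V → Fin d) → ℂ) (δ : ℝ) (hδ : 0 < δ) (hδ1 : δ ≤ 1)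
    (hη : normSq η ≤ δ ^ 2 * normSq ψ) (a b : ι → Fin d) :
    ‖rdm j (ψ + η) a b - rdm j ψ a b‖ ≤ 3 * δ * normSq ψ := by
  classical
  refine le_trans ?_ (sum_den δ hδ hδ1 ψ η hη)
  rw [rdm_apply, rdm_apply, ← Finset.sum_sub_distrib]
  have h1 : ‖∑ s : V → Fin d, (∑ t : V → Fin d, (if Ker j a b s t then
        (ψ + η) s * (starRingEnd ℂ) ((ψ + η) t) else 0) -
      ∑ t : V → Fin d, (if Ker j a b s t then ψ s * (starRingEnd ℂ) (ψ t) else 0))‖ ≤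
      ∑ s : V → Fin d, ∑ t : V → Fin d, ((if Ker j a b s t then den δ ψ η s else 0) +
        (if Ker j a b s t then den δ ψ η t else 0)) := by
    refine (norm_sum_le _ _).trans (Finset.sum_le_sum fun s _ => ?_)
    rw [← Finset.sum_sub_distrib]
    refine (norm_sum_le _ _).trans (Finset.sum_le_sum fun t _ => ?_)
    by_cases hK : Ker j a b s t
    · simp only [hK, if_true]
      have h2 : (ψ + η) s * (starRingEnd ℂ) ((ψ + η) t) - ψ s * (starRingEnd ℂ) (ψ t) =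
          ψ s * (starRingEnd ℂ) (η t) + η s * (starRingEnd ℂ) (ψ t) + η s * (starRingEnd ℂ) (η t) := by
        simp only [Pi.add_apply, map_add]
        ring
      rw [h2]
      refine (norm_add₃_le).trans ?_
      rw [norm_mul, norm_mul, norm_mul, RCLike.norm_conj, RCLike.norm_conj]
      unfold den
      have h3 := amgm δ ‖ψ s‖ ‖η t‖ hδ
      have h4 := amgm δ ‖ψ t‖ ‖η s‖ hδ
      have h5 := amgm 1 ‖η s‖ ‖η t‖ one_pos
      rw [mul_comm ‖ψ t‖ ‖η s‖] at h4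
      simp only [one_mul, inv_one] at h5
      linarith
    · simp [hK]
  refine h1.trans ?_
  simp_rw [Finset.sum_add_distrib]
  have h2 := ker_sum_left j a b (den δ ψ η) (den_nonneg δ hδ ψ η)
  have h3 := ker_sum_right j a b (den δ ψ η) (den_nonneg δ hδ ψ η)
  linarith

lemma normSq_add_sub {S : Type*} [Fintype S] (ψ η : S → ℂ) (δ : ℝ) (hδ : 0 < δ) (hδ1 : δ ≤ 1)
    (hη : normSq η ≤ δ ^ 2 * normSq ψ) :
    |normSq (ψ + η) - normSq ψ| ≤ 3 * δ * normSq ψ := by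
  refine le_trans ?_ (sum_den δ hδ hδ1 ψ η hη)
  unfold normSq
  rw [← Finset.sum_sub_distrib, Finset.mul_sum]
  refine (Finset.abs_sum_le_sum_abs _ _).trans (Finset.sum_le_sum fun s _ => ?_)
  have h1 := amgm δ ‖ψ s‖ ‖η s‖ hδ
  have h2 : ‖(ψ + η) s‖ ≤ ‖ψ s‖ + ‖η s‖ := norm_add_le _ _
  have h3 : ‖ψ s‖ ≤ ‖(ψ + η) s‖ + ‖η s‖ := by
    have : ψ s = (ψ + η) s - η s := by simp
    rw [this]
    exact norm_sub_le _ _
  have n1 := norm_nonneg ((ψ + η) s)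
  have n2 := norm_nonneg (ψ s)
  have n3 := norm_nonneg (η s)
  unfold den
  rw [abs_le]
  constructor
  · by_cases hc : ‖ψ s‖ ≤ ‖η s‖
    · nlinarith [sq_nonneg ‖(ψ + η) s‖, sq_nonneg (‖η s‖ - ‖ψ s‖)]
    · push Not at hc
      have h4 : (‖ψ s‖ - ‖η s‖) ^ 2 ≤ ‖(ψ + η) s‖ ^ 2 := by
        apply pow_le_pow_left₀ (by linarith) (by linarith)
      nlinarith
  · have h4 : ‖(ψ + η) s‖ ^ 2 ≤ (‖ψ s‖ + ‖η s‖) ^ 2 := pow_le_pow_left₀ n1 h2 2
    nlinarith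

end stab

section red

variable {d L : ℕ} [NeZero L]

lemma redState_smul (R : Finset (ℤ × ℤ)) (c : ℂ) (hc : c ≠ 0) (φ : (Site L → Fin d) → ℂ) :
    redState R (c • φ) = redState R φ := by
  funext a b
  unfold redState
  simp only [Matrix.smul_apply, smul_eq_mul]
  rw [rdm_smul, normSq_smul]
  have h1 : ((‖c‖ ^ 2 : ℝ) : ℂ) ≠ 0 := by
    have := norm_pos_iff.mpr hc
    exact_mod_cast (by positivity : ‖c‖ ^ 2 ≠ 0)
  by_cases h0 : ((normSq φ : ℝ) : ℂ) = 0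
  · push_cast at h0 ⊢
    rw [h0]
    simp
  · have h2 : ((‖c‖ : ℝ) : ℂ) ≠ 0 := by exact_mod_cast (norm_pos_iff.mpr hc).ne'
    push_cast at h1 ⊢
    field_simp

lemma redState_add (R : Finset (ℤ × ℤ)) (ψ η : (Site L → Fin d) → ℂ) (δ : ℝ) (hδ : 0 < δ)
    (hδ1 : δ ≤ 1 / 6) (hψ : 0 < normSq ψ) (hη : normSq η ≤ δ ^ 2 * normSq ψ) :
    0 < normSq (ψ + η) ∧ ∀ a b, ‖redState R (ψ + η) a b - redState R ψ a b‖ ≤ 6 * δ := by
  have h1 := normSq_add_sub ψ η δ hδ (by linarith) hη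
  have hpos : 0 < normSq (ψ + η) := by
    rw [abs_le] at h1
    nlinarith [h1.1]
  refine ⟨hpos, fun a b => ?_⟩
  have h2 := rdm_add_sub (fun x : R => toTorus L x) ψ η δ hδ (by linarith) hη a b
  have h3 := rdm_bound (fun x : R => toTorus L x) (ψ + η) a b
  unfold redState
  simp only [Matrix.smul_apply, smul_eq_mul]
  set X := rdm (fun x : R => toTorus L x) (ψ + η) a b
  set Y := rdm (fun x : R => toTorus L x) ψ a b
  set m := normSq (ψ + η)
  set n := normSq ψ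
  have hm : (m : ℂ) ≠ 0 := by exact_mod_cast hpos.ne'
  have hn : (n : ℂ) ≠ 0 := by exact_mod_cast hψ.ne'
  have h4 : (m : ℂ)⁻¹ * X - (n : ℂ)⁻¹ * Y = (n : ℂ)⁻¹ * (X - Y) + (m : ℂ)⁻¹ * X * ((n : ℂ)⁻¹ * ((n : ℂ) - m)) := by
    field_simp
    ring
  rw [h4]
  refine (norm_add_le _ _).trans ?_
  rw [norm_mul, norm_mul, norm_mul, norm_mul]
  have h5 : ‖(n : ℂ)⁻¹‖ * ‖X - Y‖ ≤ 3 * δ := by
    rw [norm_inv, Complex.norm_real, Real.norm_eq_abs, abs_of_pos hψ, inv_mul_le_iff₀ hψ]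
    linarith
  have h6 : ‖(m : ℂ)⁻¹‖ * ‖X‖ ≤ 1 := by
    rw [norm_inv, Complex.norm_real, Real.norm_eq_abs, abs_of_pos hpos, inv_mul_le_iff₀ hpos]
    linarith
  have h7 : ‖(n : ℂ)⁻¹‖ * ‖(n : ℂ) - m‖ ≤ 3 * δ := by
    rw [norm_inv, Complex.norm_real, Real.norm_eq_abs, abs_of_pos hψ, inv_mul_le_iff₀ hψ]
    rw [← Complex.ofReal_sub, Complex.norm_real, Real.norm_eq_abs, abs_sub_comm]
    linarith
  have h8 : ‖(m : ℂ)⁻¹‖ * ‖X‖ * (‖(n : ℂ)⁻¹‖ * ‖(n : ℂ) - m‖) ≤ 1 * (3 * δ) :=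
    mul_le_mul h6 h7 (by positivity) zero_le_one
  linarith

end red

lemma normSq_lin {J S : Type*} [Fintype J] [Fintype S] (c : J → ℂ) (φ : J → S → ℂ) (ν κ : ℝ)
    (hν : ∀ j, normSq (φ j) = ν) (hc : ∀ j, ‖c j‖ ≤ κ) :
    normSq (fun s => ∑ j, c j * φ j s) ≤ ((Fintype.card J : ℝ) * κ) ^ 2 * ν := by
  have h1 : ∀ s, ‖∑ j, c j * φ j s‖ ^ 2 ≤ (Fintype.card J : ℝ) * κ ^ 2 * ∑ j, ‖φ j s‖ ^ 2 := by
    intro s
    calc ‖∑ j, c j * φ j s‖ ^ 2 ≤ (∑ j, κ * ‖φ j s‖) ^ 2 := by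
          apply pow_le_pow_left₀ (norm_nonneg _)
          refine (norm_sum_le _ _).trans (Finset.sum_le_sum fun j _ => ?_)
          rw [norm_mul]
          exact mul_le_mul_of_nonneg_right (hc j) (norm_nonneg _)
      _ ≤ (Finset.univ : Finset J).card * ∑ j, (κ * ‖φ j s‖) ^ 2 := sq_sum_le_card_mul_sum_sq
      _ = _ := by
          rw [Finset.card_univ]
          simp_rw [mul_pow]
          rw [← Finset.mul_sum]
          ring
  unfold normSq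
  calc ∑ s, ‖∑ j, c j * φ j s‖ ^ 2 ≤ ∑ s, (Fintype.card J : ℝ) * κ ^ 2 * ∑ j, ‖φ j s‖ ^ 2 :=
        Finset.sum_le_sum fun s _ => h1 s
    _ = (Fintype.card J : ℝ) * κ ^ 2 * ∑ j, normSq (φ j) := by
        rw [← Finset.mul_sum, Finset.sum_comm]
        rfl
    _ = _ := by
        simp only [hν, Finset.sum_const, Finset.card_univ, nsmul_eq_mul]
        ring

/-- Norm of the value of the network on the torus and dominance of one sector. -/
theorem normSq_lin' {J S : Type*} [Fintype J] [Fintype S] (c : J → ℂ) (φ : J → S → ℂ) (ν κ : ℝ)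
    (hν : ∀ j, normSq (φ j) = ν) (hc : ∀ j, ‖c j‖ ≤ κ) :
    normSq (fun s => ∑ j, c j * φ j s) ≤ ((Fintype.card J : ℝ) * κ) ^ 2 * ν :=
  normSq_lin c φ ν κ hν hc

end Pool.Agent.TH64.PerNet
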