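import Mathlib
import Pool.Agent.TH64.PerDom
import Pool.Agent.TH64.PerStab
import Pool.Agent.H4R2.Ham

set_option autoImplicit false
set_option linter.unusedSectionVars false

open scoped BigOperators
open Finset
open Pool.Agent.H4R2

namespace Pool.Agent.TH64.PerNet

/-- If all sectors have the same norm and the scalar network of the sector `r` dominates, the
marginals of the direct sum are those of the sector `r`, up to a small error. -/
theorem comb_close {J K K' : Type*} [Fintype J] [DecidableEq J] [Fintype K] [Fintype K'] {d : ℕ}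
    (A : J → Fin d → K → K → K → K → ℂ) (W : J → K' → K' → K' → K' → ℂ) (L : ℕ) [NeZero L]
    (r : J) (ν : ℝ) (hν0 : 0 < ν) (hν : ∀ j, normSq (contract (A j) L) = ν)
    (hr : scal (W r) L ≠ 0) (κ : ℝ) (hκ : 0 < κ) (hκ1 : (Fintype.card J : ℝ) * κ ≤ 1 / 6)
    (hdom : ∀ j, j ≠ r → ‖scal (W j) L‖ ≤ κ * ‖scal (W r) L‖) (R : Finset (ℤ × ℤ)) :
    0 < normSq (contract (comb A W) L) ∧ ∀ a b,
      ‖redState R (contract (comb A W) L) a b - redState R (contract (A r) L) a b‖
        ≤ 6 * ((Fintype.card J : ℝ) * κ) := by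
  classical
  set c : J → ℂ := fun j => if j = r then 0 else scal (W j) L / scal (W r) L with hc
  set η : (Site L → Fin d) → ℂ := fun s => ∑ j, c j * contract (A j) L s with hη
  have h1 : contract (comb A W) L = scal (W r) L • (contract (A r) L + η) := by
    funext s
    rw [contract_comb]
    simp only [Pi.smul_apply, Pi.add_apply, smul_eq_mul, hη]
    rw [← Finset.add_sum_erase _ _ (Finset.mem_univ r), mul_add, Finset.mul_sum]
    rw [← Finset.add_sum_erase (s := Finset.univ) (a := r)
      (f := fun j => scal (W r) L * (c j * contract (A j) L s)) (Finset.mem_univ r)]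
    have h2 : c r = 0 := if_pos rfl
    rw [h2, zero_mul, mul_zero, zero_add]
    congr 1
    · ring
    · refine Finset.sum_congr rfl fun j hj => ?_
      have h3 : c j = scal (W j) L / scal (W r) L := if_neg (Finset.ne_of_mem_erase hj)
      rw [h3]
      field_simp
  have hcb : ∀ j, ‖c j‖ ≤ κ := by
    intro j
    simp only [hc]
    split_ifs with h
    · simp [hκ.le]
    · rw [norm_div, div_le_iff₀ (norm_pos_iff.mpr hr)]
      exact hdom j h
  have hηn : normSq η ≤ ((Fintype.card J : ℝ) * κ) ^ 2 * normSq (contract (A r) L) := by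
    rw [hν r]
    exact normSq_lin c (fun j => contract (A j) L) ν κ hν hcb
  have hJ : (0 : ℝ) < Fintype.card J := by
    have : Nonempty J := ⟨r⟩
    exact_mod_cast Fintype.card_pos
  obtain ⟨h4, h5⟩ := redState_add R (contract (A r) L) η ((Fintype.card J : ℝ) * κ)
    (by positivity) hκ1 (by rw [hν r]; exact hν0) hηn
  rw [h1, redState_smul R _ hr, normSq_smul]
  refine ⟨?_, h5⟩
  have := norm_pos_iff.mpr hr
  positivity

/-- A function `σ` of the system size with finitely many values is followed by translationally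
invariant scalar networks: there are networks `W j`, one for each value, such that for large `L` the
value of `W (σ L)` on the `L × L` torus is not zero and dominates the values of all others. -/
def Followed {J : Type} [Fintype J] (σ : ℕ → J) (D : ℕ) : Prop :=
  ∃ W : J → Fin D → Fin D → Fin D → Fin D → ℂ, ∀ κ : ℝ, 0 < κ → ∃ L₁ : ℕ, ∀ (L : ℕ) [NeZero L],
    L₁ ≤ L → scal (W (σ L)) L ≠ 0 ∧ ∀ j, j ≠ σ L → ‖scal (W j) L‖ ≤ κ * ‖scal (W (σ L)) L‖

lemma scal_equiv {K K' : Type*} [Fintype K] [Fintype K'] (e : K' ≃ K)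
    (W : K → K → K → K → ℂ) (L : ℕ) [NeZero L] :
    scal (fun l r u n => W (e l) (e r) (e u) (e n)) L = scal W L := by
  unfold scal
  let E : (Site L → K') ≃ (Site L → K) := Equiv.arrowCongr (Equiv.refl _) e
  have hE : ∀ h x, E h x = e (h x) := fun h x => rfl
  refine Fintype.sum_equiv E _ _ fun h => ?_
  refine Fintype.sum_equiv E _ _ fun v => ?_
  simp only [hE]

/-- Residue classes are followed. -/
theorem followed_residue (q : ℕ) [NeZero q] : Followed (fun L : ℕ => (L : ZMod q)) q := by
  classical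
  obtain ⟨e⟩ : Nonempty (Fin q ≃ ZMod q) := by
    refine ⟨Fintype.equivOfCardEq ?_⟩
    rw [Fintype.card_fin, ZMod.card]
  refine ⟨fun j l r u n => clk (yw q j) (e l) (e r) (e u) (e n), fun κ hκ => ?_⟩
  obtain ⟨L₁, hL₁⟩ := exists_pow_lt_of_lt_one hκ (by norm_num : (1 / 2 : ℝ) < 1)
  refine ⟨L₁, fun L _ hL => ?_⟩
  have h0 : ∀ j, scal (fun l r u n => clk (yw q j) (e l) (e r) (e u) (e n)) L =
      ((Zr (yw q j) L : ℝ) : ℂ) := by
    intro j
    rw [scal_equiv e, scal_clk]
  simp only [h0]
  refine ⟨by exact_mod_cast (Zr_pos (q := q) (L := L)).ne', fun j hj => ?_⟩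
  rw [Complex.norm_real, Complex.norm_real, Real.norm_eq_abs, Real.norm_eq_abs,
    abs_of_nonneg (Zr_nonneg j), abs_of_pos Zr_pos]
  refine (Zr_dom j hj).trans (mul_le_mul_of_nonneg_right ?_ Zr_pos.le)
  exact (pow_le_pow_of_le_one (by norm_num) (by norm_num) hL).trans hL₁.le

end Pool.Agent.TH64.PerNet
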