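import Mathlib

set_option autoImplicit false
set_option linter.unusedSectionVars false

open scoped BigOperators InnerProductSpace
open Finset Module

namespace Pool.Agent.TH64.NoGo

/-- A family in a subspace of small dimension cannot correlate with an orthonormal family. -/
theorem dim_bound {E : Type*} [NormedAddCommGroup E] [InnerProductSpace ℂ E] {ι : Type*} [Fintype ι]
    (e : ι → E) (he : Orthonormal ℂ e) (V : Submodule ℂ E) [FiniteDimensional ℂ V] (M : ι → E)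
    (hM : ∀ i, M i ∈ V) (B : ℝ) (hB0 : 0 ≤ B) (hB : ∀ i, ‖M i‖ ^ 2 ≤ B) :
    ∑ i, ‖⟪e i, M i⟫_ℂ‖ ^ 2 ≤ B * (finrank ℂ V : ℝ) := by
  classical
  let b := stdOrthonormalBasis ℂ V
  have hrep : ∀ i, M i = ∑ k, ⟪((b k : V) : E), M i⟫_ℂ • ((b k : V) : E) := by
    intro i
    have h1 := b.sum_repr' (⟨M i, hM i⟩ : V)
    have h2 := congrArg (Subtype.val) h1
    rw [AddSubmonoidClass.coe_finsetSum] at h2
    refine h2.symm.trans ?_
    refine Finset.sum_congr rfl fun k _ => ?_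
    rfl
  have hpars : ∀ i, ∑ k, ‖⟪((b k : V) : E), M i⟫_ℂ‖ ^ 2 = ‖M i‖ ^ 2 := by
    intro i
    have h1 := b.sum_sq_norm_inner_right (⟨M i, hM i⟩ : V)
    exact h1
  have hone : ∀ i, ‖⟪e i, M i⟫_ℂ‖ ^ 2 ≤ B * ∑ k, ‖⟪e i, ((b k : V) : E)⟫_ℂ‖ ^ 2 := by
    intro i
    have h1 : ⟪e i, M i⟫_ℂ = ∑ k, ⟪((b k : V) : E), M i⟫_ℂ * ⟪e i, ((b k : V) : E)⟫_ℂ := by
      conv_lhs => rw [hrep i]
      rw [inner_sum]
      refine Finset.sum_congr rfl fun k _ => ?_
      rw [inner_smul_right]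
    have h2 : ‖⟪e i, M i⟫_ℂ‖ ≤ ∑ k, ‖⟪((b k : V) : E), M i⟫_ℂ‖ * ‖⟪e i, ((b k : V) : E)⟫_ℂ‖ := by
      rw [h1]
      refine (norm_sum_le _ _).trans (Finset.sum_le_sum fun k _ => ?_)
      rw [norm_mul]
    calc ‖⟪e i, M i⟫_ℂ‖ ^ 2
        ≤ (∑ k, ‖⟪((b k : V) : E), M i⟫_ℂ‖ * ‖⟪e i, ((b k : V) : E)⟫_ℂ‖) ^ 2 :=
          pow_le_pow_left₀ (norm_nonneg _) h2 2
      _ ≤ (∑ k, ‖⟪((b k : V) : E), M i⟫_ℂ‖ ^ 2) * ∑ k, ‖⟪e i, ((b k : V) : E)⟫_ℂ‖ ^ 2 :=
          Finset.sum_mul_sq_le_sq_mul_sq _ _ _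
      _ ≤ B * ∑ k, ‖⟪e i, ((b k : V) : E)⟫_ℂ‖ ^ 2 := by
          rw [hpars i]
          exact mul_le_mul_of_nonneg_right (hB i) (Finset.sum_nonneg fun _ _ => by positivity)
  calc ∑ i, ‖⟪e i, M i⟫_ℂ‖ ^ 2 ≤ ∑ i, B * ∑ k, ‖⟪e i, ((b k : V) : E)⟫_ℂ‖ ^ 2 :=
        Finset.sum_le_sum fun i _ => hone i
    _ = B * ∑ k, ∑ i, ‖⟪e i, ((b k : V) : E)⟫_ℂ‖ ^ 2 := by
        rw [← Finset.mul_sum, Finset.sum_comm]
    _ ≤ B * ∑ k : Fin (finrank ℂ V), (1 : ℝ) := by
        refine mul_le_mul_of_nonneg_left (Finset.sum_le_sum fun k _ => ?_) hB0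
        have h1 := he.sum_inner_products_le ((b k : V) : E) (s := Finset.univ)
        have h2 : ‖((b k : V) : E)‖ = 1 := b.orthonormal.1 k
        rw [h2] at h1
        simpa using h1
    _ = _ := by simp

/-! ### Characters of the cube -/

/-- sign -/
def sg (b : Bool) : ℝ := if b then -1 else 1

lemma sg_sq (b : Bool) : sg b * sg b = 1 := by cases b <;> norm_num [sg]

variable {ι : Type} [Fintype ι] [DecidableEq ι]

/-- character -/
noncomputable def chi (S : Finset ι) (x : ι → Bool) : ℝ := ∏ i ∈ S, sg (x i)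

lemma chi_mul (S T : Finset ι) (x : ι → Bool) : chi S x * chi T x =
    ∏ i : ι, ((if i ∈ S then sg (x i) else 1) * (if i ∈ T then sg (x i) else 1)) := by
  unfold chi
  rw [Finset.prod_mul_distrib]
  congr 1 <;> simp [Finset.prod_ite_mem]

lemma sum_chi (S T : Finset ι) : ∑ x : ι → Bool, chi S x * chi T x =
    if S = T then (2 : ℝ) ^ Fintype.card ι else 0 := by
  simp_rw [chi_mul]
  have h1 := Finset.prod_univ_sum (fun _ : ι => (Finset.univ : Finset Bool))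
    (fun i b => (if i ∈ S then sg b else 1) * (if i ∈ T then sg b else 1))
  rw [Fintype.piFinset_univ] at h1
  rw [← h1]
  split_ifs with h
  · subst h
    have : ∀ i : ι, ∑ b : Bool, (if i ∈ S then sg b else 1) * (if i ∈ S then sg b else 1) = 2 := by
      intro i
      by_cases hi : i ∈ S
      · simp [hi, sg]; norm_num
      · simp [hi]
    simp only [this, Finset.prod_const, Finset.card_univ]
  · obtain ⟨i, hi⟩ : ∃ i, ¬ (i ∈ S ↔ i ∈ T) := by
      by_contra hc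
      push Not at hc
      exact h (Finset.ext hc)
    apply Finset.prod_eq_zero (Finset.mem_univ i)
    by_cases h1 : i ∈ S
    · have h2 : i ∉ T := fun h2 => hi ⟨fun _ => h2, fun _ => h1⟩
      simp [h1, h2, sg]
    · have h2 : i ∈ T := by
        by_contra h2
        exact hi ⟨fun h => absurd h h1, fun h => absurd h h2⟩
      simp [h1, h2, sg]

/-- The cube as a Hilbert space. -/
abbrev Cu (ι : Type) [Fintype ι] [DecidableEq ι] : Type := EuclideanSpace ℂ (ι → Bool)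

/-- real functions on the cube -/
noncomputable def ofR (f : (ι → Bool) → ℝ) : Cu ι := WithLp.toLp 2 (fun x => (f x : ℂ))

lemma inner_ofR (f g : (ι → Bool) → ℝ) : ⟪ofR f, ofR g⟫_ℂ = ((∑ x, f x * g x : ℝ) : ℂ) := by
  rw [PiLp.inner_apply]
  push_cast
  refine Finset.sum_congr rfl fun x _ => ?_
  simp [ofR, mul_comm]

/-- Functions `t i` on the cube with values in `[-1, 1]` which are correlated with the coordinates:
the products span a space of large dimension. -/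
theorem cube_bound (t : ι → (ι → Bool) → ℝ) (c : ℝ) (hc : 0 < c) (h1 : ∀ i x, |t i x| ≤ 1)
    (h2 : ∀ i x, c ≤ sg (x i) * t i x) (V : Submodule ℂ (Cu ι))
    (hV : ∀ S : Finset ι, ofR (fun x => ∏ i ∈ S, t i x) ∈ V) :
    (1 + c ^ 2) ^ Fintype.card ι ≤ (finrank ℂ V : ℝ) := by
  set n := Fintype.card ι with hn
  have h2n : (0 : ℝ) < 2 ^ n := by positivity
  set r : ℝ := Real.sqrt (2 ^ n) with hr
  have hr0 : 0 < r := Real.sqrt_pos.mpr h2n
  have hrr : r * r = 2 ^ n := Real.mul_self_sqrt h2n.le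
  let e : Finset ι → Cu ι := fun S => ofR (fun x => r⁻¹ * chi S x)
  have he : Orthonormal ℂ e := by
    rw [orthonormal_iff_ite]
    intro S T
    simp only [e]
    rw [inner_ofR]
    have h3 : ∑ x : ι → Bool, r⁻¹ * chi S x * (r⁻¹ * chi T x) =
        (r * r)⁻¹ * ∑ x : ι → Bool, chi S x * chi T x := by
      rw [Finset.mul_sum]
      refine Finset.sum_congr rfl fun x _ => ?_
      rw [mul_inv]
      ring
    rw [h3, sum_chi, hrr]
    split_ifs
    · rw [inv_mul_cancel₀ h2n.ne']; simp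
    · simp
  let M : Finset ι → Cu ι := fun S => ofR (fun x => ∏ i ∈ S, t i x)
  have hB : ∀ S, ‖M S‖ ^ 2 ≤ 2 ^ n := by
    intro S
    have h3 : ((‖M S‖ ^ 2 : ℝ) : ℂ) = ⟪M S, M S⟫_ℂ := by
      rw [inner_self_eq_norm_sq_to_K]
      push_cast
      rfl
    simp only [M] at h3
    rw [inner_ofR] at h3
    have h4 : ‖M S‖ ^ 2 = ∑ x : ι → Bool, (∏ i ∈ S, t i x) * (∏ i ∈ S, t i x) := by
      exact_mod_cast h3
    rw [h4]
    calc ∑ x : ι → Bool, (∏ i ∈ S, t i x) * (∏ i ∈ S, t i x) ≤ ∑ x : ι → Bool, (1 : ℝ) := by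
          refine Finset.sum_le_sum fun x _ => ?_
          have h5 : |∏ i ∈ S, t i x| ≤ 1 := by
            rw [Finset.abs_prod]
            exact Finset.prod_le_one (fun i _ => abs_nonneg _) (fun i _ => h1 i x)
          rw [← abs_mul_abs_self]
          nlinarith [abs_nonneg (∏ i ∈ S, t i x)]
      _ = 2 ^ n := by simp [hn]
  have hmain := dim_bound e he V M hV (2 ^ n) h2n.le hB
  have hlow : ∀ S : Finset ι, 2 ^ n * (c ^ 2) ^ S.card ≤ ‖⟪e S, M S⟫_ℂ‖ ^ 2 := by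
    intro S
    simp only [e, M]
    rw [inner_ofR, Complex.norm_real, Real.norm_eq_abs, sq_abs]
    have h3 : ∑ x : ι → Bool, r⁻¹ * chi S x * ∏ i ∈ S, t i x =
        r⁻¹ * ∑ x : ι → Bool, ∏ i ∈ S, (sg (x i) * t i x) := by
      rw [Finset.mul_sum]
      refine Finset.sum_congr rfl fun x _ => ?_
      unfold chi
      rw [Finset.prod_mul_distrib]
      ring
    have h4 : 2 ^ n * c ^ S.card ≤ ∑ x : ι → Bool, ∏ i ∈ S, (sg (x i) * t i x) := by
      calc (2 : ℝ) ^ n * c ^ S.card = ∑ x : ι → Bool, c ^ S.card := by simp [hn]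
        _ ≤ _ := by
          refine Finset.sum_le_sum fun x _ => ?_
          rw [← Finset.prod_const]
          exact Finset.prod_le_prod (fun i _ => hc.le) (fun i _ => h2 i x)
    rw [h3, mul_pow, inv_pow, sq r, hrr]
    have h5 : (2 ^ n * c ^ S.card) ^ 2 ≤ (∑ x : ι → Bool, ∏ i ∈ S, (sg (x i) * t i x)) ^ 2 :=
      pow_le_pow_left₀ (by positivity) h4 2
    calc (2 : ℝ) ^ n * (c ^ 2) ^ S.card = (2 ^ n)⁻¹ * (2 ^ n * c ^ S.card) ^ 2 := by
          have h6 : (c ^ 2) ^ S.card = (c ^ S.card) ^ 2 := by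
            rw [← pow_mul, ← pow_mul, mul_comm]
          rw [h6]
          field_simp
      _ ≤ _ := mul_le_mul_of_nonneg_left h5 (by positivity)
  have hsum : ∑ S : Finset ι, (c ^ 2) ^ S.card = (1 + c ^ 2) ^ n := by
    have h3 := Fintype.sum_pow_mul_eq_add_pow ι (c ^ 2) (1 : ℝ)
    simp only [one_pow, mul_one] at h3
    rw [h3, add_comm, hn]
  have h6 : 2 ^ n * (1 + c ^ 2) ^ n ≤ 2 ^ n * (finrank ℂ V : ℝ) := by
    rw [← hsum, Finset.mul_sum]
    exact (Finset.sum_le_sum fun S _ => hlow S).trans hmain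
  exact le_of_mul_le_mul_left h6 h2n

end Pool.Agent.TH64.NoGo
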