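import Mathlib
import Pool.Agent.TH64.NoGoLin
import Pool.Agent.H4R2.Rdm

set_option autoImplicit false
set_option linter.unusedSectionVars false

open scoped BigOperators InnerProductSpace
open Finset Module
open Pool.Agent.H4R2

namespace Pool.Agent.TH64.NoGo

/-- index set of the entries of a tensor -/
abbrev TI (d D : ℕ) : Type := Fin d × Fin D × Fin D × Fin D × Fin D

/-- the entries of a tensor and their conjugates -/
noncomputable def val {d D : ℕ} (A : Tensor d D) : TI d D ⊕ TI d D → ℂ :=
  Sum.elim (fun t => A t.1 t.2.1 t.2.2.1 t.2.2.2.1 t.2.2.2.2)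
    (fun t => (starRingEnd ℂ) (A t.1 t.2.1 t.2.2.1 t.2.2.2.1 t.2.2.2.2))

/-- the contraction as a polynomial in the entries, with the entries embedded by `f` -/
noncomputable def pol (d D : ℕ) (f : TI d D → TI d D ⊕ TI d D) (L : ℕ) [NeZero L]
    (s : Site L → Fin d) : MvPolynomial (TI d D ⊕ TI d D) ℂ :=
  ∑ h : Site L → Fin D, ∑ v : Site L → Fin D, ∏ x : Site L,
    MvPolynomial.X (f (s x, h (x.1 - 1, x.2), h x, v x, v (x.1, x.2 - 1)))

variable {d D : ℕ}

lemma eval_pol_inl (A : Tensor d D) (L : ℕ) [NeZero L] (s : Site L → Fin d) :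
    MvPolynomial.eval (val A) (pol d D Sum.inl L s) = contract A L s := by
  unfold pol contract
  simp [val]

lemma eval_pol_inr (A : Tensor d D) (L : ℕ) [NeZero L] (s : Site L → Fin d) :
    MvPolynomial.eval (val A) (pol d D Sum.inr L s) = (starRingEnd ℂ) (contract A L s) := by
  unfold pol contract
  simp [val]

lemma deg_pol (f : TI d D → TI d D ⊕ TI d D) (L : ℕ) [NeZero L] (s : Site L → Fin d) :
    (pol d D f L s).totalDegree ≤ L ^ 2 := by
  unfold pol
  refine (MvPolynomial.totalDegree_finsetSum_le fun h _ => ?_)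
  refine (MvPolynomial.totalDegree_finsetSum_le fun v _ => ?_)
  refine (MvPolynomial.totalDegree_finsetProd _ _).trans ?_
  refine (Finset.sum_le_sum (g := fun _ => 1) fun x _ => ?_).trans ?_
  · exact (MvPolynomial.totalDegree_X _).le
  · simp [sq, ZMod.card]

/-- norm squared and marginal at one configuration of the region -/
noncomputable def polN (d D : ℕ) (L : ℕ) [NeZero L] : MvPolynomial (TI d D ⊕ TI d D) ℂ :=
  ∑ s : Site L → Fin d, pol d D Sum.inl L s * pol d D Sum.inr L s

open Classical in
/-- probability (times the norm squared) to find the value `c` at the origin -/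
noncomputable def polQ (d D : ℕ) (c : Fin d) (L : ℕ) [NeZero L] : MvPolynomial (TI d D ⊕ TI d D) ℂ :=
  ∑ s : Site L → Fin d, if s 0 = c then pol d D Sum.inl L s * pol d D Sum.inr L s else 0

open Classical in
/-- unnormalised probability -/
noncomputable def prob {L : ℕ} [NeZero L] (c : Fin d) (φ : (Site L → Fin d) → ℂ) : ℝ :=
  ∑ s : Site L → Fin d, if s 0 = c then ‖φ s‖ ^ 2 else 0

lemma deg_mul (L : ℕ) [NeZero L] (s : Site L → Fin d) :
    (pol d D Sum.inl L s * pol d D Sum.inr L s).totalDegree ≤ 2 * L ^ 2 := by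
  refine (MvPolynomial.totalDegree_mul _ _).trans ?_
  have h1 := deg_pol (d := d) (D := D) Sum.inl L s
  have h2 := deg_pol (d := d) (D := D) Sum.inr L s
  omega

lemma deg_polN (L : ℕ) [NeZero L] : (polN d D L).totalDegree ≤ 2 * L ^ 2 := by
  unfold polN
  exact MvPolynomial.totalDegree_finsetSum_le fun s _ => deg_mul L s

lemma deg_polQ (c : Fin d) (L : ℕ) [NeZero L] : (polQ d D c L).totalDegree ≤ 2 * L ^ 2 := by
  unfold polQ
  refine MvPolynomial.totalDegree_finsetSum_le fun s _ => ?_
  split_ifs
  · exact deg_mul L s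
  · simp

lemma eval_mul (A : Tensor d D) (L : ℕ) [NeZero L] (s : Site L → Fin d) :
    MvPolynomial.eval (val A) (pol d D Sum.inl L s * pol d D Sum.inr L s) =
      ((‖contract A L s‖ ^ 2 : ℝ) : ℂ) := by
  rw [map_mul, eval_pol_inl, eval_pol_inr, Complex.mul_conj, Complex.normSq_eq_norm_sq]

lemma eval_polN (A : Tensor d D) (L : ℕ) [NeZero L] :
    MvPolynomial.eval (val A) (polN d D L) = ((normSq (contract A L) : ℝ) : ℂ) := by
  unfold polN normSq
  rw [map_sum]
  simp only [eval_mul]
  push_cast
  rfl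

lemma eval_polQ (A : Tensor d D) (c : Fin d) (L : ℕ) [NeZero L] :
    MvPolynomial.eval (val A) (polQ d D c L) = ((prob c (contract A L) : ℝ) : ℂ) := by
  classical
  unfold polQ prob
  rw [map_sum]
  push_cast
  refine Finset.sum_congr rfl fun s _ => ?_
  split_ifs
  · rw [eval_mul]
  · simp

/-- Polynomials of bounded degree, evaluated at given tensors and divided by a weight, span a space
of small dimension. -/
theorem poly_span {ι : Type} [Fintype ι] [DecidableEq ι] (A : (ι → Bool) → Tensor d D)
    (w : (ι → Bool) → ℝ) (n : ℕ) :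
    ∃ V : Submodule ℂ (Cu ι), (finrank ℂ V : ℝ) ≤ ((n : ℝ) + 1) ^ (2 * (d * D ^ 4)) ∧
      ∀ (p : MvPolynomial (TI d D ⊕ TI d D) ℂ), p.totalDegree ≤ n → ∀ f : (ι → Bool) → ℝ,
        (∀ x, (f x : ℂ) = MvPolynomial.eval (val (A x)) p / (w x : ℂ)) → ofR f ∈ V := by
  classical
  let g : (TI d D ⊕ TI d D → Fin (n + 1)) → Cu ι := fun μ =>
    WithLp.toLp 2 (fun x => (∏ j, val (A x) j ^ (μ j : ℕ)) / (w x : ℂ))
  refine ⟨Submodule.span ℂ (Set.range g), ?_, ?_⟩
  · have h1 := finrank_range_le_card (R := ℂ) g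
    have h2 : Fintype.card (TI d D ⊕ TI d D → Fin (n + 1)) = (n + 1) ^ (2 * (d * D ^ 4)) := by
      rw [← Nat.card_eq_fintype_card, Nat.card_fun, Nat.card_eq_fintype_card,
        Nat.card_eq_fintype_card, Fintype.card_fin]
      congr 1
      simp only [Fintype.card_sum, Fintype.card_prod, Fintype.card_fin]
      ring
    unfold Set.finrank at h1
    rw [h2] at h1
    exact_mod_cast h1
  · intro p hp f hf
    have h1 : ofR f = ∑ m ∈ p.support, p.coeff m • g (fun j => Fin.ofNat (n + 1) (m j)) := by
      apply WithLp.ofLp_injective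
      funext x
      simp only [WithLp.ofLp_sum, WithLp.ofLp_smul, Finset.sum_apply, Pi.smul_apply, smul_eq_mul]
      change (f x : ℂ) = _
      rw [hf x, MvPolynomial.eval_eq', Finset.sum_div]
      refine Finset.sum_congr rfl fun m hm => ?_
      rw [mul_div_assoc]
      congr 1
      change _ = (∏ j, val (A x) j ^ ((Fin.ofNat (n + 1) (m j) : Fin (n + 1)) : ℕ)) / (w x : ℂ)
      congr 1
      refine Finset.prod_congr rfl fun j _ => ?_
      congr 1
      have h2 : m j ≤ n := by
        have h3 := MvPolynomial.le_totalDegree hm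
        have h4 : m j ≤ m.sum fun _ e => e := by
          by_cases hj : j ∈ m.support
          · exact Finset.single_le_sum (f := fun i => m i) (fun _ _ => Nat.zero_le _) hj
          · rw [Finsupp.notMem_support_iff.mp hj]; exact Nat.zero_le _
        omega
      simp only [Fin.ofNat]
      exact (Nat.mod_eq_of_lt (by omega)).symm
    rw [h1]
    exact Submodule.sum_mem _ fun m _ => Submodule.smul_mem _ _ (Submodule.subset_span ⟨_, rfl⟩)

end Pool.Agent.TH64.NoGo
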