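import Mathlib
import Pool.Agent.TH64.NoGoPoly

set_option autoImplicit false
set_option linter.unusedSectionVars false

open scoped BigOperators InnerProductSpace
open Finset Module
open Pool.Agent.H4R2

namespace Pool.Agent.TH64.NoGo

variable {d D : ℕ}

lemma prob_nonneg {L : ℕ} [NeZero L] (c : Fin d) (φ : (Site L → Fin d) → ℂ) : 0 ≤ prob c φ := by
  classical
  unfold prob
  exact Finset.sum_nonneg fun s _ => by split_ifs <;> positivity

lemma prob_le {L : ℕ} [NeZero L] (c : Fin d) (φ : (Site L → Fin d) → ℂ) : prob c φ ≤ normSq φ := by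
  classical
  unfold prob normSq
  exact Finset.sum_le_sum fun s _ => by split_ifs <;> [exact le_rfl; positivity]

lemma sum_prob {L : ℕ} [NeZero L] (φ : (Site L → Fin d) → ℂ) : ∑ c, prob c φ = normSq φ := by
  classical
  unfold prob normSq
  rw [Finset.sum_comm]
  refine Finset.sum_congr rfl fun s _ => ?_
  simp

/-- The finite impossibility statement: if the tensors `A x` produce all patterns `x` at the sizes
`k i + 1`, the bond dimension is large. -/
theorem core {ι : Type} [Fintype ι] [DecidableEq ι] (k : ι → ℕ) (c : ℝ) (hc : 0 < c) (e : Fin d)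
    (A : (ι → Bool) → Tensor d D)
    (hN : ∀ i x, 0 < normSq (contract (A x) (k i + 1)))
    (hcorr : ∀ i x, c ≤ sg (x i) *
      (1 - 2 * (prob e (contract (A x) (k i + 1)) / normSq (contract (A x) (k i + 1))))) :
    (1 + c ^ 2) ^ Fintype.card ι ≤
      (((∑ i, 2 * (k i + 1) ^ 2 : ℕ) : ℝ) + 1) ^ (2 * (d * D ^ 4)) := by
  classical
  set t : ι → (ι → Bool) → ℝ := fun i x =>
    1 - 2 * (prob e (contract (A x) (k i + 1)) / normSq (contract (A x) (k i + 1))) with ht
  have h1 : ∀ i x, |t i x| ≤ 1 := by
    intro i x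
    have h2 := prob_nonneg e (contract (A x) (k i + 1))
    have h3 := prob_le e (contract (A x) (k i + 1))
    have h4 := hN i x
    have h5 : 0 ≤ prob e (contract (A x) (k i + 1)) / normSq (contract (A x) (k i + 1)) :=
      div_nonneg h2 h4.le
    have h6 : prob e (contract (A x) (k i + 1)) / normSq (contract (A x) (k i + 1)) ≤ 1 :=
      (div_le_one h4).mpr h3
    rw [abs_le]
    simp only [ht]
    constructor <;> linarith
  set w : (ι → Bool) → ℝ := fun x => ∏ i, normSq (contract (A x) (k i + 1)) with hw
  obtain ⟨V, hV1, hV2⟩ := poly_span A w (∑ i, 2 * (k i + 1) ^ 2)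
  refine le_trans (cube_bound t c hc h1 hcorr V ?_) hV1
  intro S
  let p : MvPolynomial (TI d D ⊕ TI d D) ℂ := ∏ i : ι, if i ∈ S then
    polN d D (k i + 1) - (polQ d D e (k i + 1) + polQ d D e (k i + 1)) else polN d D (k i + 1)
  apply hV2 p
  · refine (MvPolynomial.totalDegree_finsetProd _ _).trans (Finset.sum_le_sum fun i _ => ?_)
    split_ifs
    · refine (MvPolynomial.totalDegree_sub _ _).trans (max_le (deg_polN _) ?_)
      exact (MvPolynomial.totalDegree_add _ _).trans (max_le (deg_polQ _ _) (deg_polQ _ _))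
    · exact deg_polN _
  · intro x
    simp only [p, map_prod, hw]
    push_cast
    rw [← Finset.prod_div_distrib]
    have h2 : ∀ i : ι, MvPolynomial.eval (val (A x)) (if i ∈ S then
        polN d D (k i + 1) - (polQ d D e (k i + 1) + polQ d D e (k i + 1)) else polN d D (k i + 1)) /
        ((normSq (contract (A x) (k i + 1)) : ℝ) : ℂ) = if i ∈ S then ((t i x : ℝ) : ℂ) else 1 := by
      intro i
      have h3 : ((normSq (contract (A x) (k i + 1)) : ℝ) : ℂ) ≠ 0 := by
        exact_mod_cast (hN i x).ne'
      split_ifs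
      · rw [map_sub, map_add, eval_polN, eval_polQ]
        simp only [ht]
        push_cast
        field_simp
        ring
      · rw [eval_polN, div_self h3]
    simp only [h2]
    rw [Finset.prod_ite_mem]
    simp

/-! ### Trace norm and diagonal entries -/

/-- The sum of the absolute values of the diagonal entries is at most the trace norm. -/
theorem sum_diag_le {n : Type*} [Fintype n] [DecidableEq n] (X : Matrix n n ℂ) :
    ∑ i, ‖X i i‖ ≤ traceNorm X := by
  classical
  have hX := Matrix.isHermitian_conjTranspose_mul_self X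
  set U : Matrix n n ℂ := (hX.eigenvectorUnitary : Matrix n n ℂ) with hU
  have hUU : U * U.conjTranspose = 1 := by
    have := (Matrix.mem_unitaryGroup_iff).mp hX.eigenvectorUnitary.2
    exact this
  have hUU' : U.conjTranspose * U = 1 := by
    have := (Matrix.mem_unitaryGroup_iff').mp hX.eigenvectorUnitary.2
    exact this
  have hdiag : (X * U).conjTranspose * (X * U) = Matrix.diagonal (fun i => (hX.eigenvalues i : ℂ)) := by
    have h1 := hX.spectral_theorem
    rw [Matrix.conjTranspose_mul, Matrix.mul_assoc, ← Matrix.mul_assoc X.conjTranspose]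
    have h2 : X.conjTranspose * X = U * Matrix.diagonal (fun i => (hX.eigenvalues i : ℂ)) *
        U.conjTranspose := by
      conv_lhs => rw [h1]
      rfl
    refine (congrArg (fun Z => U.conjTranspose * (Z * U)) h2).trans ?_
    change U.conjTranspose * (U * Matrix.diagonal (fun i => (hX.eigenvalues i : ℂ)) *
          U.conjTranspose * U) = _
    calc U.conjTranspose * (U * Matrix.diagonal (fun i => (hX.eigenvalues i : ℂ)) *
          U.conjTranspose * U)
        = (U.conjTranspose * U) * Matrix.diagonal (fun i => (hX.eigenvalues i : ℂ)) *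
          (U.conjTranspose * U) := by
          simp only [Matrix.mul_assoc]
      _ = _ := by rw [hUU', one_mul, mul_one]
  have hev : ∀ k, ∑ i, ‖(X * U) i k‖ ^ 2 = hX.eigenvalues k := by
    intro k
    have h1 := congrFun (congrFun hdiag k) k
    rw [Matrix.mul_apply, Matrix.diagonal_apply_eq] at h1
    have h2 : ((∑ i, ‖(X * U) i k‖ ^ 2 : ℝ) : ℂ) = (hX.eigenvalues k : ℂ) := by
      rw [← h1]
      push_cast
      refine Finset.sum_congr rfl fun i _ => ?_
      rw [Matrix.conjTranspose_apply, RCLike.star_def, mul_comm, Complex.mul_conj,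
        Complex.normSq_eq_norm_sq]
      push_cast
      rfl
    exact_mod_cast h2
  have hunit : ∀ k, ∑ i, ‖U i k‖ ^ 2 = 1 := by
    intro k
    have h1 := congrFun (congrFun hUU' k) k
    rw [Matrix.mul_apply, Matrix.one_apply_eq] at h1
    have h2 : ((∑ i, ‖U i k‖ ^ 2 : ℝ) : ℂ) = 1 := by
      rw [← h1]
      push_cast
      refine Finset.sum_congr rfl fun i _ => ?_
      rw [Matrix.conjTranspose_apply, RCLike.star_def, mul_comm, Complex.mul_conj,
        Complex.normSq_eq_norm_sq]
      push_cast
      rfl
    exact_mod_cast h2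
  have hXii : ∀ i, X i i = ∑ k, (X * U) i k * (starRingEnd ℂ) (U i k) := by
    intro i
    have h1 : X = (X * U) * U.conjTranspose := by
      rw [Matrix.mul_assoc, hUU, mul_one]
    conv_lhs => rw [h1]
    rw [Matrix.mul_apply]
    refine Finset.sum_congr rfl fun k _ => ?_
    rw [Matrix.conjTranspose_apply, RCLike.star_def]
  calc ∑ i, ‖X i i‖ ≤ ∑ i, ∑ k, ‖(X * U) i k‖ * ‖U i k‖ := by
        refine Finset.sum_le_sum fun i _ => ?_
        rw [hXii i]
        refine (norm_sum_le _ _).trans (Finset.sum_le_sum fun k _ => ?_)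
        rw [norm_mul, RCLike.norm_conj]
    _ = ∑ k, ∑ i, ‖(X * U) i k‖ * ‖U i k‖ := Finset.sum_comm
    _ ≤ ∑ k, Real.sqrt (hX.eigenvalues k) := by
        refine Finset.sum_le_sum fun k _ => ?_
        apply Real.le_sqrt_of_sq_le
        refine (Finset.sum_mul_sq_le_sq_mul_sq _ _ _).trans ?_
        rw [hev k, hunit k, mul_one]
    _ = traceNorm X := rfl

end Pool.Agent.TH64.NoGo
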