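import Mathlib
import Pool.Agent.TH64.NoGoCore

set_option autoImplicit false
set_option linter.unusedSectionVars false

open scoped BigOperators InnerProductSpace
open Finset Module
open Pool.Agent.H4R2

namespace Pool.Agent.TH64.NoGo

/-- the region consisting of one site -/
abbrev R0 : Finset (ℤ × ℤ) := {(0, 0)}

/-- its site -/
abbrev x0 : R0 := ⟨(0, 0), by simp⟩

lemma eq_x0 (y : R0) : y = x0 := by
  apply Subtype.ext
  exact Finset.mem_singleton.mp y.2

lemma torus_x0 (L : ℕ) (y : R0) : toTorus L y = 0 := by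
  rw [eq_x0 y]
  unfold toTorus
  simp

variable {d : ℕ}

/-- configurations of one site -/
def E0 (d : ℕ) : (R0 → Fin d) ≃ Fin d where
  toFun a := a x0
  invFun c := fun _ => c
  left_inv a := by funext y; rw [eq_x0 y]
  right_inv c := rfl

lemma ker_diag {L : ℕ} [NeZero L] (a : R0 → Fin d) (s t : Site L → Fin d) :
    Ker (fun x : R0 => toTorus L x) a a s t ↔ s = t ∧ s 0 = a x0 := by
  unfold Ker
  simp only [torus_x0]
  constructor
  · rintro ⟨h1, h2, h3⟩
    refine ⟨?_, h1 x0⟩
    funext v
    by_cases hv : v = 0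
    · rw [hv, h1 x0, h2 x0]
    · exact h3 v (fun _ h => hv h.symm)
  · rintro ⟨rfl, h⟩
    refine ⟨fun x => by rw [eq_x0 x, h], fun x => by rw [eq_x0 x, h], fun _ _ => rfl⟩

lemma rdm_diag {L : ℕ} [NeZero L] (a : R0 → Fin d) (φ : (Site L → Fin d) → ℂ) :
    rdm (fun x : R0 => toTorus L x) φ a a = ((prob (a x0) φ : ℝ) : ℂ) := by
  classical
  rw [rdm_apply]
  unfold prob
  push_cast
  refine Finset.sum_congr rfl fun s _ => ?_
  rw [Finset.sum_eq_single s]
  · by_cases h : s 0 = a x0
    · rw [if_pos ((ker_diag a s s).mpr ⟨rfl, h⟩), if_pos h, Complex.mul_conj,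
        Complex.normSq_eq_norm_sq]
    · rw [if_neg (fun hk => h ((ker_diag a s s).mp hk).2), if_neg h]
      simp
  · intro t _ hne
    rw [if_neg]
    intro hk
    exact hne ((ker_diag a s t).mp hk).1.symm
  · intro hc; exact absurd (Finset.mem_univ _) hc

open Classical in
/-- The product state in which every site is in the basis state `b`. -/
noncomputable def prodSt (b : Fin d) (L : ℕ) [NeZero L] : (Site L → Fin d) → ℂ :=
  fun s => if s = fun _ => b then 1 else 0

lemma normSq_prodSt (b : Fin d) (L : ℕ) [NeZero L] : normSq (prodSt b L) = 1 := by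
  classical
  unfold normSq prodSt
  rw [Finset.sum_eq_single (fun _ => b)]
  · simp
  · intro s _ hs; simp [hs]
  · intro hc; exact absurd (Finset.mem_univ _) hc

lemma prob_prodSt (b c : Fin d) (L : ℕ) [NeZero L] :
    prob c (prodSt b L) = if b = c then 1 else 0 := by
  classical
  unfold prob prodSt
  rw [Finset.sum_eq_single (fun _ => b)]
  · simp
  · intro s _ hs; simp [hs]
  · intro hc; exact absurd (Finset.mem_univ _) hc

/-- A good approximation of the marginal of a product state has a large probability. -/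
lemma prob_ge {L : ℕ} [NeZero L] (b : Fin d) (φ : (Site L → Fin d) → ℂ) (hφ : 0 < normSq φ) (δ : ℝ)
    (h : traceNorm (redState R0 (prodSt b L) - redState R0 φ) ≤ δ) :
    1 - δ / 2 ≤ prob b φ / normSq φ := by
  classical
  have h1 := (sum_diag_le (redState R0 (prodSt b L) - redState R0 φ)).trans h
  have h2 : ∀ a : R0 → Fin d, ‖(redState R0 (prodSt b L) - redState R0 φ) a a‖ =
      |(if b = a x0 then (1 : ℝ) else 0) - prob (a x0) φ / normSq φ| := by
    intro a
    rw [Matrix.sub_apply]
    unfold redState
    simp only [Matrix.smul_apply, smul_eq_mul]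
    rw [rdm_diag, rdm_diag, normSq_prodSt, prob_prodSt]
    rw [← Real.norm_eq_abs, ← Complex.norm_real]
    congr 1
    push_cast
    rw [inv_one, one_mul, inv_mul_eq_div]
  simp only [h2] at h1
  have h3 : ∑ a : R0 → Fin d, |(if b = a x0 then (1 : ℝ) else 0) - prob (a x0) φ / normSq φ| =
      ∑ c : Fin d, |(if b = c then (1 : ℝ) else 0) - prob c φ / normSq φ| :=
    Fintype.sum_equiv (E0 d) _ _ fun a => rfl
  rw [h3] at h1
  rw [← Finset.add_sum_erase _ _ (Finset.mem_univ b)] at h1
  have hb1 : prob b φ / normSq φ ≤ 1 := (div_le_one hφ).mpr (prob_le b φ)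
  have h4 : ∑ c ∈ Finset.univ.erase b, |(if b = c then (1 : ℝ) else 0) - prob c φ / normSq φ| =
      ∑ c ∈ Finset.univ.erase b, prob c φ / normSq φ := by
    refine Finset.sum_congr rfl fun c hc => ?_
    rw [if_neg (Finset.ne_of_mem_erase hc).symm, zero_sub, abs_neg, abs_of_nonneg]
    exact div_nonneg (prob_nonneg c φ) hφ.le
  have h5 : ∑ c ∈ Finset.univ.erase b, prob c φ / normSq φ = 1 - prob b φ / normSq φ := by
    have h6 : ∑ c, prob c φ / normSq φ = 1 := by
      rw [← Finset.sum_div, sum_prob, div_self hφ.ne']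
    rw [← Finset.add_sum_erase _ _ (Finset.mem_univ b)] at h6
    linarith
  rw [h4, h5, if_pos rfl, abs_of_nonneg (by linarith)] at h1
  linarith

lemma prob_add_le {L : ℕ} [NeZero L] (b c : Fin d) (hbc : b ≠ c) (φ : (Site L → Fin d) → ℂ) :
    prob b φ + prob c φ ≤ normSq φ := by
  classical
  rw [← sum_prob φ, ← Finset.sum_pair (f := fun c => prob c φ) hbc]
  exact Finset.sum_le_sum_of_subset_of_nonneg (Finset.subset_univ _) fun i _ _ => prob_nonneg i φ

/-- the two basis states -/
def bit (hd : 2 ≤ d) (b : Bool) : Fin d := if b then ⟨1, by omega⟩ else ⟨0, by omega⟩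

lemma corr (hd : 2 ≤ d) {L : ℕ} [NeZero L] (b : Bool) (φ : (Site L → Fin d) → ℂ)
    (hφ : 0 < normSq φ) (c : ℝ)
    (h : traceNorm (redState R0 (prodSt (bit hd b) L) - redState R0 φ) ≤ 1 - c) :
    c ≤ sg b * (1 - 2 * (prob (bit hd true) φ / normSq φ)) := by
  have h1 := prob_ge (bit hd b) φ hφ _ h
  cases b with
  | true =>
    simp only [sg]
    norm_num
    linarith
  | false =>
    simp only [sg]
    have hne : bit hd true ≠ bit hd false := by
      simp [bit]
    have h2 := prob_add_le (bit hd true) (bit hd false) hne φ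
    have h3 : prob (bit hd true) φ / normSq φ + prob (bit hd false) φ / normSq φ ≤ 1 := by
      rw [← add_div, div_le_one hφ]
      exact h2
    norm_num
    linarith

/-! ### The Hamiltonians -/

open Classical in
/-- The one-site interaction `1 - |b⟩⟨b|`. -/
noncomputable def loc (b : Fin d) : Matrix (R0 → Fin d) (R0 → Fin d) ℂ :=
  Matrix.diagonal (fun a => if a x0 = b then 0 else 1)

lemma loc_herm (b : Fin d) : (loc b).IsHermitian := by
  classical
  unfold loc
  rw [Matrix.isHermitian_diagonal_iff]
  intro a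
  rw [isSelfAdjoint_iff]
  split_ifs <;> simp

open Classical in
lemma term_loc (b : Fin d) (L : ℕ) [NeZero L] (u : Site L) (s t : Site L → Fin d) :
    term R0 (loc b) L u s t = if s = t then (if s u = b then 0 else 1) else 0 := by
  unfold term
  simp only [torus_x0, zero_add]
  by_cases hst : s = t
  · subst hst
    rw [if_pos (fun _ _ => rfl), if_pos rfl]
    unfold loc
    rw [Matrix.diagonal_apply_eq]
  · rw [if_neg hst]
    split_ifs with h1
    · unfold loc
      rw [Matrix.diagonal_apply_ne]
      intro h2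
      apply hst
      funext v
      by_cases hv : v = u
      · rw [hv]; exact congrFun h2 x0
      · exact h1 v (fun _ h => hv h.symm)
    · rfl

open Classical in
/-- number of sites that are not in the state `b` -/
noncomputable def cnt {L : ℕ} [NeZero L] (b : Fin d) (s : Site L → Fin d) : ℕ :=
  (Finset.univ.filter (fun u : Site L => s u ≠ b)).card

lemma ham_mulVec (b : Fin d) (L : ℕ) [NeZero L] (φ : (Site L → Fin d) → ℂ) (s : Site L → Fin d) :
    (ham R0 (loc b) L).mulVec φ s = (cnt b s : ℂ) * φ s := by
  classical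
  unfold ham Matrix.mulVec dotProduct
  rw [Finset.sum_eq_single s]
  · change (∑ u : Site L, term R0 (loc b) L u) s s * φ s = _
    rw [Matrix.sum_apply]
    congr 1
    simp only [term_loc, if_true]
    unfold cnt
    rw [Finset.card_filter]
    push_cast
    refine Finset.sum_congr rfl fun u _ => ?_
    by_cases h : s u = b <;> simp [h]
  · intro t _ hne
    change (∑ u : Site L, term R0 (loc b) L u) s t * φ t = 0
    rw [Matrix.sum_apply]
    simp only [term_loc, if_neg hne.symm, Finset.sum_const_zero, zero_mul]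
  · intro hc; exact absurd (Finset.mem_univ _) hc

lemma cnt_zero {L : ℕ} [NeZero L] (b : Fin d) (s : Site L → Fin d) (h : cnt b s = 0) :
    s = fun _ => b := by
  classical
  unfold cnt at h
  rw [Finset.card_eq_zero, Finset.filter_eq_empty_iff] at h
  funext u
  by_contra hc
  exact h (Finset.mem_univ u) hc

lemma cnt_const {L : ℕ} [NeZero L] (b : Fin d) : cnt b (fun _ : Site L => b) = 0 := by
  classical
  unfold cnt
  simp

/-- The product state is the unique ground state, with gap `1`. -/
theorem gapped_prodSt (b : Fin d) (L : ℕ) [NeZero L] :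
    IsGappedGround (ham R0 (loc b) L) 1 (prodSt b L) := by
  classical
  refine ⟨0, ?_, ?_, ?_⟩
  · funext s
    rw [ham_mulVec]
    unfold prodSt
    split_ifs with h
    · rw [h, cnt_const]; simp
    · simp
  · intro φ hφ
    refine ⟨φ (fun _ => b), ?_⟩
    funext s
    have h1 := congrFun hφ s
    rw [ham_mulVec] at h1
    simp only [Complex.ofReal_zero, zero_smul, Pi.zero_apply, mul_eq_zero, Nat.cast_eq_zero] at h1
    simp only [Pi.smul_apply, smul_eq_mul]
    unfold prodSt
    split_ifs with h
    · rw [h, mul_one]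
    · rcases h1 with h1 | h1
      · exact absurd (cnt_zero b s h1) h
      · rw [h1, mul_zero]
  · intro E' φ hφ0 hφ
    obtain ⟨s, hs⟩ : ∃ s, φ s ≠ 0 := by
      by_contra hc
      push Not at hc
      exact hφ0 (funext hc)
    have h1 := congrFun hφ s
    rw [ham_mulVec] at h1
    simp only [Pi.smul_apply, smul_eq_mul] at h1
    have h2 : ((cnt b s : ℕ) : ℂ) = (E' : ℂ) := mul_right_cancel₀ hs h1
    have h3 : ((cnt b s : ℕ) : ℝ) = E' := by exact_mod_cast h2
    by_cases h4 : cnt b s = 0
    · left
      rw [← h3, h4]; simp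
    · right
      rw [← h3, zero_add]
      exact_mod_cast Nat.one_le_iff_ne_zero.mpr h4

end Pool.Agent.TH64.NoGo
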