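import Mathlib
import Pool.Agent.TH64.NoGoPhys
import Pool.Agent.TH64.PerNet
import Pool.Agent.H4R2.Peps

set_option autoImplicit false
set_option linter.unusedSectionVars false

open scoped BigOperators InnerProductSpace
open Finset Module
open Pool.Agent.H4R2
open Pool.Agent.TH64.PerNet

namespace Pool.Agent.TH64.NoGo

/-- a site and its right and upper neighbours -/
abbrev B3 : Finset (ℤ × ℤ) := {(0, 0), (1, 0), (0, 1)}

variable {d : ℕ}

open Classical in
/-- The (generalised) Ising interaction: energy `0` if the three sites are all in the state `0` or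
all in the state `1`, energy `1` otherwise. -/
noncomputable def ising (hd : 2 ≤ d) : Matrix (B3 → Fin d) (B3 → Fin d) ℂ :=
  Matrix.diagonal (fun a => if ∃ b : Bool, ∀ x, a x = bit hd b then 0 else 1)

lemma ising_herm (hd : 2 ≤ d) : (ising hd).IsHermitian := by
  classical
  unfold ising
  rw [Matrix.isHermitian_diagonal_iff]
  intro a
  rw [isSelfAdjoint_iff]
  split_ifs <;> simp

/-- the three sites around `u` agree -/
def Ok (hd : 2 ≤ d) {L : ℕ} (s : Site L → Fin d) (u : Site L) : Prop :=
  ∃ b : Bool, ∀ x : B3, s (toTorus L x + u) = bit hd b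

open Classical in
lemma term_ising (hd : 2 ≤ d) (L : ℕ) [NeZero L] (u : Site L) (s t : Site L → Fin d) :
    term B3 (ising hd) L u s t = if s = t then (if Ok hd s u then 0 else 1) else 0 := by
  unfold term
  by_cases hst : s = t
  · subst hst
    rw [if_pos (fun _ _ => rfl), if_pos rfl]
    unfold ising
    rw [Matrix.diagonal_apply_eq]
    exact if_congr Iff.rfl rfl rfl
  · rw [if_neg hst]
    split_ifs with h1
    · unfold ising
      rw [Matrix.diagonal_apply_ne]
      intro h2
      apply hst
      funext v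
      by_cases hv : ∃ x : B3, toTorus L x + u = v
      · obtain ⟨x, rfl⟩ := hv
        exact congrFun h2 x
      · push Not at hv
        exact h1 v hv
    · rfl

open Classical in
/-- number of violated terms -/
noncomputable def cnt3 (hd : 2 ≤ d) {L : ℕ} [NeZero L] (s : Site L → Fin d) : ℕ :=
  (Finset.univ.filter (fun u : Site L => ¬ Ok hd s u)).card

lemma ham_ising_mulVec (hd : 2 ≤ d) (L : ℕ) [NeZero L] (φ : (Site L → Fin d) → ℂ)
    (s : Site L → Fin d) :
    (ham B3 (ising hd) L).mulVec φ s = (cnt3 hd s : ℂ) * φ s := by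
  classical
  unfold ham Matrix.mulVec dotProduct
  rw [Finset.sum_eq_single s]
  · change (∑ u : Site L, term B3 (ising hd) L u) s s * φ s = _
    rw [Matrix.sum_apply]
    congr 1
    simp only [term_ising, if_true]
    unfold cnt3
    rw [Finset.card_filter]
    push_cast
    refine Finset.sum_congr rfl fun u _ => ?_
    by_cases h : Ok hd s u <;> simp [h]
  · intro t _ hne
    change (∑ u : Site L, term B3 (ising hd) L u) s t * φ t = 0
    rw [Matrix.sum_apply]
    simp only [term_ising, if_neg hne.symm, Finset.sum_const_zero, zero_mul]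
  · intro hc; exact absurd (Finset.mem_univ _) hc

lemma cnt3_zero (hd : 2 ≤ d) {L : ℕ} [NeZero L] (s : Site L → Fin d) (h : cnt3 hd s = 0) :
    ∃ b : Bool, s = fun _ => bit hd b := by
  classical
  unfold cnt3 at h
  rw [Finset.card_eq_zero, Finset.filter_eq_empty_iff] at h
  have h1 : ∀ u, Ok hd s u := fun u => by
    by_contra hc
    exact h (Finset.mem_univ u) hc
  have hr : ∀ u : Site L, s (u.1 + 1, u.2) = s u := by
    intro u
    obtain ⟨b, hb⟩ := h1 u
    have e1 := hb ⟨(0, 0), by simp⟩
    have e2 := hb ⟨(1, 0), by simp⟩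
    have f1 : toTorus L ((0, 0) : ℤ × ℤ) + u = u := by simp [toTorus]
    have f2 : toTorus L ((1, 0) : ℤ × ℤ) + u = (u.1 + 1, u.2) := by
      apply Prod.ext <;> simp [toTorus, add_comm]
    rw [f1] at e1
    rw [f2] at e2
    rw [e1, e2]
  have hu : ∀ u : Site L, s (u.1, u.2 + 1) = s u := by
    intro u
    obtain ⟨b, hb⟩ := h1 u
    have e1 := hb ⟨(0, 0), by simp⟩
    have e2 := hb ⟨(0, 1), by simp⟩
    have f1 : toTorus L ((0, 0) : ℤ × ℤ) + u = u := by simp [toTorus]
    have f2 : toTorus L ((0, 1) : ℤ × ℤ) + u = (u.1, u.2 + 1) := by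
      apply Prod.ext <;> simp [toTorus, add_comm]
    rw [f1] at e1
    rw [f2] at e2
    rw [e1, e2]
  have h2 : ∀ x : Site L, s x = s (0, 0) := by
    apply const_of_left s
    · intro x
      have := hr (x.1 - 1, x.2)
      simp only [sub_add_cancel] at this
      exact this.symm
    · intro x
      have := hu (x.1, x.2 - 1)
      simp only [sub_add_cancel] at this
      exact this.symm
  obtain ⟨b, hb⟩ := h1 (0, 0)
  refine ⟨b, ?_⟩
  funext x
  rw [h2 x]
  have e1 := hb ⟨(0, 0), by simp⟩
  have f1 : toTorus L ((0, 0) : ℤ × ℤ) + ((0, 0) : Site L) = (0, 0) := by simp [toTorus]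
  rw [f1] at e1
  exact e1

lemma cnt3_const (hd : 2 ≤ d) {L : ℕ} [NeZero L] (b : Bool) :
    cnt3 hd (fun _ : Site L => bit hd b) = 0 := by
  classical
  unfold cnt3
  rw [Finset.card_eq_zero, Finset.filter_eq_empty_iff]
  intro u _ h
  exact h ⟨b, fun _ => rfl⟩

/-- The two product states span the ground space of the Ising Hamiltonian, with gap `1`. -/
theorem ising_ground (hd : 2 ≤ d) (L : ℕ) [NeZero L] :
    (∀ b : Bool, (ham B3 (ising hd) L).mulVec (prodSt (bit hd b) L) = 0) ∧
    (∀ φ : (Site L → Fin d) → ℂ, (ham B3 (ising hd) L).mulVec φ = 0 →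
      ∃ c₀ c₁ : ℂ, φ = c₀ • prodSt (bit hd false) L + c₁ • prodSt (bit hd true) L) ∧
    (∀ (E : ℝ) (φ : (Site L → Fin d) → ℂ), φ ≠ 0 →
      (ham B3 (ising hd) L).mulVec φ = (E : ℂ) • φ → E = 0 ∨ 1 ≤ E) := by
  classical
  refine ⟨?_, ?_, ?_⟩
  · intro b
    funext s
    rw [ham_ising_mulVec]
    unfold prodSt
    split_ifs with h
    · rw [h, cnt3_const]; simp
    · simp
  · intro φ hφ
    refine ⟨φ (fun _ => bit hd false), φ (fun _ => bit hd true), ?_⟩
    funext s
    have h1 := congrFun hφ s
    rw [ham_ising_mulVec] at h1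
    simp only [Pi.zero_apply, mul_eq_zero, Nat.cast_eq_zero] at h1
    simp only [Pi.add_apply, Pi.smul_apply, smul_eq_mul]
    have hne : (fun _ : Site L => bit hd true) ≠ fun _ => bit hd false := by
      intro h
      have := congrFun h 0
      simp [bit] at this
    rcases h1 with h1 | h1
    · obtain ⟨b, rfl⟩ := cnt3_zero hd s h1
      unfold prodSt
      cases b with
      | true => rw [if_neg hne, if_pos rfl]; simp
      | false => rw [if_neg hne.symm, if_pos rfl]; simp
    · unfold prodSt
      rw [h1]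
      by_cases h3 : s = fun _ => bit hd false
      · rw [if_pos h3, if_neg (fun h4 => hne (h4.symm.trans h3)), ← h3, h1]; simp
      · rw [if_neg h3]
        by_cases h4 : s = fun _ => bit hd true
        · rw [if_pos h4, ← h4, h1]; simp
        · rw [if_neg h4]; simp
  · intro E' φ hφ0 hφ
    obtain ⟨s, hs⟩ : ∃ s, φ s ≠ 0 := by
      by_contra hc
      push Not at hc
      exact hφ0 (funext hc)
    have h1 := congrFun hφ s
    rw [ham_ising_mulVec] at h1
    simp only [Pi.smul_apply, smul_eq_mul] at h1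
    have h2 : ((cnt3 hd s : ℕ) : ℂ) = (E' : ℂ) := mul_right_cancel₀ hs h1
    have h3 : ((cnt3 hd s : ℕ) : ℝ) = E' := by exact_mod_cast h2
    by_cases h4 : cnt3 hd s = 0
    · left
      rw [← h3, h4]; simp
    · right
      rw [← h3]
      exact_mod_cast Nat.one_le_iff_ne_zero.mpr h4

/-! ### Accuracy one -/

/-- trace norm of a diagonal matrix -/
lemma traceNorm_diag {n : Type*} [Fintype n] [DecidableEq n] (X : Matrix n n ℂ)
    (hXd : ∀ i j, i ≠ j → X i j = 0) : traceNorm X ≤ ∑ i, ‖X i i‖ := by
  classical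
  have hX := Matrix.isHermitian_conjTranspose_mul_self X
  set U : Matrix n n ℂ := (hX.eigenvectorUnitary : Matrix n n ℂ) with hU
  have hUU : U * U.conjTranspose = 1 := (Matrix.mem_unitaryGroup_iff).mp hX.eigenvectorUnitary.2
  have hUU' : U.conjTranspose * U = 1 := (Matrix.mem_unitaryGroup_iff').mp hX.eigenvectorUnitary.2
  have hXX : ∀ i j, (X.conjTranspose * X) i j = if i = j then ((‖X i i‖ ^ 2 : ℝ) : ℂ) else 0 := by
    intro i j
    rw [Matrix.mul_apply, Finset.sum_eq_single i]
    · rw [Matrix.conjTranspose_apply]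
      split_ifs with h
      · subst h
        rw [RCLike.star_def, mul_comm, Complex.mul_conj, Complex.normSq_eq_norm_sq]
      · rw [hXd i j h, mul_zero]
    · intro k _ hk
      rw [Matrix.conjTranspose_apply, hXd k i hk, star_zero, zero_mul]
    · intro hc; exact absurd (Finset.mem_univ _) hc
  have hev : ∀ i k, ((‖X i i‖ ^ 2 : ℝ) : ℂ) * U i k = (hX.eigenvalues k : ℂ) * U i k := by
    intro i k
    have h1 := hX.mulVec_eigenvectorBasis k
    have h2 := congrFun h1 i
    have h3 : ∀ i, (hX.eigenvectorBasis k : EuclideanSpace ℂ n) i = U i k := fun i => rfl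
    rw [Matrix.mulVec, dotProduct, Finset.sum_eq_single i] at h2
    · rw [hXX i i, if_pos rfl] at h2
      simpa [h3] using h2
    · intro j _ hj
      rw [hXX i j, if_neg hj.symm, zero_mul]
    · intro hc; exact absurd (Finset.mem_univ _) hc
  have hcol : ∀ k, ∑ i, ‖U i k‖ ^ 2 = 1 := by
    intro k
    have h1 := congrFun (congrFun hUU' k) k
    rw [Matrix.mul_apply, Matrix.one_apply_eq] at h1
    have h2 : ((∑ i, ‖U i k‖ ^ 2 : ℝ) : ℂ) = 1 := by
      rw [← h1]
      push_cast
      refine Finset.sum_congr rfl fun i _ => ?_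
      rw [Matrix.conjTranspose_apply, RCLike.star_def, mul_comm, Complex.mul_conj,
        Complex.normSq_eq_norm_sq]
      push_cast
      rfl
    exact_mod_cast h2
  have hrow : ∀ i, ∑ k, ‖U i k‖ ^ 2 = 1 := by
    intro i
    have h1 := congrFun (congrFun hUU i) i
    rw [Matrix.mul_apply, Matrix.one_apply_eq] at h1
    have h2 : ((∑ k, ‖U i k‖ ^ 2 : ℝ) : ℂ) = 1 := by
      rw [← h1]
      push_cast
      refine Finset.sum_congr rfl fun k _ => ?_
      rw [Matrix.conjTranspose_apply, RCLike.star_def, Complex.mul_conj,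
        Complex.normSq_eq_norm_sq]
      push_cast
      rfl
    exact_mod_cast h2
  have hsq : ∀ i k, Real.sqrt (hX.eigenvalues k) * ‖U i k‖ ^ 2 = ‖X i i‖ * ‖U i k‖ ^ 2 := by
    intro i k
    by_cases h0 : U i k = 0
    · simp [h0]
    · have h1 := mul_right_cancel₀ h0 (hev i k)
      have h2 : ‖X i i‖ ^ 2 = hX.eigenvalues k := by exact_mod_cast h1
      rw [← h2, Real.sqrt_sq (norm_nonneg _)]
  unfold traceNorm
  calc ∑ k, Real.sqrt (hX.eigenvalues k)
      = ∑ k, ∑ i, Real.sqrt (hX.eigenvalues k) * ‖U i k‖ ^ 2 := by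
        refine Finset.sum_congr rfl fun k _ => ?_
        rw [← Finset.mul_sum, hcol k, mul_one]
    _ = ∑ i, ∑ k, ‖X i i‖ * ‖U i k‖ ^ 2 := by
        rw [Finset.sum_comm]
        exact Finset.sum_congr rfl fun i _ => Finset.sum_congr rfl fun k _ => hsq i k
    _ = ∑ i, ‖X i i‖ := by
        refine Finset.sum_congr rfl fun i _ => ?_
        rw [← Finset.mul_sum, hrow i, mul_one]
    _ ≤ _ := le_rfl

end Pool.Agent.TH64.NoGo
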