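import Mathlib
import Pool.Agent.TH64.NoGoIsing

set_option autoImplicit false
set_option linter.unusedSectionVars false

open scoped BigOperators InnerProductSpace
open Finset Module
open Pool.Agent.H4R2
open Pool.Agent.TH64.PerNet

namespace Pool.Agent.TH64.NoGo

variable {d : ℕ}

/-- The tensor of bond dimension `2` of the state `|0…0⟩ + |1…1⟩`. -/
noncomputable def ghz (hd : 2 ≤ d) : Tensor d 2 :=
  ruleTensor (fun a b => a = b) (fun a b => a = b)
    (fun s r => if s = bit hd (decide (r = 1)) then 1 else 0)

lemma contract_ghz (hd : 2 ≤ d) (L : ℕ) [NeZero L] (s : Site L → Fin d) :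
    contract (ghz hd) L s = prodSt (bit hd false) L s + prodSt (bit hd true) L s := by
  classical
  unfold ghz
  rw [contract_ruleTensor]
  have h1 : ∑ b : Fin 2, (if s = fun _ => bit hd (decide (b = 1)) then (1 : ℂ) else 0) =
      prodSt (bit hd false) L s + prodSt (bit hd true) L s := by
    rw [Fin.sum_univ_two]
    unfold prodSt
    simp
  rw [← h1]
  symm
  apply Fintype.sum_of_injective (fun (b : Fin 2) (_ : Site L) => b)
  · intro b b' h
    exact congrFun h 0
  · intro h hh
    by_contra hne
    apply hh
    rw [← ne_eq, Finset.prod_ne_zero_iff] at hne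
    have hc : ∀ x : Site L, h (x.1 - 1, x.2) = h x ∧ h (x.1, x.2 - 1) = h x := by
      intro x
      by_contra hcc
      exact hne x (Finset.mem_univ x) (if_neg hcc)
    refine ⟨h (0, 0), ?_⟩
    funext x
    exact (const_of_left h (fun x => (hc x).1) (fun x => (hc x).2) x).symm
  · intro b
    simp only [and_self, if_true]
    rw [Finset.prod_ite_zero]
    simp only [Finset.mem_univ, true_imp_iff, Finset.prod_const_one]
    refine if_congr ?_ rfl rfl
    exact ⟨fun h x => congrFun h x, fun h => funext h⟩

lemma bit_ne (hd : 2 ≤ d) : bit hd true ≠ bit hd false := by simp [bit]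

lemma ghz_sq (hd : 2 ≤ d) (L : ℕ) [NeZero L] (s : Site L → Fin d) [Decidable (s = fun _ => bit hd false)]
    [Decidable (s = fun _ => bit hd true)] :
    ‖contract (ghz hd) L s‖ ^ 2 = (if s = fun _ => bit hd false then (1 : ℝ) else 0) +
      (if s = fun _ => bit hd true then 1 else 0) := by
  classical
  rw [contract_ghz]
  unfold prodSt
  have hne : (fun _ : Site L => bit hd true) ≠ fun _ => bit hd false := fun h =>
    bit_ne hd (congrFun h 0)
  by_cases h1 : s = fun _ => bit hd false
  · have h2 : s ≠ fun _ => bit hd true := fun h => hne (h.symm.trans h1)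
    simp [h1, hne.symm]
  · by_cases h2 : s = fun _ => bit hd true
    · simp [h2, hne]
    · simp [h1, h2]

lemma normSq_ghz (hd : 2 ≤ d) (L : ℕ) [NeZero L] : normSq (contract (ghz hd) L) = 2 := by
  classical
  unfold normSq
  simp only [ghz_sq]
  rw [Finset.sum_add_distrib]
  simp
  norm_num

lemma prob_ghz (hd : 2 ≤ d) (L : ℕ) [NeZero L] (c : Fin d) : prob c (contract (ghz hd) L) =
    (if bit hd false = c then (1 : ℝ) else 0) + (if bit hd true = c then 1 else 0) := by
  classical
  unfold prob
  simp only [ghz_sq]
  have h1 : ∀ s : Site L → Fin d, (if s 0 = c then ((if s = fun _ => bit hd false then (1 : ℝ) else 0) +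
      (if s = fun _ => bit hd true then 1 else 0)) else 0) =
      (if s = fun _ => bit hd false then (if bit hd false = c then (1 : ℝ) else 0) else 0) +
      (if s = fun _ => bit hd true then (if bit hd true = c then (1 : ℝ) else 0) else 0) := by
    intro s
    by_cases h1 : s = fun _ => bit hd false
    · by_cases h2 : s = fun _ => bit hd true
      · exact absurd (congrFun (h2.symm.trans h1) 0) (bit_ne hd)
      · simp only [if_neg h2, add_zero, if_pos h1]
        rw [h1]
    · by_cases h2 : s = fun _ => bit hd true
      · simp only [if_neg h1, zero_add, if_pos h2]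
        rw [h2]
      · simp [h1, h2]
  simp only [h1]
  rw [Finset.sum_add_distrib]
  simp

lemma rdm_ghz_off (hd : 2 ≤ d) (L : ℕ) [NeZero L] (hL : 2 ≤ L) (a a' : R0 → Fin d) (ha : a ≠ a') :
    rdm (fun x : R0 => toTorus L x) (contract (ghz hd) L) a a' = 0 := by
  classical
  rw [rdm_apply]
  refine Finset.sum_eq_zero fun s _ => Finset.sum_eq_zero fun t _ => ?_
  split_ifs with hK
  · obtain ⟨h1, h2, h3⟩ := hK
    simp only [torus_x0] at h1 h2 h3
    have hst : s 0 ≠ t 0 := by
      intro h
      apply ha
      funext x
      rw [← h1 x, ← h2 x, h]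
    have hv : s (1, 0) = t (1, 0) := by
      apply h3
      intro _ h
      have h4 := congrArg Prod.fst h
      simp only [Prod.fst_zero] at h4
      have : Fact (1 < L) := ⟨by omega⟩
      exact zero_ne_one h4
    have hcase : ∀ r : Site L → Fin d, contract (ghz hd) L r ≠ 0 → r (1, 0) = r 0 := by
      intro r hr
      rw [contract_ghz] at hr
      unfold prodSt at hr
      by_cases e1 : r = fun _ => bit hd false
      · rw [e1]
      · by_cases e2 : r = fun _ => bit hd true
        · rw [e2]
        · simp [e1, e2] at hr
    by_cases hs : contract (ghz hd) L s = 0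
    · rw [hs, zero_mul]
    · by_cases ht : contract (ghz hd) L t = 0
      · rw [ht, map_zero, mul_zero]
      · exact absurd ((hcase s hs).symm.trans (hv.trans (hcase t ht))) hst
  · rfl

lemma rdm_prodSt_off (b : Fin d) (L : ℕ) [NeZero L] (a a' : R0 → Fin d) (ha : a ≠ a') :
    rdm (fun x : R0 => toTorus L x) (prodSt b L) a a' = 0 := by
  classical
  rw [rdm_apply]
  refine Finset.sum_eq_zero fun s _ => Finset.sum_eq_zero fun t _ => ?_
  split_ifs with hK
  · obtain ⟨h1, h2, h3⟩ := hK
    simp only [torus_x0] at h1 h2 h3
    unfold prodSt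
    by_cases hs : s = fun _ => b
    · by_cases ht : t = fun _ => b
      · exfalso
        apply ha
        funext x
        rw [← h1 x, ← h2 x, hs, ht]
      · simp [ht]
    · simp [hs]
  · rfl

/-- Accuracy `1` is reached by bond dimension `2`, for all patterns. -/
theorem ghz_good (hd : 2 ≤ d) (b : Bool) (L : ℕ) [NeZero L] (hL : 2 ≤ L) :
    contract (ghz hd) L ≠ 0 ∧
      traceNorm (redState R0 (prodSt (bit hd b) L) - redState R0 (contract (ghz hd) L)) ≤ 1 := by
  classical
  have hN := normSq_ghz hd L
  refine ⟨fun h0 => ?_, ?_⟩
  · rw [h0] at hN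
    simp [normSq] at hN
  · refine (traceNorm_diag _ ?_).trans ?_
    · intro a a' ha
      rw [Matrix.sub_apply]
      unfold redState
      simp only [Matrix.smul_apply, smul_eq_mul]
      rw [rdm_ghz_off hd L hL a a' ha, rdm_prodSt_off _ L a a' ha]
      simp
    · have h2 : ∀ a : R0 → Fin d,
          ‖(redState R0 (prodSt (bit hd b) L) - redState R0 (contract (ghz hd) L)) a a‖ =
          (if bit hd false = a x0 then (1 / 2 : ℝ) else 0) + (if bit hd true = a x0 then 1 / 2 else 0) := by
        intro a
        rw [Matrix.sub_apply]
        unfold redState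
        simp only [Matrix.smul_apply, smul_eq_mul]
        rw [rdm_diag, rdm_diag, normSq_prodSt, prob_prodSt, hN, prob_ghz]
        have hne := bit_ne hd
        by_cases h1 : bit hd false = a x0
        · have h3 : bit hd true ≠ a x0 := by rw [← h1]; exact hne
          cases b with
          | true => simp only [h1, h3, if_true, if_false]; norm_num
          | false => simp only [h1, h3, if_true, if_false]; norm_num
        · by_cases h3 : bit hd true = a x0
          · cases b with
            | true => simp only [h1, h3, if_true, if_false]; norm_num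
            | false => simp only [h1, h3, if_true, if_false]; norm_num
          · cases b with
            | true => simp only [h1, h3, if_false]; norm_num
            | false => simp only [h1, h3, if_false]; norm_num
      simp only [h2]
      have h3 : ∑ a : R0 → Fin d, ((if bit hd false = a x0 then (1 / 2 : ℝ) else 0) +
          (if bit hd true = a x0 then 1 / 2 else 0)) =
          ∑ c : Fin d, ((if bit hd false = c then (1 / 2 : ℝ) else 0) +
          (if bit hd true = c then 1 / 2 else 0)) :=
        Fintype.sum_equiv (E0 d) _ _ fun a => rfl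
      rw [h3, Finset.sum_add_distrib, Finset.sum_ite_eq, Finset.sum_ite_eq]
      simp
      norm_num

end Pool.Agent.TH64.NoGo
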