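import Pool.Agent.TH64.AppA3

/-!
# Periodic groups with a non-splitting automorphism (helper64)
-/

set_option autoImplicit false

namespace Pool.Agent.TH64.AppB

open Pool.Agent.TH64

/-- the free group -/
abbrev F : Type := FreeGroup (Fin 2)

/-- the first generator -/
def ga : F := FreeGroup.of 0

/-- the second generator -/
def gb : F := FreeGroup.of 1

/-- the map to the cyclic group of order `p` -/
def pr (p : ℕ) : F →* Multiplicative (ZMod p) :=
  FreeGroup.lift (fun _ => Multiplicative.ofAdd 1)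

theorem pr_a (p : ℕ) : pr p ga = Multiplicative.ofAdd 1 := by simp [pr, ga]

theorem pr_b (p : ℕ) : pr p gb = Multiplicative.ofAdd 1 := by simp [pr, gb]

/-- the invariants of the construction -/
structure Inv (p : ℕ) (R : Subgroup F) : Prop where
  nice : ∃ (Q : Type) (_ : Group Q) (ψ : F →* Q) (σ : Q →* Multiplicative (ZMod p)),
    Function.Surjective ψ ∧ Nice Q ∧ (∀ g, ψ g = 1 ↔ g ∈ R) ∧ ∀ g, σ (ψ g) = pr p g
  tors : ∀ g, pr p g = 1 → ∀ m : ℕ, 1 ≤ m → g ^ m ∈ R → ∃ m' : ℕ, Nat.Coprime m' p ∧ g ^ m' ∈ R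
  cent : ∀ g, ga⁻¹ * g * ga * g⁻¹ ∈ R → ∃ k : ℤ, ga ^ (-k) * g ∈ R
  bp : gb ^ p ∉ R
  ap : ga ^ p ∈ R

theorem pow_eq_one (p : ℕ) (q : Multiplicative (ZMod p)) : q ^ p = 1 := by
  apply Multiplicative.toAdd.injective
  rw [toAdd_pow, toAdd_one, nsmul_eq_mul, ZMod.natCast_self, zero_mul]

/-- powers which are trivial -/
theorem dvd_of_zpow {p : ℕ} (hp : p.Prime) {q : Multiplicative (ZMod p)} (hq : q ≠ 1) {k : ℤ}
    (h : q ^ k = 1) : (p : ℤ) ∣ k := by
  have : Fact p.Prime := ⟨hp⟩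
  have h1 := congrArg Multiplicative.toAdd h
  rw [toAdd_zpow, toAdd_one, zsmul_eq_mul] at h1
  rcases mul_eq_zero.1 h1 with h2 | h2
  · exact (ZMod.intCast_zmod_eq_zero_iff_dvd k p).1 h2
  · exact absurd (Multiplicative.toAdd.injective h2) hq

/-- one step -/
theorem step {p : ℕ} (hp : p.Prime) (hp2 : Odd p) {R : Subgroup F} (hR : Inv p R) (γ : F) :
    ∃ R' : Subgroup F, R ≤ R' ∧ Inv p R' ∧ ∃ m : ℕ, 1 ≤ m ∧ γ ^ m ∈ R' := by
  obtain ⟨Q, _, ψ, σ, hψs, hQ, hker, hσ⟩ := hR.nice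
  by_cases hfin : IsOfFinOrder (ψ γ)
  · obtain ⟨m, hm, hm1⟩ := isOfFinOrder_iff_pow_eq_one.1 hfin
    rw [← map_pow, hker] at hm1
    exact ⟨R, le_rfl, hR, m, hm, hm1⟩
  obtain ⟨x, ⟨j, hj⟩, hx, -, hN⟩ := ost hQ (ψ γ) hfin
  obtain ⟨N0, hN0⟩ := hN {ψ ga, ψ (gb ^ p)} (Set.toFinite _)
  set s := 2 * (p * N0) + 1 with hs
  have hs1 : Odd s := ⟨p * N0, rfl⟩
  have hscop : Nat.Coprime s p := by
    rw [hs, show 2 * (p * N0) + 1 = 1 + p * (2 * N0) by ring]
    simp
  have hsN : N0 ≤ s := by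
    have : N0 ≤ p * N0 := Nat.le_mul_of_pos_left _ hp.pos
    omega
  have hspos : 1 ≤ s := by omega
  obtain ⟨N, hNodd, hNN, hNs, hNσ⟩ : ∃ N : ℕ, Odd N ∧ N0 ≤ N ∧
      (∀ k : ℤ, σ x ^ k = 1 → (N : ℤ) ∣ k * s) ∧ σ x ^ N = 1 := by
    by_cases hσx : σ x = 1
    · refine ⟨s, hs1, hsN, fun k _ => Dvd.intro_left k rfl, ?_⟩
      rw [hσx, one_pow]
    · refine ⟨p * s, hp2.mul hs1, hsN.trans (Nat.le_mul_of_pos_left _ hp.pos), ?_, ?_⟩
      · intro k hk
        obtain ⟨l, hl⟩ := dvd_of_zpow hp hσx hk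
        exact ⟨l, by rw [hl]; push_cast; ring⟩
      · rw [pow_mul, pow_eq_one, one_pow]
  have hNpos : 1 ≤ N := hNodd.pos
  have S := hN0 N hNN hNodd
  set M := Subgroup.normalClosure ({x ^ N} : Set Q) with hM
  have hMn : M.Normal := Subgroup.normalClosure_normal
  have hMσ : ∀ n ∈ M, σ n = 1 := by
    have h1 : M ≤ σ.ker := by
      apply Subgroup.normalClosure_le_normal
      rintro _ rfl
      show σ (x ^ N) = 1
      rw [map_pow, hNσ]
    exact fun n hn => h1 hn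
  have hxN : x ^ N ∈ M := Subgroup.subset_normalClosure rfl
  set R' := M.comap ψ with hR'
  have hR'n : R'.Normal := hMn.comap ψ
  have hRR' : R ≤ R' := by
    intro r hr
    show ψ r ∈ M
    rw [(hker r).2 hr]
    exact M.one_mem
  have hpowmod : ∀ (g n : F), n ∈ R' → ∀ k : ℕ, (g * n) ^ k ∈ R' → g ^ k ∈ R' := by
    intro g n hn k hk
    exact (pow_mem_iff_mul R' hn k).1 hk
  refine ⟨R', hRR', ⟨?_, ?_, ?_, ?_, hRR' hR.ap⟩, N, hNpos, ?_⟩
  · refine ⟨Q ⧸ M, inferInstance, (QuotientGroup.mk' M).comp ψ,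
      QuotientGroup.lift M σ (fun n hn => hMσ n hn), ?_, S.nice, ?_, ?_⟩
    · exact (QuotientGroup.mk'_surjective M).comp hψs
    · intro g
      exact QuotientGroup.eq_one_iff _
    · intro g
      exact hσ g
  · intro g hg m hm hgm
    have h1 : ψ g ^ m ∈ M := by
      rw [← map_pow]
      exact hgm
    obtain ⟨n, hn, hcase⟩ := S.tor (ψ g) m hm h1
    obtain ⟨n', rfl⟩ := hψs n
    have hn' : n' ∈ R' := hn
    have hgn : pr p (g * n') = 1 := by
      rw [map_mul, hg, one_mul, ← hσ, hMσ _ hn]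
    rcases hcase with hcase | ⟨c, k, hk⟩
    · rw [← map_mul] at hcase
      obtain ⟨k, hk, hk1⟩ := isOfFinOrder_iff_pow_eq_one.1 hcase
      rw [← map_pow, hker] at hk1
      obtain ⟨m', h2, h3⟩ := hR.tors _ hgn k hk hk1
      exact ⟨m', h2, hpowmod g n' hn' m' (hRR' h3)⟩
    · have hk' : x ^ k = c⁻¹ * (ψ g * ψ n') * c := hk
      have hσk : σ x ^ k = 1 := by
        rw [← map_zpow, hk', map_mul, map_mul, ← map_mul ψ, hσ, hgn, mul_one, ← map_mul,
          inv_mul_cancel, map_one]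
      obtain ⟨l, hl⟩ := hNs k hσk
      refine ⟨s, hscop, hpowmod g n' hn' s ?_⟩
      show ψ ((g * n') ^ s) ∈ M
      have h2 : ψ ((g * n') ^ s) = c * (x ^ N) ^ l * c⁻¹ := by
        have h3 : ψ (g * n') = c * x ^ k * c⁻¹ := by
          rw [hk', map_mul]
          group
        rw [map_pow, h3, conj_pow, ← zpow_natCast, ← zpow_mul, hl, zpow_mul, zpow_natCast]
      rw [h2]
      exact hMn.conj_mem _ (M.zpow_mem hxN l) c
  · intro g hg
    have h1 : (ψ ga)⁻¹ * ψ g * ψ ga * (ψ g)⁻¹ ∈ M := by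
      have : ψ (ga⁻¹ * g * ga * g⁻¹) ∈ M := hg
      rwa [map_mul, map_mul, map_mul, map_inv, map_inv] at this
    obtain ⟨n, hn, hcomm⟩ := S.com (ψ ga) (Or.inl rfl) (ψ g) h1
    obtain ⟨n', rfl⟩ := hψs n
    have hn' : n' ∈ R' := hn
    have h2 : ga⁻¹ * (n' * g) * ga * (n' * g)⁻¹ ∈ R := by
      rw [← hker, map_mul, map_mul, map_mul, map_inv, map_inv, map_mul]
      rw [mul_assoc (ψ ga)⁻¹, hcomm]
      group
    obtain ⟨k, hk⟩ := hR.cent _ h2
    refine ⟨k, ?_⟩
    have h3 : ga ^ (-k) * g = (ga ^ (-k) * (n' * g)) * (g⁻¹ * n'⁻¹ * g⁻¹⁻¹) := by group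
    rw [h3]
    exact R'.mul_mem (hRR' hk) (hR'n.conj_mem _ (R'.inv_mem hn') g⁻¹)
  · intro hb
    apply hR.bp
    rw [← hker]
    exact S.inj _ (Or.inr rfl) hb
  · show ψ (γ ^ N) ∈ M
    rw [map_pow, ← hj, ← zpow_natCast, ← zpow_mul, mul_comm, zpow_mul, zpow_natCast]
    exact M.zpow_mem hxN j

/-- the first step -/
theorem base : ∃ p : ℕ, p.Prime ∧ Odd p ∧ ∃ R : Subgroup F, Inv p R := by
  have ha : ¬ IsOfFinOrder ga := by
    intro h
    have := FreeBase.free_torsion_free ga h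
    exact FreeGroup.of_ne_one 0 this
  obtain ⟨x, ⟨j, hj⟩, hx, -, hN⟩ := ost AppA.nice_free ga ha
  obtain ⟨N0, hN0⟩ := hN ∅ Set.finite_empty
  obtain ⟨p, hpN, hp⟩ := Nat.exists_infinite_primes (N0 + 3)
  have hp2 : Odd p := hp.odd_of_ne_two (by omega)
  have : Fact p.Prime := ⟨hp⟩
  have S := hN0 p (by omega) hp2
  set M := Subgroup.normalClosure ({x ^ p} : Set F) with hM
  have hMn : M.Normal := Subgroup.normalClosure_normal
  have hxp : x ^ p ∈ M := Subgroup.subset_normalClosure rfl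
  -- `x` is `a` or its inverse
  have hj1 : j = 1 ∨ j = -1 := by
    have h1 : (FreeGroup.lift (fun i : Fin 2 => if i = 0 then Multiplicative.ofAdd (1 : ℤ) else 1)
        (x ^ j)).toAdd = 1 := by
      rw [hj]
      simp [ga]
    rw [map_zpow, toAdd_zpow, smul_eq_mul] at h1
    exact Int.eq_one_or_neg_one_of_mul_eq_one h1
  have hxa : x = ga ^ j := by
    rcases hj1 with h | h
    · rw [h, zpow_one] at hj ⊢
      exact hj
    · rw [h] at hj ⊢
      rw [← hj, ← zpow_mul]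
      simp
  have hprx : pr p x ≠ 1 := by
    rw [hxa, map_zpow, pr_a]
    intro h
    have h2 := dvd_of_zpow hp (q := Multiplicative.ofAdd (1 : ZMod p)) (by
      intro h3
      have h4 := Multiplicative.ofAdd.injective (h3.trans ofAdd_zero.symm)
      exact one_ne_zero h4) h
    have h3 := Int.natAbs_dvd_natAbs.2 h2
    have h4 : j.natAbs = 1 := by rcases hj1 with h | h <;> simp [h]
    rw [h4, Int.natAbs_natCast] at h3
    exact hp.one_lt.ne' (Nat.dvd_one.1 h3)
  have hMpr : ∀ n ∈ M, pr p n = 1 := by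
    have h1 : M ≤ (pr p).ker := by
      apply Subgroup.normalClosure_le_normal
      rintro _ rfl
      show pr p (x ^ p) = 1
      rw [map_pow, pow_eq_one]
    exact fun n hn => h1 hn
  refine ⟨p, hp, hp2, M, ?_, ?_, ?_, ?_, ?_⟩
  · refine ⟨F ⧸ M, inferInstance, QuotientGroup.mk' M,
      QuotientGroup.lift M (pr p) (fun n hn => hMpr n hn), QuotientGroup.mk'_surjective M,
      S.nice, fun g => QuotientGroup.eq_one_iff g, fun g => rfl⟩
  · intro g hg m hm hgm
    obtain ⟨n, hn, hcase⟩ := S.tor g m hm hgm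
    refine ⟨1, Nat.coprime_one_left p, ?_⟩
    rw [pow_one]
    have key : g * n ∈ M := by
      rcases hcase with hcase | ⟨c, k, hk⟩
      · rw [FreeBase.free_torsion_free _ hcase]
        exact M.one_mem
      · have hk' : x ^ k = c⁻¹ * (g * n) * c := hk
        have h1 : pr p x ^ k = 1 := by
          rw [← map_zpow, hk', map_mul, map_mul, map_mul, hg, hMpr n hn, map_inv]
          simp
        obtain ⟨l, hl⟩ := dvd_of_zpow hp hprx h1
        have h2 : g * n = c * (x ^ p) ^ l * c⁻¹ := by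
          have : g * n = c * x ^ k * c⁻¹ := by rw [hk']; group
          rw [this, hl, zpow_mul, zpow_natCast]
        rw [h2]
        exact hMn.conj_mem _ (M.zpow_mem hxp l) c
    have : g = g * n * n⁻¹ := by group
    rw [this]
    exact M.mul_mem key (M.inv_mem hn)
  · intro g hg
    obtain ⟨n, hn, k, hk⟩ := S.comx j g (by
      intro h
      have h3 := Int.natAbs_dvd_natAbs.2 h
      have h4 : j.natAbs = 1 := by rcases hj1 with h | h <;> simp [h]
      rw [h4, Int.natAbs_natCast] at h3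
      exact hp.one_lt.ne' (Nat.dvd_one.1 h3)) (by rwa [zpow_neg, hj])
    refine ⟨j * k, ?_⟩
    have h1 : ga ^ (-(j * k)) * g = ga ^ (-(j * k)) * n * (ga ^ (-(j * k)))⁻¹ := by
      rw [hk, hxa, ← zpow_mul, ← zpow_neg, neg_neg, mul_assoc]
    rw [h1]
    exact hMn.conj_mem n hn _
  · intro hb
    have h1 : M ≤ (FreeGroup.lift (fun i : Fin 2 => if i = 1 then Multiplicative.ofAdd (1 : ℤ)
        else 1)).ker := by
      apply Subgroup.normalClosure_le_normal
      rintro _ rfl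
      show FreeGroup.lift _ (x ^ p) = 1
      rw [hxa, map_pow, map_zpow]
      simp [ga]
    have h2 := congrArg Multiplicative.toAdd (MonoidHom.mem_ker.1 (h1 hb))
    rw [map_pow, toAdd_pow] at h2
    simp only [gb, FreeGroup.lift_apply_of, if_true, toAdd_ofAdd, toAdd_one, nsmul_eq_mul,
      mul_one] at h2
    exact hp.ne_zero (by exact_mod_cast h2)
  · have : ga ^ p = (x ^ p) ^ j := by
      rw [← hj, ← zpow_natCast, ← zpow_mul, mul_comm, zpow_mul, zpow_natCast]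
    rw [this]
    exact M.zpow_mem hxp j

end Pool.Agent.TH64.AppB
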