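import Mathlib

/-! The windmill argument for coarse projection systems (helper64; modelled on the exact version
`Pool.Agent.Helper844.SCV.SCWind`). -/

set_option autoImplicit false

namespace Pool.Agent.TH64.Wind

open Relation

/-- a coarse projection system -/
structure Sys (G V L : Type*) [Group G] [MulAction G V] [MulAction G L] where
  adj : V → V → Prop
  on : L → V → Prop
  d : L → V → V → ℕ
  rot : L → Subgroup G
  th : ℕ
  T : ℕ
  adj_smul : ∀ (g : G) u v, adj u v → adj (g • u) (g • v)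
  conn : ∀ u v, ReflTransGen adj u v
  on_smul : ∀ (g : G) Y v, on Y v → on (g • Y) (g • v)
  d_self : ∀ Y u, d Y u u = 0
  d_comm : ∀ Y u v, d Y u v = d Y v u
  d_tri : ∀ Y u v w, d Y u w ≤ d Y u v + d Y v w
  d_smul : ∀ (g : G) Y u v, d (g • Y) (g • u) (g • v) = d Y u v
  d_adj : ∀ Y u v, adj u v → d Y u v ≤ th
  line_ne : ∀ Y, ∃ v, on Y v
  hT : 40 * th + 1 ≤ T
  beh : ∀ Y Z v, Y ≠ Z → (∀ w, on Z w → d Y v w ≤ th) ∨ (∀ w, on Y w → d Z v w ≤ th)
  rot_conj : ∀ (g : G) Y r, r ∈ rot Y → g * r * g⁻¹ ∈ rot (g • Y)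
  rot_fix : ∀ Y r, r ∈ rot Y → r • Y = Y
  rot_big : ∀ Y r v, r ∈ rot Y → r ≠ 1 → T ≤ d Y v (r • v)

variable {G V L : Type*} [Group G] [MulAction G V] [MulAction G L] (S : Sys G V L) (x0 : V)

/-- a stage of the windmill -/
structure State where
  H : Subgroup G
  W : Set V
  x0_mem : x0 ∈ W
  inv : ∀ h ∈ H, ∀ w ∈ W, h • w ∈ W
  diam : ∀ Y, S.rot Y ≤ H ∨ ∀ u ∈ W, ∀ v ∈ W, S.d Y u v ≤ 6 * S.th
  claim : ∀ n ∈ H, n ≠ 1 → ∃ Y, S.T ≤ S.d Y x0 (n • x0) + 12 * S.th

variable {S} {x0}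

theorem rot_le_conj (g : G) (Y : L) (H : Subgroup G) (hg : g ∈ H) (h : S.rot Y ≤ H) :
    S.rot (g • Y) ≤ H := by
  intro r hr
  have h1 := S.rot_conj g⁻¹ _ r hr
  rw [inv_smul_smul, inv_inv] at h1
  have h2 := h h1
  have : r = g * (g⁻¹ * r * g) * g⁻¹ := by group
  rw [this]
  exact H.mul_mem (H.mul_mem hg h2) (H.inv_mem hg)

theorem rot_le_conj_iff (g : G) (Y : L) (H : Subgroup G) (hg : g ∈ H) :
    S.rot (g • Y) ≤ H ↔ S.rot Y ≤ H := by
  constructor
  · intro h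
    have := rot_le_conj (S := S) g⁻¹ (g • Y) H (H.inv_mem hg) h
    rwa [inv_smul_smul] at this
  · exact rot_le_conj g Y H hg

theorem d_inv (g : G) (Y : L) (u v : V) : S.d Y (g • u) (g • v) = S.d (g⁻¹ • Y) u v := by
  rw [← S.d_smul g (g⁻¹ • Y) u v, smul_inv_smul]

theorem d_rot {Y : L} {r : G} (hr : r ∈ S.rot Y) (u v : V) : S.d Y (r • u) (r • v) = S.d Y u v := by
  have := S.d_smul r Y u v
  rwa [S.rot_fix Y r hr] at this

section step

variable (s : State S x0)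

def W1 : Set V := {v | v ∈ s.W ∨ ∃ w ∈ s.W, S.adj w v}

def AA : Set L := {Y | ¬ S.rot Y ≤ s.H ∧ ∃ u ∈ W1 s, ∃ v ∈ W1 s, 2 * S.th < S.d Y u v}

def H' : Subgroup G := Subgroup.closure {r | r ∈ s.H ∨ ∃ Y ∈ AA s, r ∈ S.rot Y}

def W' : Set V := {v | ∃ h ∈ H' s, ∃ e ∈ W1 s, v = h • e}

theorem H_le : s.H ≤ H' s := fun _ hr => Subgroup.subset_closure (Or.inl hr)

theorem rot_le_H' (Y : L) (hY : Y ∈ AA s) : S.rot Y ≤ H' s :=
  fun _ hr => Subgroup.subset_closure (Or.inr ⟨Y, hY, hr⟩)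

theorem W1_inv {h : G} (hh : h ∈ s.H) {v : V} (hv : v ∈ W1 s) : h • v ∈ W1 s := by
  rcases hv with hv | ⟨w, hw, hwv⟩
  · exact Or.inl (s.inv h hh v hv)
  · exact Or.inr ⟨h • w, s.inv h hh w hw, S.adj_smul h _ _ hwv⟩

theorem AA_inv {h : G} (hh : h ∈ s.H) {Y : L} (hY : Y ∈ AA s) : h • Y ∈ AA s := by
  obtain ⟨h1, u, hu, v, hv, hd⟩ := hY
  exact ⟨fun hle => h1 ((rot_le_conj_iff h Y s.H hh).1 hle), h • u, W1_inv s hh hu, h • v,
    W1_inv s hh hv, by rwa [S.d_smul]⟩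

theorem diam_W1 {Y : L} (hY : ¬ S.rot Y ≤ s.H) {u v : V} (hu : u ∈ W1 s) (hv : v ∈ W1 s) :
    S.d Y u v ≤ 8 * S.th := by
  have hd := (s.diam Y).resolve_left hY
  have near : ∀ u ∈ W1 s, ∃ w ∈ s.W, S.d Y u w ≤ S.th := by
    intro u hu
    rcases hu with hu | ⟨w, hw, hwu⟩
    · exact ⟨u, hu, by rw [S.d_self]; omega⟩
    · exact ⟨w, hw, by rw [S.d_comm]; exact S.d_adj Y _ _ hwu⟩
  obtain ⟨u', hu', h1⟩ := near u hu
  obtain ⟨v', hv', h2⟩ := near v hv
  have h3 := hd u' hu' v' hv'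
  have h4 := S.d_tri Y u u' v
  have h5 := S.d_tri Y u' v' v
  rw [S.d_comm Y v' v] at h5
  omega

/-- an active line is seen from any other line near a point of `W1` -/
theorem AA_near {Y Z : L} (hY : Y ∈ AA s) (hZ : Z ≠ Y) :
    ∃ u ∈ W1 s, ∀ w, S.on Y w → S.d Z u w ≤ S.th := by
  obtain ⟨_, u, hu, v, hv, hd⟩ := hY
  rcases S.beh Y Z u hZ.symm with h1 | h1
  · rcases S.beh Y Z v hZ.symm with h2 | h2
    · exfalso
      obtain ⟨w, hw⟩ := S.line_ne Z
      have h3 := h1 w hw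
      have h4 := h2 w hw
      have h5 := S.d_tri Y u w v
      rw [S.d_comm Y w v] at h5
      omega
    · exact ⟨v, hv, h2⟩
  · exact ⟨u, hu, h1⟩

/-- points of `W1` and of the active lines different from `Y` -/
def EY (Y : L) : Set V := {v | v ∈ W1 s ∨ ∃ Y' ∈ AA s, Y' ≠ Y ∧ S.on Y' v}

theorem EY_near (Z : L) {v : V} (hv : v ∈ EY s Z) : ∃ u ∈ W1 s, S.d Z v u ≤ S.th := by
  rcases hv with hv | ⟨Y, hY, hne, hon⟩
  · exact ⟨v, hv, by rw [S.d_self]; omega⟩
  · obtain ⟨u, hu, h⟩ := AA_near s hY hne.symm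
    exact ⟨u, hu, by rw [S.d_comm]; exact h v hon⟩

theorem diam_EY {Y : L} (hY : ¬ S.rot Y ≤ s.H) {u v : V} (hu : u ∈ EY s Y) (hv : v ∈ EY s Y) :
    S.d Y u v ≤ 10 * S.th := by
  obtain ⟨u', hu', h1⟩ := EY_near s Y hu
  obtain ⟨v', hv', h2⟩ := EY_near s Y hv
  have h3 := diam_W1 s hY hu' hv'
  have h4 := S.d_tri Y u u' v
  have h5 := S.d_tri Y u' v' v
  rw [S.d_comm Y v' v] at h5
  omega

theorem diam_W1_out {Z : L} (hZ : ¬ S.rot Z ≤ H' s) {u v : V}
    (hu : u ∈ W1 s) (hv : v ∈ W1 s) : S.d Z u v ≤ 2 * S.th := by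
  by_contra hcon
  push Not at hcon
  have h1 : ¬ S.rot Z ≤ s.H := fun h => hZ (h.trans (H_le s))
  exact hZ (rot_le_H' s Z ⟨h1, u, hu, v, hv, hcon⟩)

theorem diam_EY_out {Z : L} (hZ : ¬ S.rot Z ≤ H' s) {u v : V} (hu : u ∈ EY s Z)
    (hv : v ∈ EY s Z) : S.d Z u v ≤ 4 * S.th := by
  obtain ⟨u', hu', h1⟩ := EY_near s Z hu
  obtain ⟨v', hv', h2⟩ := EY_near s Z hv
  have h3 := diam_W1_out s hZ hu' hv'
  have h4 := S.d_tri Z u u' v
  have h5 := S.d_tri Z u' v' v
  rw [S.d_comm Z v' v] at h5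
  omega

/-- chains of points -/
inductive Ch : Option L → V → Prop
  | base {v : V} : v ∈ W1 s → Ch none v
  | turn {Y : L} {o : Option L} {r : G} {v : V} : Y ∈ AA s → r ∈ S.rot Y → r ≠ 1 → Ch o v →
      o ≠ some Y → Ch (some Y) (r • v)

/-- chains of group elements -/
inductive El : Option L → G → Prop
  | base {h : G} : h ∈ s.H → El none h
  | turn {Y : L} {o : Option L} {r : G} {n : G} : Y ∈ AA s → r ∈ S.rot Y → r ≠ 1 → El o n →
      o ≠ some Y → El (some Y) (r * n)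

variable {s}

theorem El.H_mul {h : G} (hh : h ∈ s.H) {o : Option L} {n : G} (hc : El s o n) :
    El s (o.map (h • ·)) (h * n) := by
  induction hc with
  | base hv => exact El.base (s.H.mul_mem hh hv)
  | @turn Y o r n hY hr hr1 _ hne ih =>
    have e : h * (r * n) = (h * r * h⁻¹) * (h * n) := by group
    rw [e]
    refine El.turn (AA_inv s hh hY) (S.rot_conj h Y r hr) ?_ ih ?_
    · intro h1
      apply hr1
      have : r = h⁻¹ * (h * r * h⁻¹) * h := by group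
      rw [this, h1]; group
    · intro h1
      apply hne
      rcases o with _ | Y'
      · simp at h1
      · simp only [Option.map_some, Option.some.injEq] at h1
        rw [smul_left_cancel h h1]

theorem El.rot_mul {Y : L} (hY : Y ∈ AA s) {r : G} (hr : r ∈ S.rot Y) {o : Option L} {n : G}
    (hc : El s o n) : ∃ o', El s o' (r * n) := by
  by_cases hr1 : r = 1
  · subst hr1
    exact ⟨o, by rwa [one_mul]⟩
  by_cases ho : o = some Y
  · subst ho
    cases hc with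
    | @turn _ o' r' n' _ hr' hr1' hc' hne =>
      rw [← mul_assoc]
      by_cases h1 : r * r' = 1
      · rw [h1, one_mul]
        exact ⟨o', hc'⟩
      · exact ⟨some Y, El.turn hY ((S.rot Y).mul_mem hr hr') h1 hc' hne⟩
  · exact ⟨some Y, El.turn hY hr hr1 hc ho⟩

theorem H'_ind {P : G → Prop} (h1 : P 1) (hH : ∀ h ∈ s.H, ∀ x, P x → P (h * x))
    (hr : ∀ Y ∈ AA s, ∀ r ∈ S.rot Y, ∀ x, P x → P (r * x)) {n : G} (hn : n ∈ H' s) : P n := by
  induction hn using Subgroup.closure_induction_left with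
  | one => exact h1
  | mul_left x hx y hy ih =>
    rcases hx with hx | ⟨Y, hY, hx⟩
    · exact hH x hx y ih
    · exact hr Y hY x hx y ih
  | inv_mul_cancel x hx y hy ih =>
    rcases hx with hx | ⟨Y, hY, hx⟩
    · exact hH _ (s.H.inv_mem hx) y ih
    · exact hr Y hY _ ((S.rot Y).inv_mem hx) y ih

theorem H'_el {n : G} (hn : n ∈ H' s) : ∃ o, El s o n := by
  refine H'_ind (s := s) (P := fun n => ∃ o, El s o n) ?_ ?_ ?_ hn
  · exact ⟨none, El.base s.H.one_mem⟩
  · rintro h hh x ⟨o, ho⟩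
    exact ⟨_, ho.H_mul hh⟩
  · rintro Y hY r hr x ⟨o, ho⟩
    exact ho.rot_mul hY hr

theorem El.ch {o : Option L} {n : G} (h : El s o n) {v : V} (hv : v ∈ W1 s) : Ch s o (n • v) := by
  induction h with
  | base hh => exact Ch.base (W1_inv s hh hv)
  | turn hY hr hr1 _ hne ih =>
    rw [mul_smul]
    exact Ch.turn hY hr hr1 ih hne

/-- the far end of a chain projects to an active line near `EY` -/
theorem Ch.proj {o : Option L} {v : V} (h : Ch s o v) :
    ∀ Y' ∈ AA s, some Y' ≠ o → ∃ w ∈ EY s Y', S.d Y' v w ≤ S.th := by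
  induction h with
  | @base v hv => exact fun Y' _ _ => ⟨v, Or.inl hv, by rw [S.d_self]; omega⟩
  | @turn Y o r v hY hr hr1 _ hne ih =>
    intro Y' hY' hne'
    obtain ⟨w, hw, hvw⟩ := ih Y hY (Ne.symm hne)
    have hYY : Y ≠ Y' := fun h => hne' (by rw [h])
    have h1 := d_rot hr v w
    have h2 := S.rot_big Y r w hr hr1
    rcases S.beh Y Y' (r • v) hYY with hw' | hw'
    · exfalso
      obtain ⟨w', hon⟩ := S.line_ne Y'
      have hw'E : w' ∈ EY s Y := Or.inr ⟨Y', hY', hYY.symm, hon⟩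
      have h3 := diam_EY s hY.1 hw hw'E
      have h4 := S.d_tri Y w w' (r • w)
      have h5 := S.d_tri Y w' (r • v) (r • w)
      have h7 := hw' w' hon
      rw [S.d_comm Y w' (r • v)] at h5
      have h6 := S.hT
      omega
    · obtain ⟨w', hon⟩ := S.line_ne Y
      exact ⟨w', Or.inr ⟨Y, hY, hYY, hon⟩, hw' w' hon⟩

/-- a point `u` near `EY Y` and a chain starting with `Y` are far apart on `Y` -/
theorem far {Y : L} (hY : Y ∈ AA s) {u : V} (hu : ∃ w ∈ EY s Y, S.d Y u w ≤ S.th) {o : Option L}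
    {v : V} (hc : Ch s o v) (ho : o ≠ some Y) {r : G} (hr : r ∈ S.rot Y) (hr1 : r ≠ 1) :
    S.T ≤ S.d Y u (r • v) + 12 * S.th := by
  obtain ⟨w, hw, hvw⟩ := hc.proj Y hY (Ne.symm ho)
  obtain ⟨w', hw', huw⟩ := hu
  have h1 := d_rot hr v w
  have h2 := S.rot_big Y r w hr hr1
  have h3 := diam_EY s hY.1 hw hw'
  have h4 := S.d_tri Y w w' (r • w)
  have h5 := S.d_tri Y w' u (r • w)
  have h6 := S.d_tri Y u (r • v) (r • w)
  rw [S.d_comm Y w' u] at h5
  omega

theorem claim' {n : G} (hn : n ∈ H' s) (h1 : n ≠ 1) :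
    ∃ Y, S.T ≤ S.d Y x0 (n • x0) + 12 * S.th := by
  obtain ⟨o, hel⟩ := H'_el hn
  cases hel with
  | base hh => exact s.claim n hh h1
  | @turn Y o r n hY hr hr1 hel hne =>
    refine ⟨Y, ?_⟩
    rw [mul_smul]
    exact far hY ⟨x0, Or.inl (Or.inl s.x0_mem), by rw [S.d_self]; omega⟩
      (hel.ch (Or.inl s.x0_mem)) hne hr hr1

theorem rot_le_iff' {Z : L} {n : G} (hn : n ∈ H' s) (hZ : ¬ S.rot Z ≤ H' s) :
    ¬ S.rot (n • Z) ≤ H' s := fun h => hZ ((rot_le_conj_iff n Z _ hn).1 h)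

/-- chains have small projections to lines outside `H'` -/
theorem Ch.small {o : Option L} {v : V} (h : Ch s o v) :
    ∀ u, (∀ Y, o = some Y → ∃ w ∈ EY s Y, S.d Y u w ≤ S.th) →
    ∀ Z, ¬ S.rot Z ≤ H' s → (∃ w ∈ EY s Z, S.d Z u w ≤ S.th) →
    S.d Z u v ≤ 6 * S.th := by
  induction h with
  | @base v hv =>
    intro u _ Z hZ hQ
    obtain ⟨w, hw, huw⟩ := hQ
    have h1 := diam_EY_out s hZ hw (Or.inl hv)
    have h2 := S.d_tri Z u w v
    omega
  | @turn Y o r v hY hr hr1 hc hne ih =>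
    intro u hP Z hZ hQ
    have hP' := hP Y rfl
    have hfar := far hY hP' hc hne hr hr1
    have hrH : r ∈ H' s := rot_le_H' s Y hY hr
    have hYZ : Y ≠ Z := fun h => hZ (h ▸ rot_le_H' s Y hY)
    obtain ⟨y0, hy0⟩ := S.line_ne Y
    obtain ⟨z0, hz0⟩ := S.line_ne Z
    rcases S.beh Y Z u hYZ with hd1 | hd1
    · rcases S.beh Y Z (r • v) hYZ with hd2 | hd2
      · exfalso
        have h1 := hd1 z0 hz0
        have h2 := hd2 z0 hz0
        have h3 := S.d_tri Y u z0 (r • v)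
        rw [S.d_comm Y z0 (r • v)] at h3
        have h4 := S.hT
        omega
      · obtain ⟨w, hw, huw⟩ := hQ
        have h1 := diam_EY_out s hZ hw (Or.inr ⟨Y, hY, hYZ, hy0⟩)
        have h2 := S.d_tri Z u w (r • v)
        have h3 := S.d_tri Z w y0 (r • v)
        have h4 := hd2 y0 hy0
        rw [S.d_comm Z y0 (r • v)] at h3
        omega
    · -- move to the next line of the chain
      have hr' : r⁻¹ ∈ S.rot Y := (S.rot Y).inv_mem hr
      have hY' : r⁻¹ • Y = Y := S.rot_fix Y r⁻¹ hr'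
      have hrZ : ¬ S.rot (r⁻¹ • Z) ≤ H' s := rot_le_iff' ((H' s).inv_mem hrH) hZ
      have key : S.d Z u (r • v) = S.d (r⁻¹ • Z) (r⁻¹ • u) v := by
        rw [← S.d_smul r⁻¹ Z u (r • v), inv_smul_smul]
      rw [key]
      apply ih
      · -- condition on the next line
        intro Y2 ho
        have hne2 : Y ≠ Y2 := by
          intro h
          apply hne
          rw [ho, h]
        have hY2 : Y2 ∈ AA s := by
          subst ho
          cases hc with
          | turn h _ _ _ _ => exact h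
        obtain ⟨y2, hy2⟩ := S.line_ne Y2
        rcases S.beh Y Y2 (r⁻¹ • u) hne2 with h1 | h1
        · exfalso
          have h2 := h1 y2 hy2
          obtain ⟨w, hw, huw⟩ := hP'
          have h3 := diam_EY s hY.1 hw (Or.inr ⟨Y2, hY2, hne2.symm, hy2⟩)
          have h4 := S.rot_big Y r⁻¹ u hr' (by
            intro h; apply hr1; rw [← inv_inv r, h, inv_one])
          have h5 := S.d_tri Y u w (r⁻¹ • u)
          have h6 := S.d_tri Y w y2 (r⁻¹ • u)
          rw [S.d_comm Y y2 (r⁻¹ • u)] at h6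
          have h7 := S.hT
          omega
        · exact ⟨y0, Or.inr ⟨Y, hY, hne2, hy0⟩, h1 y0 hy0⟩
      · exact hrZ
      · have hYZ' : Y ≠ r⁻¹ • Z := by
          intro h
          apply hYZ
          rw [← hY'] at h
          exact smul_left_cancel r⁻¹ h
        refine ⟨r⁻¹ • y0, ?_, ?_⟩
        · have h8 := S.on_smul r⁻¹ Y y0 hy0
          rw [hY'] at h8
          exact Or.inr ⟨Y, hY, hYZ', h8⟩
        · rw [S.d_smul]
          exact hd1 y0 hy0

theorem W'_diam {Z : L} (hZ : ¬ S.rot Z ≤ H' s) {u v : V} (hu : u ∈ W' s) (hv : v ∈ W' s) :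
    S.d Z u v ≤ 6 * S.th := by
  obtain ⟨g, hg, e, he, rfl⟩ := hu
  obtain ⟨h, hh, f, hf, rfl⟩ := hv
  have hgh : g⁻¹ * h ∈ H' s := (H' s).mul_mem ((H' s).inv_mem hg) hh
  obtain ⟨o, hel⟩ := H'_el hgh
  have hch := hel.ch hf
  have key : S.d Z (g • e) (h • f) = S.d (g⁻¹ • Z) e ((g⁻¹ * h) • f) := by
    rw [← S.d_smul g⁻¹ Z (g • e) (h • f), inv_smul_smul, mul_smul]
  rw [key]
  refine hch.small e ?_ _ (rot_le_iff' ((H' s).inv_mem hg) hZ) ?_
  · intro Y _
    exact ⟨e, Or.inl he, by rw [S.d_self]; omega⟩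
  · exact ⟨e, Or.inl he, by rw [S.d_self]; omega⟩

theorem W1_sub {v : V} (hv : v ∈ W1 s) : v ∈ W' s :=
  ⟨1, (H' s).one_mem, v, hv, by rw [one_smul]⟩

variable (s) in
def next : State S x0 where
  H := H' s
  W := W' s
  x0_mem := W1_sub (Or.inl s.x0_mem)
  inv := by
    rintro h hh _ ⟨g, hg, e, he, rfl⟩
    exact ⟨h * g, (H' s).mul_mem hh hg, e, he, by rw [mul_smul]⟩
  diam := by
    intro Y
    by_cases h : S.rot Y ≤ H' s
    · exact Or.inl h
    · exact Or.inr fun u hu v hv => W'_diam h hu hv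
  claim := fun n hn h1 => claim' hn h1

end step

variable (S x0) in
def start : State S x0 where
  H := ⊥
  W := {x0}
  x0_mem := rfl
  inv := by
    intro h hh w hw
    rw [Subgroup.mem_bot] at hh
    rw [hh, one_smul]
    exact hw
  diam := by
    intro Y
    right
    intro u hu v hv
    rw [Set.mem_singleton_iff] at hu hv
    rw [hu, hv, S.d_self]
    omega
  claim := by
    intro n hn h1
    exact absurd (Subgroup.mem_bot.1 hn) h1

variable (S x0) in
def stage : ℕ → State S x0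
  | 0 => start S x0
  | n + 1 => next (stage n)

theorem stage_H_succ (n : ℕ) : (stage S x0 n).H ≤ (stage S x0 (n + 1)).H := H_le _

theorem stage_H_mono {m n : ℕ} (h : m ≤ n) : (stage S x0 m).H ≤ (stage S x0 n).H := by
  induction h with
  | refl => exact le_rfl
  | step _ ih => exact ih.trans (stage_H_succ _)

theorem stage_W_succ (n : ℕ) : (stage S x0 n).W ⊆ (stage S x0 (n + 1)).W :=
  fun _ hv => W1_sub (Or.inl hv)

theorem stage_W_mono {m n : ℕ} (h : m ≤ n) : (stage S x0 m).W ⊆ (stage S x0 n).W := by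
  induction h with
  | refl => exact le_rfl
  | step _ ih => exact ih.trans (stage_W_succ _)

theorem stage_ball (v : V) : ∃ n, v ∈ (stage S x0 n).W := by
  have h := S.conn x0 v
  induction h with
  | refl => exact ⟨0, rfl⟩
  | @tail b c _ hbc ih =>
    obtain ⟨n, hn⟩ := ih
    exact ⟨n + 1, W1_sub (Or.inr ⟨b, hn, hbc⟩)⟩

theorem stage_rot (Y : L) : ∃ n, S.rot Y ≤ (stage S x0 n).H := by
  by_cases hbot : ∃ r ∈ S.rot Y, r ≠ 1
  · obtain ⟨r, hr, hr1⟩ := hbot
    obtain ⟨m, hm⟩ := stage_ball (S := S) (x0 := x0) x0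
    obtain ⟨n, hn⟩ := stage_ball (S := S) (x0 := x0) (r • x0)
    refine ⟨max m n, ?_⟩
    rcases (stage S x0 (max m n)).diam Y with h | h
    · exact h
    · exfalso
      have h1 := h x0 (stage_W_mono (le_max_left m n) hm) (r • x0)
        (stage_W_mono (le_max_right m n) hn)
      have h2 := S.rot_big Y r x0 hr hr1
      have h3 := S.hT
      omega
  · push Not at hbot
    refine ⟨0, fun r hr => ?_⟩
    rw [hbot r hr]
    exact Subgroup.one_mem _

/-- **the windmill theorem** -/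
theorem wind_main (S : Sys G V L) (x0 : V) {n : G}
    (hn : n ∈ Subgroup.closure {r | ∃ Y, r ∈ S.rot Y}) (h1 : n ≠ 1) :
    ∃ Y, S.T ≤ S.d Y x0 (n • x0) + 12 * S.th := by
  have key : ∃ i, n ∈ (stage S x0 i).H := by
    induction hn using Subgroup.closure_induction with
    | mem x hx =>
      obtain ⟨Y, hY⟩ := hx
      obtain ⟨i, hi⟩ := stage_rot (S := S) (x0 := x0) Y
      exact ⟨i, hi hY⟩
    | one => exact ⟨0, Subgroup.one_mem _⟩
    | mul x y _ _ ihx ihy =>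
      by_cases hx1 : x = 1
      · subst hx1
        rw [one_mul] at h1 ⊢
        exact ihy h1
      by_cases hy1 : y = 1
      · subst hy1
        rw [mul_one] at h1 ⊢
        exact ihx h1
      obtain ⟨i, hi⟩ := ihx hx1
      obtain ⟨j, hj⟩ := ihy hy1
      exact ⟨max i j, Subgroup.mul_mem _ (stage_H_mono (le_max_left i j) hi)
        (stage_H_mono (le_max_right i j) hj)⟩
    | inv x _ ih =>
      obtain ⟨i, hi⟩ := ih (fun h => h1 (by rw [h, inv_one]))
      exact ⟨i, Subgroup.inv_mem _ hi⟩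
  obtain ⟨i, hi⟩ := key
  exact (stage S x0 i).claim n hi h1

end Pool.Agent.TH64.Wind
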