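import Pool.Agent.TH64.AppA2

/-!
# The group for S02870, concretely (helper64)
-/

set_option autoImplicit false

namespace Pool.Agent.TH64.AppA

/-- the semidirect product -/
abbrev GG : Type := SemidirectProduct (Multiplicative E) (FreeGroup (Fin 2)) act

/-- the module as a subgroup -/
def VV : Subgroup GG := (SemidirectProduct.rightHom : GG →* FreeGroup (Fin 2)).ker

/-- the elements acting diagonally -/
def KK : Subgroup GG := (cc.comp (SemidirectProduct.rightHom : GG →* FreeGroup (Fin 2))).ker

theorem mem_VV (g : GG) : g ∈ VV ↔ ∃ v : E, g = SemidirectProduct.inl (Multiplicative.ofAdd v) := by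
  unfold VV
  rw [← SemidirectProduct.range_inl_eq_ker_rightHom]
  constructor
  · rintro ⟨v, rfl⟩
    exact ⟨v.toAdd, by rw [ofAdd_toAdd]⟩
  · rintro ⟨v, rfl⟩
    exact ⟨_, rfl⟩

theorem mem_KK (g : GG) : g ∈ KK ↔ (cc g.right).toAdd = 0 := by
  unfold KK
  rw [MonoidHom.mem_ker]
  constructor
  · intro h
    have h' : cc g.right = 1 := h
    rw [h']
    rfl
  · intro h
    show cc g.right = 1
    rw [← ofAdd_toAdd (cc g.right), h]
    rfl

theorem conj_inl (g : GG) (v : Multiplicative E) :
    g * SemidirectProduct.inl v = SemidirectProduct.inl (act g.right v) * g := by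
  have h1 : (SemidirectProduct.inl (act g.right v) : GG) =
      SemidirectProduct.inr g.right * SemidirectProduct.inl v * SemidirectProduct.inr g.right⁻¹ :=
    SemidirectProduct.inl_aut _ _
  have h2 := SemidirectProduct.inl_left_mul_inr_right g
  have h3 : (SemidirectProduct.inl (act g.right v) : GG) * SemidirectProduct.inl g.left =
      SemidirectProduct.inl g.left * SemidirectProduct.inl (act g.right v) := by
    rw [← map_mul, ← map_mul, mul_comm]
  calc g * SemidirectProduct.inl v = SemidirectProduct.inl g.left * SemidirectProduct.inr g.right *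
        SemidirectProduct.inl v := by rw [h2]
    _ = SemidirectProduct.inl g.left * SemidirectProduct.inl (act g.right v) *
        SemidirectProduct.inr g.right := by
      rw [h1, map_inv]
      group
    _ = SemidirectProduct.inl (act g.right v) * (SemidirectProduct.inl g.left *
        SemidirectProduct.inr g.right) := by rw [← h3, mul_assoc]
    _ = _ := by rw [h2]

theorem E_all : ∀ i : ZMod 3, i = 0 ∨ i = 1 ∨ i = 2 := by decide

theorem hyps : Hyps VV KK where
  V_normal := by unfold VV; infer_instance
  K_normal := by unfold KK; infer_instance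
  ab := by
    intro u hu v hv
    obtain ⟨u, rfl⟩ := (mem_VV _).1 hu
    obtain ⟨v, rfl⟩ := (mem_VV _).1 hv
    have e1 : ∀ a b : Multiplicative E, (SemidirectProduct.inl a * SemidirectProduct.inl b : GG) =
        SemidirectProduct.inl (a * b) := fun a b => (map_mul _ _ _).symm
    rw [e1, e1, mul_comm (Multiplicative.ofAdd u)]
  exp := by
    intro v hv
    obtain ⟨v, rfl⟩ := (mem_VV _).1 hv
    rw [← map_pow, ← ofAdd_nsmul]
    have : 3 • v = 0 := by
      funext i
      show 3 • v i = 0
      have : ∀ a : ZMod 3, 3 • a = 0 := by decide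
      exact this _
    rw [this]
    simp
  VK := by
    intro g hg
    obtain ⟨v, rfl⟩ := (mem_VV _).1 hg
    rw [mem_KK]
    simp
  CK := by
    intro g hg
    rw [mem_KK]
    by_contra hne
    obtain ⟨s, hs, hact⟩ := mono_act g.right
    set c := (cc g.right).toAdd with hc
    have h1 := hg (SemidirectProduct.inl (Multiplicative.ofAdd (Pi.single 0 1)))
      ((mem_VV _).2 ⟨_, rfl⟩)
    rw [conj_inl] at h1
    have h2 := SemidirectProduct.inl_injective (mul_right_cancel h1)
    have h3 := hact (Pi.single 0 1) c
    rw [h2, toAdd_ofAdd, sub_self, Pi.single_eq_same, mul_one, Pi.single_eq_of_ne hne] at h3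
    have h4 : ∀ a b c : ZMod 3, a * b * c = 1 → a ≠ 0 ∧ b ≠ 0 ∧ c ≠ 0 := by decide
    obtain ⟨h5, h6, h7⟩ := h4 _ _ _ hs
    rcases E_all c with h | h | h
    · exact hne h
    · rw [h] at h3
      exact h6 h3.symm
    · rw [h] at h3
      exact h7 h3.symm
  cube := by
    intro X hX v hv
    obtain ⟨v, rfl⟩ := (mem_VV _).1 hv
    rw [conj_inl]
    congr 2
    have h1 := mono_act (X ^ 3).right
    have h2 : (X ^ 3).right = X.right ^ 3 := by
      show SemidirectProduct.rightHom (X ^ 3) = _
      rw [map_pow]
      rfl
    rw [h2]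
    obtain ⟨s, hs, hact⟩ := mono_act X.right
    set c := (cc X.right).toAdd with hc
    have hc0 : c ≠ 0 := fun h => hX ((mem_KK X).2 h)
    rw [map_pow, pow_succ, pow_two, MulAut.mul_apply, MulAut.mul_apply]
    apply Multiplicative.toAdd.injective
    funext i
    have e1 := hact (act X.right (act X.right (Multiplicative.ofAdd v))).toAdd i
    have e2 := hact (act X.right (Multiplicative.ofAdd v)).toAdd (i - c)
    have e3 := hact v (i - c - c)
    rw [ofAdd_toAdd] at e1 e2
    rw [e1, e2, e3, toAdd_ofAdd]
    have h4 : ∀ i c : ZMod 3, i - c - c - c = i := by decide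
    rw [h4]
    have h5 : s i * (s (i - c) * s (i - c - c)) = 1 := by
      rw [← hs]
      rcases E_all c with h | h | h
      · exact absurd h hc0
      · rcases E_all i with h' | h' | h' <;> rw [h, h']
        · rw [show (0 : ZMod 3) - 1 - 1 = 1 by decide, show (0 : ZMod 3) - 1 = 2 by decide]; try ring
        · rw [show (1 : ZMod 3) - 1 - 1 = 2 by decide, show (1 : ZMod 3) - 1 = 0 by decide]; try ring
        · rw [show (2 : ZMod 3) - 1 - 1 = 0 by decide, show (2 : ZMod 3) - 1 = 1 by decide]; try ring
      · rcases E_all i with h' | h' | h' <;> rw [h, h']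
        · rw [show (0 : ZMod 3) - 2 - 2 = 2 by decide, show (0 : ZMod 3) - 2 = 1 by decide]; try ring
        · rw [show (1 : ZMod 3) - 2 - 2 = 0 by decide, show (1 : ZMod 3) - 2 = 2 by decide]; try ring
        · rw [show (2 : ZMod 3) - 2 - 2 = 1 by decide, show (2 : ZMod 3) - 2 = 0 by decide]; try ring
    calc s i * (s (i - c) * (s (i - c - c) * v i))
        = (s i * (s (i - c) * s (i - c - c))) * v i := by ring
      _ = v i := by rw [h5, one_mul]
  fix := by
    intro X hX
    obtain ⟨s, hs, hact⟩ := mono_act X.right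
    set c := (cc X.right).toAdd with hc
    have hc0 : c ≠ 0 := fun h => hX ((mem_KK X).2 h)
    have h4 : ∀ a b c : ZMod 3, a * b * c = 1 → a ≠ 0 ∧ b ≠ 0 ∧ c ≠ 0 := by decide
    have hall : ∀ i, s i * s (i - c) * s (i - c - c) = 1 := by
      intro i
      rw [← hs]
      rcases E_all c with h | h | h
      · exact absurd h hc0
      · rcases E_all i with h' | h' | h' <;> rw [h, h']
        · rw [show (0 : ZMod 3) - 1 - 1 = 1 by decide, show (0 : ZMod 3) - 1 = 2 by decide]; try ring
        · rw [show (1 : ZMod 3) - 1 - 1 = 2 by decide, show (1 : ZMod 3) - 1 = 0 by decide]; try ring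
        · rw [show (2 : ZMod 3) - 1 - 1 = 0 by decide, show (2 : ZMod 3) - 1 = 1 by decide]; try ring
      · rcases E_all i with h' | h' | h' <;> rw [h, h']
        · rw [show (0 : ZMod 3) - 2 - 2 = 2 by decide, show (0 : ZMod 3) - 2 = 1 by decide]; try ring
        · rw [show (1 : ZMod 3) - 2 - 2 = 0 by decide, show (1 : ZMod 3) - 2 = 2 by decide]; try ring
        · rw [show (2 : ZMod 3) - 2 - 2 = 1 by decide, show (2 : ZMod 3) - 2 = 0 by decide]; try ring
    -- the fixed vector
    let w : E := fun i => if i = 0 then 1 else if i = c then s c else s (c + c) * s c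
    have hw : ∀ i, s i * w (i - c) = w i := by
      have h0 := hall 0
      have hc2 : ∀ c : ZMod 3, c ≠ 0 → c + c ≠ 0 ∧ c + c ≠ c ∧ 0 - c = c + c ∧ 0 - c - c = c ∧
          ∀ i : ZMod 3, i = 0 ∨ i = c ∨ i = c + c := by decide
      obtain ⟨h5, h6, h7, h8, h9⟩ := hc2 c hc0
      intro i
      rcases h9 i with h | h | h
      · rw [h]
        show s 0 * w (0 - c) = w 0
        rw [h7]
        simp only [w, if_neg h5, if_neg h6, if_true]
        rw [h8, h7] at h0
        rw [← mul_assoc]
        exact h0
      · rw [h, sub_self]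
        simp only [w, if_true, if_neg hc0, mul_one]
      · rw [h, add_sub_cancel_right]
        simp only [w, if_neg hc0, if_neg h5, if_neg h6, if_true]
    refine ⟨SemidirectProduct.inl (Multiplicative.ofAdd w), (mem_VV _).2 ⟨_, rfl⟩, ?_, ?_⟩
    · intro h
      have h5 := SemidirectProduct.inl_injective (h.trans (map_one _).symm)
      have h6 : w 0 = (0 : E) 0 := congrFun (Multiplicative.ofAdd.injective h5) 0
      have h7 : w 0 = 1 := by simp [w]
      rw [h7] at h6
      exact absurd h6 (by decide)
    · rw [conj_inl]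
      congr 2
      apply Multiplicative.toAdd.injective
      funext i
      rw [hact, hw, toAdd_ofAdd]
  K3 := by
    intro X
    rw [mem_KK]
    have h2 : (X ^ 3).right = X.right ^ 3 := by
      show SemidirectProduct.rightHom (X ^ 3) = _
      rw [map_pow]
      rfl
    rw [h2, map_pow, toAdd_pow]
    have : ∀ a : ZMod 3, 3 • a = 0 := by decide
    exact this _

instance : Countable GG := by
  have : Countable (Multiplicative E) := inferInstanceAs (Countable E)
  have : Countable (FreeGroup (Fin 2)) := inferInstance
  exact Countable.of_equiv _ (SemidirectProduct.equivProd (φ := act)).symm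

theorem nice_free : Nice (FreeGroup (Fin 2)) where
  hyp := FreeBase.free_hyp
  odd := by
    intro a ha
    rw [FreeBase.free_torsion_free a ha, orderOf_one]
    exact odd_one
  com := by
    intro a g ha hf _
    exact absurd (FreeBase.free_torsion_free a hf) ha

theorem inv_bot : Inv VV KK ⊥ where
  normal := inferInstance
  inf := by
    intro g hg _
    exact hg
  nice := by
    refine ⟨FreeGroup (Fin 2), inferInstance, SemidirectProduct.rightHom,
      SemidirectProduct.rightHom_surjective, nice_free, ?_⟩
    intro g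
    constructor
    · intro h
      exact ⟨g, h, by rw [inv_mul_cancel]; exact Subgroup.one_mem _⟩
    · rintro ⟨v, hv, h⟩
      have : v⁻¹ * g = 1 := h
      rw [← inv_mul_eq_one.1 this]
      exact hv
  pw := by
    rintro g hg m hm ⟨v, hv, h⟩
    exfalso
    have h1 : v⁻¹ * g ^ m = 1 := h
    have h2 : g ^ m ∈ VV := by
      rw [← inv_mul_eq_one.1 h1]
      exact hv
    have h3 : g.right ^ m = 1 := by
      have h4 : SemidirectProduct.rightHom (g ^ m) = 1 := h2
      rw [map_pow] at h4
      exact h4
    have h5 := FreeBase.free_torsion_free g.right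
      (isOfFinOrder_iff_pow_eq_one.2 ⟨m, hm, h3⟩)
    apply hg
    rw [mem_KK, h5, map_one]
    rfl

theorem fg_GG : Group.FG GG := by
  rw [Group.fg_iff]
  refine ⟨Set.range (SemidirectProduct.inl : Multiplicative E →* GG) ∪
    Set.range (fun i : Fin 2 => (SemidirectProduct.inr (FreeGroup.of i) : GG)), ?_, ?_⟩
  · rw [eq_top_iff]
    intro g _
    rw [← SemidirectProduct.inl_left_mul_inr_right g]
    refine Subgroup.mul_mem _ (Subgroup.subset_closure (Or.inl ⟨_, rfl⟩)) ?_
    have h1 : (SemidirectProduct.inr g.right : GG) ∈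
        (Subgroup.closure (Set.range (FreeGroup.of : Fin 2 → FreeGroup (Fin 2)))).map
          (SemidirectProduct.inr : FreeGroup (Fin 2) →* GG) :=
      ⟨g.right, by rw [FreeGroup.closure_range_of]; trivial, rfl⟩
    rw [MonoidHom.map_closure] at h1
    refine Subgroup.closure_mono ?_ h1
    rintro _ ⟨_, ⟨i, rfl⟩, rfl⟩
    exact Or.inr ⟨i, rfl⟩
  · have : Finite (Multiplicative E) := inferInstanceAs (Finite E)
    exact (Set.finite_range _).union (Set.finite_range _)

end Pool.Agent.TH64.AppA
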