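import Pool.Agent.TH64.Proj

/-!
# Powers of elements with large translation (helper64)
-/

set_option autoImplicit false

namespace Pool.Agent.TH64

variable {G : Type*} [Group G]

namespace Hyp

variable (H : Hyp G)

theorem d_pow (z : G) {i j : ℕ} (h : i ≤ j) : H.d (z ^ i) (z ^ j) = H.len (z ^ (j - i)) := by
  unfold d
  congr 1
  rw [pow_sub z h]
  exact ((Commute.refl z).pow_pow j i).inv_right.eq.symm

theorem d_pow' (z : G) {i j : ℕ} (h : i ≤ j) : H.d (z ^ j) (z ^ i) = H.len (z ^ (j - i)) := by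
  rw [H.d_comm, H.d_pow z h]

/-- a minimal element of length at least `2 D + 2` has almost twice longer square -/
theorem lox_min {z : G} (hmin : ∀ p, H.len z ≤ H.len (p⁻¹ * z * p))
    (h : 2 * H.D + 2 ≤ H.len z) : 2 * H.len z ≤ H.len (z ^ 2) + (2 * H.D + 1) := by
  by_contra hcon
  push Not at hcon
  obtain ⟨σ, h0, hn, hg⟩ := H.exists_geo 1 z
  rw [H.d_one] at hn hg
  set a := H.len z with ha
  have e1 := hg 0 (H.D + 1) (by omega) (by omega)
  have e2 := hg (H.D + 1) (a - (H.D + 1)) (by omega) (by omega)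
  have e3 := hg (a - (H.D + 1)) a (by omega) (by omega)
  have e4 := hg (H.D + 1) a (by omega) (by omega)
  have e5 := hg 0 (a - (H.D + 1)) (by omega) (by omega)
  rw [h0] at e1 e5
  rw [hn] at e3 e4
  -- the point `z * r0`
  have f1 : H.d z (z * σ (H.D + 1)) = H.D + 1 := by
    have := H.d_mul z 1 (σ (H.D + 1))
    rw [mul_one] at this
    rw [this, e1]
    omega
  have f2 : H.d (z * σ (H.D + 1)) (z * z) = a - (H.D + 1) := by
    rw [H.d_mul, e4]
  have f3 : H.d z (z * z) = a := by
    have := H.d_mul z 1 z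
    rw [mul_one] at this
    rw [this, H.d_one]
  have f4 : H.d 1 (z * z) = H.len (z ^ 2) := by rw [H.d_one, pow_two]
  have f5 : H.d z 1 = a := H.d_one' z
  have key := H.fellow (u := z) (v := 1) (w := z * z) (q := σ (a - (H.D + 1)))
    (q' := z * σ (H.D + 1)) (s := H.D + 1) (by rw [H.d_comm, e3]; omega)
    (by rw [f5, H.d_comm, e5]; omega) f1 (by rw [f2, f3]; omega) (by rw [f4, f5, f3]; omega)
  have h1 := hmin (σ (H.D + 1))
  have h2 : H.len ((σ (H.D + 1))⁻¹ * z * σ (H.D + 1)) = H.d (σ (H.D + 1)) (z * σ (H.D + 1)) := by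
    unfold d
    rw [mul_assoc]
  rw [h2] at h1
  have h3 := H.d_tri (σ (H.D + 1)) (σ (a - (H.D + 1))) (z * σ (H.D + 1))
  omega

theorem len_pow_two_le (z : G) : H.len (z ^ 2) ≤ 2 * H.len z := by
  rw [pow_two]
  have := H.len_mul z z
  omega

theorem lox_mono {z : G} (h : H.len z + H.D + 1 ≤ H.len (z ^ 2)) (n : ℕ) :
    H.len (z ^ n) + H.len (z ^ 2) ≤ H.len (z ^ (n + 1)) + H.len z + H.D := by
  have h2 := H.len_pow_two_le z
  induction n with
  | zero =>
    simp only [pow_zero, zero_add, pow_one, H.len_one]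
    omega
  | succ n ih =>
    rcases Nat.eq_zero_or_pos n with rfl | hn
    · simp only [zero_add, pow_one]
      rw [show (1 + 1) = 2 from rfl]
      omega
    have h1 := H.fp (z ^ 0) (z ^ 2) (z ^ 1) (z ^ (n + 2))
    rw [H.d_pow z (by omega), H.d_pow z (by omega), H.d_pow z (by omega), H.d_pow z (by omega),
      H.d_pow z (by omega), H.d_pow' z (by omega)] at h1
    simp only [Nat.sub_zero, Nat.add_sub_cancel, show 2 - 1 = 1 from rfl, pow_one,
      show n + 2 - 1 = n + 1 by omega] at h1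
    rw [show n + 1 + 1 = n + 2 by omega]
    omega

theorem lox_sup {z : G} (h : H.len z + 2 * H.D + 1 ≤ H.len (z ^ 2)) (i j : ℕ) :
    H.len (z ^ i) + H.len (z ^ j) + H.len (z ^ 2) ≤
      H.len (z ^ (i + j)) + 2 * H.len z + 2 * H.D := by
  have h2 := H.len_pow_two_le z
  have hm := H.lox_mono (z := z) (by omega)
  rcases Nat.eq_zero_or_pos j with rfl | hj
  · simp only [pow_zero, H.len_one, add_zero]
    omega
  have h1 := H.fp (z ^ 0) (z ^ (i + 1)) (z ^ i) (z ^ (i + j))
  rw [H.d_pow z (by omega), H.d_pow z (by omega), H.d_pow z (by omega), H.d_pow z (by omega),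
    H.d_pow z (by omega), H.d_pow' z (by omega)] at h1
  simp only [Nat.sub_zero, Nat.add_sub_cancel_left, pow_one,
    show i + j - (i + 1) = j - 1 by omega] at h1
  have h3 := hm i
  have h4 := hm (j - 1)
  rw [show j - 1 + 1 = j by omega] at h4
  omega

/-- the case of minimal elements of length at least `4 D + 2` -/
theorem lox_sup_min {z : G} (hmin : ∀ p, H.len z ≤ H.len (p⁻¹ * z * p))
    (h : 4 * H.D + 2 ≤ H.len z) (i j : ℕ) :
    H.len (z ^ i) + H.len (z ^ j) ≤ H.len (z ^ (i + j)) + (4 * H.D + 1) := by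
  have h1 := H.lox_min hmin (by omega)
  have h2 := H.lox_sup (z := z) (by omega) i j
  omega

theorem lox_lin {z : G} (h : H.len z + H.D + 1 ≤ H.len (z ^ 2)) (n : ℕ) :
    n ≤ H.len (z ^ n) := by
  induction n with
  | zero => simp
  | succ n ih =>
    have := H.lox_mono h n
    omega

theorem lox_lin_min {z : G} (hmin : ∀ p, H.len z ≤ H.len (p⁻¹ * z * p))
    (h : 4 * H.D + 2 ≤ H.len z) (n : ℕ) : n ≤ H.len (z ^ n) := by
  have h1 := H.lox_min hmin (by omega)
  exact H.lox_lin (by omega) n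

end Hyp

end Pool.Agent.TH64
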