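import Pool.Agent.TH64.Ost

/-!
# One step of the construction: the main theorem (helper64)
-/

set_option autoImplicit false

namespace Pool.Agent.TH64

section

variable {G : Type*} [Group G]

theorem fin_conj {a g : G} (h : IsOfFinOrder a) : IsOfFinOrder (g⁻¹ * a * g) := by
  rw [isOfFinOrder_iff_pow_eq_one] at h ⊢
  obtain ⟨k, hk, hk1⟩ := h
  exact ⟨k, hk, by rw [conj_pow', hk1]; group⟩

theorem mk_mul_mem (M : Subgroup G) [M.Normal] (z : G) {n : G} (hn : n ∈ M) :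
    ((z * n : G) : G ⧸ M) = (z : G ⧸ M) := by
  rw [QuotientGroup.mk_mul, (QuotientGroup.eq_one_iff n).2 hn, mul_one]

/-- the quotient is nice -/
theorem nice_quot {H : Hyp G} {x : G} (A : Ax H x)
    (hcom : ∀ a g : G, a ≠ 1 → IsOfFinOrder a → a * g = g * a → IsOfFinOrder g)
    (hodd : ∀ a : G, IsOfFinOrder a → Odd (orderOf a)) : ∃ N0 : ℕ, ∀ N ≥ N0, Odd N →
    ∀ (M : Subgroup G) [M.Normal], Fill A N M → Nice (G ⧸ M) := by
  obtain ⟨N1, h1⟩ := quot_hyp A
  obtain ⟨N2, h2⟩ := tor A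
  obtain ⟨N3, h3⟩ := comm_small A (2 * H.D + 1)
  obtain ⟨N4, h4⟩ := comm_x_of A (pmin A) (fun R => comm_small A R)
  refine ⟨N1 + N2 + N3 + N4 + 1, ?_⟩
  intro N hN hNodd M hM hF
  have hxN : (x : G ⧸ M) ^ N = 1 := by
    have := hF.rot 1 1
    unfold PAx.rt at this
    rw [one_mul, inv_one, mul_one, mul_one, zpow_natCast] at this
    rw [← QuotientGroup.mk_pow]
    exact (QuotientGroup.eq_one_iff _).2 this
  -- torsion elements of the quotient
  have htor : ∀ q : G ⧸ M, IsOfFinOrder q → ∃ a : G, (a : G ⧸ M) = q ∧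
      (IsOfFinOrder a ∨ ∃ g : G, g⁻¹ * a * g ∈ Subgroup.zpowers x) := by
    intro q hq
    obtain ⟨z, rfl⟩ := QuotientGroup.mk_surjective q
    obtain ⟨m, hm, hm1⟩ := isOfFinOrder_iff_pow_eq_one.1 hq
    rw [← QuotientGroup.mk_pow, QuotientGroup.eq_one_iff] at hm1
    obtain ⟨n, hn, h⟩ := h2 N (by omega) M hF z m hm hm1
    exact ⟨z * n, mk_mul_mem M z hn, h⟩
  refine ⟨h1 N (by omega) M hF, ?_, ?_⟩
  · intro q hq
    obtain ⟨a, rfl, ha | ⟨g, hg⟩⟩ := htor q hq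
    · have h5 : orderOf (a : G ⧸ M) ∣ orderOf a := orderOf_map_dvd (QuotientGroup.mk' M) a
      exact Odd.of_dvd_nat (hodd a ha) h5
    · obtain ⟨j, hj⟩ := hg
      have hj' : x ^ j = g⁻¹ * a * g := hj
      have h5 : (a : G ⧸ M) ^ N = 1 := by
        have e1 : a = g * x ^ j * g⁻¹ := by rw [hj']; group
        have e2 : (a : G ⧸ M) = (g : G ⧸ M) * (x : G ⧸ M) ^ j * (g : G ⧸ M)⁻¹ := by
          rw [e1]
          rfl
        rw [e2, conj_pow, ← zpow_natCast, ← zpow_mul, mul_comm, zpow_mul, zpow_natCast, hxN,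
          one_zpow]
        group
      exact Odd.of_dvd_nat hNodd (orderOf_dvd_of_pow_eq_one h5)
  · intro q q' hq1 hq hqq
    obtain ⟨g', rfl⟩ := QuotientGroup.mk_surjective q'
    obtain ⟨a, rfl, ha | ⟨g, hg⟩⟩ := htor q hq
    · obtain ⟨p, hp⟩ := ft H a ha
      set b := p⁻¹ * a * p with hb
      set h := p⁻¹ * g' * p with hh
      have hbne : b ≠ 1 := by
        intro hb1
        apply hq1
        have : a = p * b * p⁻¹ := by rw [hb]; group
        rw [this, hb1]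
        simp
      have hbh : b⁻¹ * h * b * h⁻¹ ∈ M := by
        rw [← QuotientGroup.eq_one_iff]
        have e1 : b⁻¹ * h * b * h⁻¹ = p⁻¹ * (a⁻¹ * g' * a * g'⁻¹) * p := by
          rw [hb, hh]
          group
        rw [e1]
        have e2 : ((a⁻¹ * g' * a * g'⁻¹ : G) : G ⧸ M) = 1 := by
          have : ((a⁻¹ * g' * a * g'⁻¹ : G) : G ⧸ M) =
            (a : G ⧸ M)⁻¹ * ((g' : G ⧸ M) * (a : G ⧸ M)) * (g' : G ⧸ M)⁻¹ := by
            simp only [QuotientGroup.mk_mul, QuotientGroup.mk_inv]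
            group
          rw [this, ← hqq]
          group
        rw [QuotientGroup.mk_mul, QuotientGroup.mk_mul, e2, QuotientGroup.mk_inv]
        group
      obtain ⟨n, hn, hcn⟩ := h3 N (by omega) M hF b h hp hbh
      have hfin : IsOfFinOrder (n * h) := hcom b (n * h) hbne (fin_conj ha) hcn.symm
      have hfin2 : IsOfFinOrder ((h : G) : G ⧸ M) := by
        have e3 : ((h : G) : G ⧸ M) = QuotientGroup.mk' M (n * h) := by
          have e5 : QuotientGroup.mk' M (n * h) = (n : G ⧸ M) * ((h : G) : G ⧸ M) := rfl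
          rw [e5, (QuotientGroup.eq_one_iff n).2 hn, one_mul]
        rw [e3]
        exact MonoidHom.isOfFinOrder _ hfin
      have e4 : (g' : G ⧸ M) = ((p : G ⧸ M)⁻¹)⁻¹ * ((h : G) : G ⧸ M) * (p : G ⧸ M)⁻¹ := by
        rw [hh]
        simp only [QuotientGroup.mk_mul, QuotientGroup.mk_inv]
        group
      rw [e4]
      exact fin_conj hfin2
    · obtain ⟨j, hj⟩ := hg
      have hj' : x ^ j = g⁻¹ * a * g := hj
      set h := g⁻¹ * g' * g with hh
      have hNj : ¬ (N : ℤ) ∣ j := by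
        rintro ⟨k, hk⟩
        apply hq1
        have e1 : a = g * x ^ j * g⁻¹ := by rw [hj']; group
        have e2 : (a : G ⧸ M) = (g : G ⧸ M) * (x : G ⧸ M) ^ j * (g : G ⧸ M)⁻¹ := by
          rw [e1]
          rfl
        rw [e2, hk, zpow_mul, zpow_natCast, hxN, one_zpow]
        group
      have hbh : x ^ (-j) * h * x ^ j * h⁻¹ ∈ M := by
        rw [← QuotientGroup.eq_one_iff]
        have e1 : x ^ (-j) * h * x ^ j * h⁻¹ = g⁻¹ * (a⁻¹ * g' * a * g'⁻¹) * g := by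
          rw [zpow_neg, hj', hh]
          group
        rw [e1]
        have e2 : ((a⁻¹ * g' * a * g'⁻¹ : G) : G ⧸ M) = 1 := by
          have : ((a⁻¹ * g' * a * g'⁻¹ : G) : G ⧸ M) =
            (a : G ⧸ M)⁻¹ * ((g' : G ⧸ M) * (a : G ⧸ M)) * (g' : G ⧸ M)⁻¹ := by
            simp only [QuotientGroup.mk_mul, QuotientGroup.mk_inv]
            group
          rw [this, ← hqq]
          group
        rw [QuotientGroup.mk_mul, QuotientGroup.mk_mul, e2, QuotientGroup.mk_inv]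
        group
      obtain ⟨n, hn, k, hk⟩ := h4 N (by omega) M hF j h hNj hbh
      have e3 : ((h : G) : G ⧸ M) = (x : G ⧸ M) ^ k := by
        rw [hk, QuotientGroup.mk_mul, (QuotientGroup.eq_one_iff n).2 hn, one_mul,
          QuotientGroup.mk_zpow]
      have hfinx : IsOfFinOrder (x : G ⧸ M) :=
        isOfFinOrder_iff_pow_eq_one.2 ⟨N, by omega, hxN⟩
      have hfin2 : IsOfFinOrder ((h : G) : G ⧸ M) := by
        rw [e3]
        exact hfinx.zpow
      have e4 : (g' : G ⧸ M) = ((g : G ⧸ M)⁻¹)⁻¹ * ((h : G) : G ⧸ M) * (g : G ⧸ M)⁻¹ := by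
        rw [hh]
        simp only [QuotientGroup.mk_mul, QuotientGroup.mk_inv]
        group
      rw [e4]
      exact fin_conj hfin2

end

/-- the conclusions of the one step theorem for the exponent `N` -/
structure Step {G : Type} [Group G] (x : G) (R : Set G) (N : ℕ) : Prop where
  nice : Nice (G ⧸ Subgroup.normalClosure ({x ^ N} : Set G))
  tor : ∀ z : G, ∀ m : ℕ, 1 ≤ m → z ^ m ∈ Subgroup.normalClosure ({x ^ N} : Set G) →
    ∃ n ∈ Subgroup.normalClosure ({x ^ N} : Set G), IsOfFinOrder (z * n) ∨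
      ∃ g : G, g⁻¹ * (z * n) * g ∈ Subgroup.zpowers x
  inj : ∀ s ∈ R, s ∈ Subgroup.normalClosure ({x ^ N} : Set G) → s = 1
  ord : ∀ k : ℤ, x ^ k ∈ Subgroup.normalClosure ({x ^ N} : Set G) → (N : ℤ) ∣ k
  com : ∀ a ∈ R, ∀ g : G, a⁻¹ * g * a * g⁻¹ ∈ Subgroup.normalClosure ({x ^ N} : Set G) →
    ∃ n ∈ Subgroup.normalClosure ({x ^ N} : Set G), (n * g) * a = a * (n * g)
  comx : ∀ (j : ℤ) (g : G), ¬ (N : ℤ) ∣ j →
    x ^ (-j) * g * x ^ j * g⁻¹ ∈ Subgroup.normalClosure ({x ^ N} : Set G) →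
    ∃ n ∈ Subgroup.normalClosure ({x ^ N} : Set G), ∃ k : ℤ, g = n * x ^ k
  ext : ∀ (G' : Type) [Group G'] (φ : G' →* G), Function.Surjective φ → ∀ r : G', φ r = x ^ N →
    (∀ g, φ g ∈ Subgroup.zpowers x → g * r = r * g) →
    ∀ n ∈ Subgroup.normalClosure ({r} : Set G'), φ n = 1 → n = 1

/-- **the one step theorem** -/
theorem ost {G : Type} [Group G] (hG : Nice G) (γ : G) (hγ : ¬ IsOfFinOrder γ) :
    ∃ x : G, (∃ j : ℤ, x ^ j = γ) ∧ ¬ IsOfFinOrder x ∧
      (∀ (g : G) (t : ℤ), t ≠ 0 → g * x ^ t = x ^ t * g → g ∈ Subgroup.zpowers x) ∧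
      ∀ R : Set G, R.Finite → ∃ N0 : ℕ, ∀ N ≥ N0, Odd N → Step x R N := by
  obtain ⟨H⟩ := hG.hyp
  obtain ⟨Pγ⟩ := exists_pax' H hγ
  obtain ⟨x, ⟨j, hj⟩, hE⟩ := TH142.J487.elem H hG.odd hG.com γ Pγ
  have hx : ¬ IsOfFinOrder x := by
    intro h
    apply hγ
    rw [← hj]
    exact h.zpow
  obtain ⟨P⟩ := exists_pax' H hx
  have hj0 : j ≠ 0 := by
    rintro rfl
    apply hγ
    rw [← hj, zpow_zero]
    exact IsOfFinOrder.one
  obtain ⟨A⟩ := exists_ax P (by
    intro g hg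
    obtain ⟨s, hs, t, ht, hst⟩ := hg
    apply hE g
    -- raise to the power `j`
    have h1 : ∀ k : ℤ, g * γ ^ (t * k) * g⁻¹ = γ ^ ((s : ℤ) * k) := by
      intro k
      have h2 : (g * x ^ t * g⁻¹) ^ (j * k) = (x ^ (s : ℤ)) ^ (j * k) := by rw [hst]
      rw [conj_zpow, ← zpow_mul, ← zpow_mul] at h2
      rw [← hj, ← zpow_mul, ← zpow_mul]
      rw [show j * (t * k) = t * (j * k) by ring, show j * (s * k) = s * (j * k) by ring]
      exact h2
    have h2 := h1 1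
    rw [mul_one, mul_one] at h2
    exact ⟨s, hs, t, ht, h2⟩)
  refine ⟨x, ⟨j, hj⟩, hx, fun g t ht h => A.comm ht h, ?_⟩
  intro R hR
  obtain ⟨rr, hrr⟩ : ∃ rr : ℕ, ∀ a ∈ R, H.len a ≤ rr := by
    obtain ⟨rr, h⟩ := (hR.image H.len).bddAbove
    exact ⟨rr, fun a ha => h ⟨a, ha, rfl⟩⟩
  obtain ⟨N1, h1⟩ := nice_quot A hG.com hG.odd
  obtain ⟨N2, h2⟩ := tor A
  obtain ⟨N3, h3⟩ := inj_small A rr
  obtain ⟨N4, h4⟩ := ord_x A
  obtain ⟨N5, h5⟩ := comm_small A rr
  obtain ⟨N6, h6⟩ := comm_x_of A (pmin A) (fun R => comm_small A R)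
  refine ⟨N1 + N2 + N3 + N4 + N5 + N6 + (40 * A.th + 1), ?_⟩
  intro N hN hodd
  have hF := fill_normalClosure A N (by omega)
  exact
    { nice := h1 N (by omega) hodd _ hF
      tor := h2 N (by omega) _ hF
      inj := fun s hs hsM => h3 N (by omega) _ hF s hsM (hrr s hs)
      ord := h4 N (by omega) _ hF
      com := fun a ha g hg => h5 N (by omega) _ hF a g (hrr a ha) hg
      comx := h6 N (by omega) _ hF
      ext := by
        intro G' _ φ hφ r hr hc n hn hn1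
        exact gr_ker φ hφ A N (by omega) r hr hc n hn hn1 }

end Pool.Agent.TH64
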