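import Pool.Agent.TH64.Ost2

/-!
# Extensions of torsion groups by a finite module (helper64)
-/

set_option autoImplicit false

namespace Pool.Agent.TH64.AppA

variable {G0 : Type} [Group G0] (V K0 : Subgroup G0)

/-- the invariants of the construction -/
structure Inv (R : Subgroup G0) : Prop where
  normal : R.Normal
  inf : ∀ g ∈ R, g ∈ V → g = 1
  nice : ∃ (Q : Type) (_ : Group Q) (ψ : G0 →* Q), Function.Surjective ψ ∧ Nice Q ∧
    ∀ g, ψ g = 1 ↔ ∃ v ∈ V, v⁻¹ * g ∈ R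
  pw : ∀ g, g ∉ K0 → ∀ m : ℕ, 1 ≤ m → (∃ v ∈ V, v⁻¹ * g ^ m ∈ R) →
    ∃ k : ℕ, ∃ v ∈ V, v ≠ 1 ∧ v⁻¹ * g ^ k ∈ R

/-- the hypotheses on the module -/
structure Hyps : Prop where
  V_normal : V.Normal
  K_normal : K0.Normal
  ab : ∀ u ∈ V, ∀ v ∈ V, u * v = v * u
  exp : ∀ v ∈ V, v ^ 3 = 1
  VK : V ≤ K0
  CK : ∀ g, (∀ v ∈ V, g * v = v * g) → g ∈ K0
  cube : ∀ X, X ∉ K0 → ∀ v ∈ V, X ^ 3 * v = v * X ^ 3
  fix : ∀ X, X ∉ K0 → ∃ v ∈ V, v ≠ 1 ∧ X * v = v * X
  K3 : ∀ X : G0, X ^ 3 ∈ K0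

variable {V K0}

theorem zcube (h : Hyps V K0) {X : G0} {k : ℤ} (hk : ¬ (3 : ℤ) ∣ k) (hX : X ∉ K0) : X ^ k ∉ K0 := by
  intro hmem
  apply hX
  have h3 := h.K3 X
  have h4 : k % 3 = 1 ∨ k % 3 = 2 := by omega
  have h5 : X ^ (3 * (k / 3)) ∈ K0 := by
    rw [zpow_mul]
    exact K0.zpow_mem (by exact_mod_cast h3) _
  have h6 : X ^ (k % 3) ∈ K0 := by
    have e : X ^ (k % 3) = X ^ k * (X ^ (3 * (k / 3)))⁻¹ := by
      rw [← zpow_neg, ← zpow_add]
      congr 1
      omega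
    rw [e]
    exact K0.mul_mem hmem (K0.inv_mem h5)
  rcases h4 with h4 | h4
  · rw [h4, zpow_one] at h6
    exact h6
  · rw [h4] at h6
    have e : X = X ^ 3 * (X ^ (2 : ℤ))⁻¹ := by
      have : X ^ (3 : ℕ) = X ^ (3 : ℤ) := by norm_cast
      rw [this, ← zpow_neg, ← zpow_add]
      norm_num
    rw [e]
    exact K0.mul_mem h3 (K0.inv_mem h6)

theorem R_le (h : Hyps V K0) {R : Subgroup G0} (hR : R.Normal) (hinf : ∀ g ∈ R, g ∈ V → g = 1) :
    R ≤ K0 := by
  intro g hg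
  apply h.CK
  intro v hv
  have h1 : g * v * g⁻¹ * v⁻¹ ∈ V := V.mul_mem (h.V_normal.conj_mem v hv g) (V.inv_mem hv)
  have h2 : g * v * g⁻¹ * v⁻¹ ∈ R := by
    have : g * (v * g⁻¹ * v⁻¹) ∈ R := R.mul_mem hg (hR.conj_mem _ (R.inv_mem hg) v)
    simpa [mul_assoc] using this
  have h3 := hinf _ h2 h1
  have h4 : g * v * g⁻¹ = v := by
    have := mul_inv_eq_one.1 h3
    exact this
  exact mul_inv_eq_iff_eq_mul.1 h4

/-- ninth powers -/
theorem ninth (h : Hyps V K0) {Y w : G0} (hY : Y ∉ K0) (hw : w ∈ V) :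
    (Y * w) ^ 9 = Y ^ 9 := by
  have hconj : ∀ i : ℕ, (Y ^ i)⁻¹ * w * Y ^ i ∈ V := by
    intro i
    have := h.V_normal.conj_mem w hw (Y ^ i)⁻¹
    rwa [inv_inv] at this
  set w1 := (Y ^ 2)⁻¹ * w * Y ^ 2 with hw1
  set w2 := (Y ^ 1)⁻¹ * w * Y ^ 1 with hw2
  have h3 : (Y * w) ^ 3 = Y ^ 3 * (w1 * w2 * w) := by
    rw [hw1, hw2]
    simp only [pow_succ, pow_zero, one_mul]
    group
  have hu : w1 * w2 * w ∈ V := V.mul_mem (V.mul_mem (hconj 2) (hconj 1)) hw
  have hc : Y ^ 3 * (w1 * w2 * w) = (w1 * w2 * w) * Y ^ 3 := h.cube Y hY _ hu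
  have h9 : (Y * w) ^ 9 = ((Y * w) ^ 3) ^ 3 := by rw [← pow_mul]
  rw [h9, h3, (show Commute (Y ^ 3) (w1 * w2 * w) from hc).mul_pow, h.exp _ hu, mul_one, ← pow_mul]

/-- one step -/
theorem step (h : Hyps V K0) {R : Subgroup G0} (hR : Inv V K0 R) {γ : G0} (hγ : γ ∉ K0) :
    ∃ R' : Subgroup G0, R ≤ R' ∧ Inv V K0 R' ∧ ∃ m : ℕ, 1 ≤ m ∧ ∃ v ∈ V, v⁻¹ * γ ^ m ∈ R' := by
  obtain ⟨Q, _, ψ, hψs, hQ, hker⟩ := hR.nice
  have hRn := hR.normal
  by_cases hfin : IsOfFinOrder (ψ γ)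
  · obtain ⟨m, hm, hm1⟩ := isOfFinOrder_iff_pow_eq_one.1 hfin
    rw [← map_pow, hker] at hm1
    exact ⟨R, le_rfl, hR, m, hm, hm1⟩
  obtain ⟨x, ⟨j, hj⟩, hx, -, hN⟩ := ost hQ (ψ γ) hfin
  obtain ⟨N0, hN0⟩ := hN ∅ Set.finite_empty
  set N := 9 * (2 * N0 + 1) with hNdef
  have S := hN0 N (by omega) ⟨9 * N0 + 4, by omega⟩
  set M := Subgroup.normalClosure ({x ^ N} : Set Q) with hM
  have hMn : M.Normal := Subgroup.normalClosure_normal
  obtain ⟨X, hX⟩ := hψs x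
  have hRK : R ≤ K0 := R_le h hRn hR.inf
  have hkerK : ∀ g, ψ g = 1 → g ∈ K0 := by
    intro g hg
    obtain ⟨v, hv, hvr⟩ := (hker g).1 hg
    have : g = v * (v⁻¹ * g) := by group
    rw [this]
    exact K0.mul_mem (h.VK hv) (hRK hvr)
  have hψV : ∀ v ∈ V, ψ v = 1 := by
    intro v hv
    rw [hker]
    exact ⟨v, hv, by rw [inv_mul_cancel]; exact R.one_mem⟩
  have hψR : ∀ r ∈ R, ψ r = 1 := by
    intro r hr
    rw [hker]
    exact ⟨1, V.one_mem, by rwa [inv_one, one_mul]⟩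
  have hXK : X ∉ K0 := by
    intro hXK
    apply hγ
    have h1 : ψ (X ^ (-j) * γ) = 1 := by
      rw [map_mul, map_zpow, hX, ← hj, ← zpow_add]
      simp
    have h2 := hkerK _ h1
    have h3 : γ = X ^ j * (X ^ (-j) * γ) := by rw [zpow_neg]; group
    rw [h3]
    exact K0.mul_mem (K0.zpow_mem hXK j) h2
  obtain ⟨v, hv, hv1, hXv⟩ := h.fix X hXK
  -- the relator
  set r0 := X ^ N * v⁻¹ with hr0
  set π := QuotientGroup.mk' R with hπ
  have hRker : R ≤ ψ.ker := fun r hr => (MonoidHom.mem_ker).2 (hψR r hr)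
  set φ : G0 ⧸ R →* Q := QuotientGroup.lift R ψ hRker with hφ
  have hφπ : ∀ g, φ (π g) = ψ g := fun g => rfl
  have hφs : Function.Surjective φ := by
    intro q
    obtain ⟨g, hg⟩ := hψs q
    exact ⟨π g, by rw [hφπ, hg]⟩
  have hφr : φ (π r0) = x ^ N := by
    rw [hφπ, hr0, map_mul, map_pow, hX, map_inv, hψV v hv, inv_one, mul_one]
  have hXN : ∀ u ∈ V, X ^ N * u = u * X ^ N := by
    intro u hu
    have : Commute (X ^ 3) u := h.cube X hXK u hu
    have h2 := this.pow_left (3 * (2 * N0 + 1))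
    rw [← pow_mul] at h2
    have e : 3 * (3 * (2 * N0 + 1)) = N := by omega
    rw [e] at h2
    exact h2
  have hcomm : ∀ g, φ g ∈ Subgroup.zpowers x → g * π r0 = π r0 * g := by
    intro g hg
    obtain ⟨g, rfl⟩ := QuotientGroup.mk'_surjective R g
    obtain ⟨k, hk⟩ := hg
    have hk' : x ^ k = ψ g := hk
    have h1 : ψ (X ^ (-k) * g) = 1 := by
      rw [map_mul, map_zpow, hX, ← hk', ← zpow_add]
      simp
    obtain ⟨u, hu, hur⟩ := (hker _).1 h1
    have h2 : π g = π (X ^ k * u) := by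
      have e : g = X ^ k * u * (u⁻¹ * (X ^ (-k) * g)) := by rw [zpow_neg]; group
      conv_lhs => rw [e]
      rw [map_mul]
      have : π (u⁻¹ * (X ^ (-k) * g)) = 1 := (QuotientGroup.eq_one_iff _).2 hur
      rw [this, mul_one]
    show π g * π r0 = π r0 * π g
    rw [h2, ← map_mul, ← map_mul]
    congr 1
    have c1 : Commute (X ^ k) r0 := by
      rw [hr0]
      apply Commute.mul_right
      · exact ((Commute.refl X).pow_right N).zpow_left k
      · exact ((show Commute X v from hXv).inv_right).zpow_left k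
    have c2 : Commute u r0 := by
      rw [hr0]
      apply Commute.mul_right
      · exact (hXN u hu).symm
      · exact (show Commute u v from h.ab u hu v hv).inv_right
    exact (c1.mul_left c2).eq
  have hext := S.ext (G0 ⧸ R) φ hφs (π r0) hφr hcomm
  set MR := Subgroup.normalClosure ({π r0} : Set (G0 ⧸ R)) with hMR
  have hMRn : MR.Normal := Subgroup.normalClosure_normal
  have hmap : MR.map φ = M := by
    rw [hMR, hM, Subgroup.map_normalClosure _ _ hφs, Set.image_singleton, hφr]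
  set R' := MR.comap π with hR'
  have hRR' : R ≤ R' := by
    intro r hr
    show π r ∈ MR
    have : π r = 1 := (QuotientGroup.eq_one_iff _).2 hr
    rw [this]
    exact MR.one_mem
  have hR'n : R'.Normal := hMRn.comap π
  have key1 : ∀ g ∈ R', ψ g = 1 → g ∈ R := by
    intro g hg hg1
    have := hext (π g) hg (by rw [hφπ]; exact hg1)
    exact (QuotientGroup.eq_one_iff _).1 this
  have key2 : ∀ g ∈ R', ψ g ∈ M := by
    intro g hg
    rw [← hmap]
    exact ⟨π g, hg, rfl⟩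
  have key3 : ∀ n ∈ M, ∃ g ∈ R', ψ g = n := by
    intro n hn
    rw [← hmap] at hn
    obtain ⟨q, hq, hqn⟩ := hn
    obtain ⟨g, rfl⟩ := QuotientGroup.mk'_surjective R q
    exact ⟨g, hq, hqn⟩
  have hinf' : ∀ g ∈ R', g ∈ V → g = 1 := by
    intro g hg hgV
    exact hR.inf g (key1 g hg (hψV g hgV)) hgV
  have hR'K : R' ≤ K0 := R_le h hR'n hinf'
  have hker' : ∀ g, ψ g ∈ M ↔ ∃ v ∈ V, v⁻¹ * g ∈ R' := by
    intro g
    constructor
    · intro hg
      obtain ⟨n, hn, hng⟩ := key3 _ hg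
      have h1 : ψ (g * n⁻¹) = 1 := by rw [map_mul, map_inv, hng, mul_inv_cancel]
      obtain ⟨u, hu, hur⟩ := (hker _).1 h1
      refine ⟨u, hu, ?_⟩
      have : u⁻¹ * g = (u⁻¹ * (g * n⁻¹)) * n := by group
      rw [this]
      exact R'.mul_mem (hRR' hur) hn
    · rintro ⟨u, hu, hur⟩
      have h1 := key2 _ hur
      rw [map_mul, map_inv, hψV u hu, inv_one, one_mul] at h1
      exact h1
  -- powers modulo R'
  have hpowmod : ∀ (g n : G0), n ∈ R' → ∀ k : ℕ, ∀ w ∈ V, w⁻¹ * (g * n) ^ k ∈ R' →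
      w⁻¹ * g ^ k ∈ R' := by
    intro g n hn k w _ hwk
    have h1 : ((g * n : G0) : G0 ⧸ R') = (g : G0 ⧸ R') := mk_mul_mem R' g hn
    have h2 : ((w⁻¹ * (g * n) ^ k : G0) : G0 ⧸ R') = ((w⁻¹ * g ^ k : G0) : G0 ⧸ R') := by
      rw [QuotientGroup.mk_mul, QuotientGroup.mk_pow, h1, QuotientGroup.mk_mul,
        QuotientGroup.mk_pow]
    rw [← QuotientGroup.eq_one_iff, ← h2, QuotientGroup.eq_one_iff]
    exact hwk
  have hrv : v⁻¹ * X ^ N ∈ R' := by
    have h1 : r0 ∈ R' := Subgroup.subset_normalClosure rfl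
    have h2 := hR'n.conj_mem _ h1 v⁻¹
    rw [hr0, inv_inv] at h2
    have e : v⁻¹ * (X ^ N * v⁻¹) * v = v⁻¹ * X ^ N := by group
    rwa [e] at h2
  refine ⟨R', hRR', ⟨hR'n, hinf', ?_, ?_⟩, N, by omega, ?_⟩
  · refine ⟨Q ⧸ M, inferInstance, (QuotientGroup.mk' M).comp ψ, ?_, S.nice, ?_⟩
    · exact (QuotientGroup.mk'_surjective M).comp hψs
    · intro g
      rw [← hker' g]
      exact QuotientGroup.eq_one_iff _
  · intro g hg m hm hgm
    have h1 : ψ g ^ m ∈ M := by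
      rw [← map_pow]
      exact (hker' _).2 hgm
    obtain ⟨n, hn, hcase⟩ := S.tor (ψ g) m hm h1
    obtain ⟨n', hn', hψn'⟩ := key3 n hn
    have hg1K : g * n' ∉ K0 := by
      intro hmem
      apply hg
      have : g = g * n' * n'⁻¹ := by group
      rw [this]
      exact K0.mul_mem hmem (K0.inv_mem (hR'K hn'))
    rcases hcase with hcase | ⟨c, hc⟩
    · rw [← hψn', ← map_mul] at hcase
      obtain ⟨k, hk, hk1⟩ := isOfFinOrder_iff_pow_eq_one.1 hcase
      rw [← map_pow, hker] at hk1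
      obtain ⟨k', w, hw, hw1, hwk⟩ := hR.pw _ hg1K k hk hk1
      exact ⟨k', w, hw, hw1, hpowmod g n' hn' k' w hw (hRR' hwk)⟩
    · obtain ⟨c', rfl⟩ := hψs c
      obtain ⟨k, hk⟩ := hc
      have hk' : x ^ k = (ψ c')⁻¹ * (ψ g * n) * ψ c' := hk
      have h2 : ψ (X ^ (-k) * (c'⁻¹ * (g * n') * c')) = 1 := by
        rw [map_mul, map_zpow, hX, map_mul, map_mul, map_inv, map_mul, hψn', ← hk', ← zpow_add]
        simp
      obtain ⟨u, hu, hur⟩ := (hker _).1 h2
      set ρ := u⁻¹ * (X ^ (-k) * (c'⁻¹ * (g * n') * c')) with hρ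
      have h3 : c'⁻¹ * (g * n') * c' = X ^ k * u * ρ := by
        rw [hρ, zpow_neg]
        group
      have h4 : X ^ k * u ∉ K0 := by
        intro hmem
        apply hg1K
        have h5 : c'⁻¹ * (g * n') * c' ∈ K0 := by
          rw [h3]
          exact K0.mul_mem hmem (hRK hur)
        have h6 := h.K_normal.conj_mem _ h5 c'
        rwa [show c' * (c'⁻¹ * (g * n') * c') * c'⁻¹ = g * n' by group] at h6
      have h3k : ¬ (3 : ℤ) ∣ k := by
        rintro ⟨l, hl⟩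
        apply h4
        refine K0.mul_mem ?_ (h.VK hu)
        rw [hl, zpow_mul]
        exact K0.zpow_mem (by exact_mod_cast h.K3 X) _
      have hXkK : X ^ k ∉ K0 := zcube h h3k hXK
      have h9 : (X ^ k * u) ^ N = (X ^ N) ^ k := by
        rw [hNdef, pow_mul, ninth h hXkK hu, ← pow_mul, ← zpow_natCast, ← zpow_mul, mul_comm k,
          zpow_mul, zpow_natCast]
      -- v ^ k
      have hvk : v ^ k ∈ V := V.zpow_mem hv k
      have hvk1 : v ^ k ≠ 1 := by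
        intro hvk1
        apply hv1
        have h5 := h.exp v hv
        have h7 : (Int.gcd 3 k : ℤ) = 1 := by
          have : Int.gcd 3 k = 1 := by
            rw [← Int.isCoprime_iff_gcd_eq_one]
            exact (Int.prime_three.coprime_iff_not_dvd).2 h3k
          exact_mod_cast this
        have h8 := Int.gcd_eq_gcd_ab 3 k
        rw [h7] at h8
        have h10 : v ^ (1 : ℤ) = 1 := by
          rw [h8, zpow_add, zpow_mul, zpow_mul, hvk1, one_zpow, mul_one]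
          have : v ^ (3 : ℤ) = 1 := by exact_mod_cast h5
          rw [this, one_zpow]
        rwa [zpow_one] at h10
      have hmod : (v ^ k)⁻¹ * (X ^ N) ^ k ∈ R' := by
        have h5 : ((X ^ N : G0) : G0 ⧸ R') = (v : G0 ⧸ R') := by
          apply Eq.symm
          exact QuotientGroup.eq.2 hrv
        rw [← QuotientGroup.eq_one_iff, QuotientGroup.mk_mul, QuotientGroup.mk_inv,
          QuotientGroup.mk_zpow, QuotientGroup.mk_zpow, h5, inv_mul_cancel]
      have hmod2 : (v ^ k)⁻¹ * (X ^ k * u * ρ) ^ N ∈ R' := by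
        have h1 : ((X ^ k * u * ρ : G0) : G0 ⧸ R') = ((X ^ k * u : G0) : G0 ⧸ R') :=
          mk_mul_mem R' _ (hRR' hur)
        have h2 : (((v ^ k)⁻¹ * (X ^ k * u * ρ) ^ N : G0) : G0 ⧸ R') =
            (((v ^ k)⁻¹ * (X ^ k * u) ^ N : G0) : G0 ⧸ R') := by
          rw [QuotientGroup.mk_mul, QuotientGroup.mk_pow, h1, ← QuotientGroup.mk_pow,
            ← QuotientGroup.mk_mul]
        rw [← QuotientGroup.eq_one_iff, h2, QuotientGroup.eq_one_iff, h9]
        exact hmod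
      rw [← h3, conj_pow'] at hmod2
      refine ⟨N, c' * v ^ k * c'⁻¹, h.V_normal.conj_mem _ hvk c', ?_, ?_⟩
      · intro hcv
        apply hvk1
        have : v ^ k = c'⁻¹ * (c' * v ^ k * c'⁻¹) * c' := by group
        rw [this, hcv]
        group
      · apply hpowmod g n' hn' N _ (h.V_normal.conj_mem _ hvk c')
        have h5 := hR'n.conj_mem _ hmod2 c'
        have e : c' * ((v ^ k)⁻¹ * (c'⁻¹ * (g * n') ^ N * c')) * c'⁻¹ =
            (c' * v ^ k * c'⁻¹)⁻¹ * (g * n') ^ N := by group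
        rwa [e] at h5
  · rw [← hker' (γ ^ N), map_pow, ← hj]
    have h1 : x ^ N ∈ M := Subgroup.subset_normalClosure rfl
    have h2 : (x ^ j) ^ N = (x ^ N) ^ j := by
      rw [← zpow_natCast, ← zpow_mul, mul_comm, zpow_mul, zpow_natCast]
    rw [h2]
    exact M.zpow_mem h1 j

end Pool.Agent.TH64.AppA
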