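import Pool.Agent.TH64.AppA
import Pool.Agent.TH64.FreeBase

/-!
# The group for S02870 (helper64)
-/

set_option autoImplicit false

namespace Pool.Agent.TH64.AppA

/-- the limit of the construction -/
theorem limit {G0 : Type} [Group G0] [Countable G0] {V K0 : Subgroup G0} (h : Hyps V K0)
    (h0 : Inv V K0 ⊥) : ∃ R : Subgroup G0, R.Normal ∧ (∀ g ∈ R, g ∈ V → g = 1) ∧
      ∀ g, g ∉ K0 → ∃ k : ℕ, ∃ v ∈ V, v ≠ 1 ∧ v⁻¹ * g ^ k ∈ R := by
  classical
  obtain ⟨e, he⟩ := exists_surjective_nat G0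
  have hstep : ∀ (n : ℕ) (R : {R : Subgroup G0 // Inv V K0 R}), ∃ R' : {R : Subgroup G0 // Inv V K0 R},
      R.1 ≤ R'.1 ∧ (e n ∉ K0 → ∃ m : ℕ, 1 ≤ m ∧ ∃ v ∈ V, v⁻¹ * (e n) ^ m ∈ R'.1) := by
    intro n R
    by_cases hn : e n ∈ K0
    · exact ⟨R, le_rfl, fun h => absurd hn h⟩
    · obtain ⟨R', h1, h2, h3⟩ := step h R.2 hn
      exact ⟨⟨R', h2⟩, h1, fun _ => h3⟩
  choose nxt hn1 hn2 using hstep
  let R : ℕ → {R : Subgroup G0 // Inv V K0 R} := fun n => Nat.rec ⟨⊥, h0⟩ (fun n R => nxt n R) n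
  have hR : ∀ n, R (n + 1) = nxt n (R n) := fun n => rfl
  have hmono : Monotone (fun n => (R n).1) := by
    apply monotone_nat_of_le_succ
    intro n
    show (R n).1 ≤ (R (n + 1)).1
    rw [hR]
    exact hn1 n (R n)
  have hmem : ∀ g, g ∈ (⨆ n, (R n).1) ↔ ∃ n, g ∈ (R n).1 := by
    intro g
    exact Subgroup.mem_iSup_of_directed hmono.directed_le
  refine ⟨⨆ n, (R n).1, ?_, ?_, ?_⟩
  · constructor
    intro n hn g
    rw [hmem] at hn ⊢
    obtain ⟨i, hi⟩ := hn
    exact ⟨i, (R i).2.normal.conj_mem n hi g⟩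
  · intro g hg hgV
    obtain ⟨i, hi⟩ := (hmem g).1 hg
    exact (R i).2.inf g hi hgV
  · intro g hg
    obtain ⟨n, rfl⟩ := he g
    obtain ⟨m, hm, hv⟩ := hn2 n (R n) hg
    rw [← hR] at hv
    obtain ⟨k, v, hvV, hv1, hvk⟩ := (R (n + 1)).2.pw (e n) hg m hm hv
    exact ⟨k, v, hvV, hv1, (hmem _).2 ⟨n + 1, hvk⟩⟩

/-- the module -/
abbrev E : Type := ZMod 3 → ZMod 3

/-- the cyclic shift -/
def rotE : E ≃+ E where
  toFun v i := v (i - 1)
  invFun v i := v (i + 1)
  left_inv v := by funext i; simp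
  right_inv v := by funext i; simp
  map_add' v w := rfl

/-- the signs -/
def sgn (i : ZMod 3) : ZMod 3 := if i = 0 then 1 else -1

theorem sgn_sq : ∀ i, sgn i * sgn i = 1 := by decide

/-- the diagonal automorphism -/
def diagE : E ≃+ E where
  toFun v i := sgn i * v i
  invFun v i := sgn i * v i
  left_inv v := by
    funext i
    show sgn i * (sgn i * v i) = v i
    rw [← mul_assoc, sgn_sq, one_mul]
  right_inv v := by
    funext i
    show sgn i * (sgn i * v i) = v i
    rw [← mul_assoc, sgn_sq, one_mul]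
  map_add' v w := by
    funext i
    show sgn i * (v i + w i) = sgn i * v i + sgn i * w i
    ring

/-- the action of the free group -/
def act : FreeGroup (Fin 2) →* MulAut (Multiplicative E) :=
  FreeGroup.lift (fun i => if i = 0 then AddEquiv.toMultiplicative rotE
    else AddEquiv.toMultiplicative diagE)

/-- the permutation part -/
def cc : FreeGroup (Fin 2) →* Multiplicative (ZMod 3) :=
  FreeGroup.lift (fun i => if i = 0 then Multiplicative.ofAdd 1 else 1)

/-- monomial automorphisms -/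
def Mono (α : MulAut (Multiplicative E)) (c : ZMod 3) : Prop :=
  ∃ s : ZMod 3 → ZMod 3, s 0 * s 1 * s 2 = 1 ∧
    ∀ (v : E) (i : ZMod 3), (α (Multiplicative.ofAdd v)).toAdd i = s i * v (i - c)

theorem prod_perm (s : ZMod 3 → ZMod 3) (c : ZMod 3) :
    s (0 - c) * s (1 - c) * s (2 - c) = s 0 * s 1 * s 2 := by
  have : ∀ c : ZMod 3, c = 0 ∨ c = 1 ∨ c = 2 := by decide
  rcases this c with rfl | rfl | rfl
  · simp
  · rw [show (0 : ZMod 3) - 1 = 2 by decide, show (1 : ZMod 3) - 1 = 0 by decide,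
      show (2 : ZMod 3) - 1 = 1 by decide]
    ring
  · rw [show (0 : ZMod 3) - 2 = 1 by decide, show (1 : ZMod 3) - 2 = 2 by decide,
      show (2 : ZMod 3) - 2 = 0 by decide]
    ring

theorem mono_mul {α β : MulAut (Multiplicative E)} {c d : ZMod 3} (hα : Mono α c)
    (hβ : Mono β d) : Mono (α * β) (c + d) := by
  obtain ⟨s, hs, hα⟩ := hα
  obtain ⟨t, ht, hβ⟩ := hβ
  refine ⟨fun i => s i * t (i - c), ?_, ?_⟩
  · have := prod_perm t c
    calc s 0 * t (0 - c) * (s 1 * t (1 - c)) * (s 2 * t (2 - c))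
        = (s 0 * s 1 * s 2) * (t (0 - c) * t (1 - c) * t (2 - c)) := by ring
      _ = 1 := by rw [this, hs, ht, one_mul]
  · intro v i
    have h1 := hα ((β (Multiplicative.ofAdd v)).toAdd) i
    rw [ofAdd_toAdd] at h1
    rw [MulAut.mul_apply, h1, hβ, mul_assoc]
    congr 3
    ring

theorem mono_one : Mono 1 0 := ⟨fun _ => 1, by simp, fun v i => by simp⟩

theorem mono_inv {α : MulAut (Multiplicative E)} {c : ZMod 3} (hα : Mono α c) :
    Mono α⁻¹ (-c) := by
  obtain ⟨s, hs, hα⟩ := hα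
  have hne : ∀ i, s i * s i = 1 := by
    have : ∀ a b c : ZMod 3, a * b * c = 1 → a * a = 1 ∧ b * b = 1 ∧ c * c = 1 := by decide
    obtain ⟨h0, h1, h2⟩ := this _ _ _ hs
    have h3 : ∀ c : ZMod 3, c = 0 ∨ c = 1 ∨ c = 2 := by decide
    intro i
    rcases h3 i with rfl | rfl | rfl <;> assumption
  refine ⟨fun i => s (i + c), ?_, ?_⟩
  · have := prod_perm s (-c)
    simp only [sub_neg_eq_add] at this
    rw [this, hs]
  · intro v i
    have h1 := hα ((α⁻¹ (Multiplicative.ofAdd v)).toAdd) (i + c)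
    rw [ofAdd_toAdd, ← MulAut.mul_apply, mul_inv_cancel, MulAut.one_apply, toAdd_ofAdd,
      add_sub_cancel_right] at h1
    show _ = s (i + c) * v (i - -c)
    rw [sub_neg_eq_add, h1, ← mul_assoc, hne, one_mul]

theorem mono_act (g : FreeGroup (Fin 2)) : Mono (act g) (cc g).toAdd := by
  induction g using FreeGroup.induction_on with
  | C1 => simpa using mono_one
  | of i =>
    fin_cases i
    · refine ⟨fun _ => 1, by simp, ?_⟩
      intro v i
      simp [act, cc, rotE]
    · refine ⟨sgn, by decide, ?_⟩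
      intro v i
      simp [act, cc, diagE]
  | inv_of i h =>
    rw [map_inv, map_inv, toAdd_inv]
    exact mono_inv h
  | mul g h hg hh =>
    rw [map_mul, map_mul, toAdd_mul]
    exact mono_mul hg hh

end Pool.Agent.TH64.AppA
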