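import Pool.Agent.TH64.Proj

/-!
# Coordinates on the lines `u⟨x⟩` (helper64)
-/

set_option autoImplicit false

namespace Pool.Agent.TH64

variable {G : Type*} [Group G]

/-- an axis `x`: `κ g` is the coordinate of a point of `⟨x⟩` nearest to `g` -/
structure PAx (H : Hyp G) (x : G) where
  κ : G → ℤ
  c : ℕ
  shift : ∀ (j : ℤ) (g : G), κ (x ^ j * g) = κ g + j
  near : ∀ (g : G) (k : ℤ), H.d g (x ^ κ g) ≤ H.d g (x ^ k)
  proj : ∀ g h : G, (c : ℤ) < |κ g - κ h| →
    H.d g (x ^ κ g) + H.len (x ^ (κ g - κ h)) + H.d h (x ^ κ h) ≤ H.d g h + c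
  sup : ∀ a b : ℕ, H.len (x ^ a) + H.len (x ^ b) ≤ H.len (x ^ (a + b)) + c
  lin : ∀ a : ℕ, a ≤ c * H.len (x ^ a) + c

/-- an axis such that the other translates have bounded overlap with it -/
structure Ax (H : Hyp G) (x : G) extends PAx H x where
  ov : ∀ u : G, u ∉ Subgroup.zpowers x → ∀ i j : ℤ, |κ (u * x ^ i) - κ (u * x ^ j)| ≤ c

namespace PAx

variable {H : Hyp G} {x : G} (A : PAx H x)

/-- the signed displacement from `p` to `q` along the line `u⟨x⟩` -/
def s (u p q : G) : ℤ := A.κ (u⁻¹ * q) - A.κ (u⁻¹ * p)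

/-- a big constant -/
def th : ℕ := A.c * A.c + 3 * A.c + 1

theorem s_self (u p : G) : A.s u p p = 0 := by simp [s]

theorem s_add (u p q w : G) : A.s u p q + A.s u q w = A.s u p w := by unfold s; ring

theorem s_symm (u p q : G) : A.s u q p = - A.s u p q := by unfold s; ring

theorem s_mul (g u p q : G) : A.s (g * u) (g * p) (g * q) = A.s u p q := by
  unfold s
  rw [show (g * u)⁻¹ * (g * q) = u⁻¹ * q by group, show (g * u)⁻¹ * (g * p) = u⁻¹ * p by group]

theorem s_base (u : G) (j : ℤ) (p q : G) : A.s (u * x ^ j) p q = A.s u p q := by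
  unfold s
  have e : ∀ q, (u * x ^ j)⁻¹ * q = x ^ (-j) * (u⁻¹ * q) := by intro q; rw [zpow_neg]; group
  rw [e, e, A.shift, A.shift]
  ring

theorem s_rot (u p : G) (k : ℤ) : A.s u p (u * x ^ k * u⁻¹ * p) = k := by
  unfold s
  rw [show u⁻¹ * (u * x ^ k * u⁻¹ * p) = x ^ k * (u⁻¹ * p) by group, A.shift]
  ring

theorem len_zpow (k : ℤ) : H.len (x ^ k) = H.len (x ^ k.natAbs) := by
  rcases Int.natAbs_eq k with h | h
  · conv_lhs => rw [h, zpow_natCast]
  · conv_lhs => rw [h, zpow_neg, zpow_natCast, H.len_inv]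

theorem lin_z (k : ℤ) : k.natAbs ≤ A.c * H.len (x ^ k) + A.c := by
  rw [len_zpow (H := H)]
  exact A.lin _

theorem natAbs_abs (k : ℤ) : |k| = (k.natAbs : ℤ) := Int.abs_eq_natAbs k

/-- distance of two points of the axis -/
theorem d_axis (i j : ℤ) : H.d (x ^ i) (x ^ j) = H.len (x ^ (j - i)) := by
  unfold Hyp.d
  rw [← zpow_neg, ← zpow_add]
  congr 2
  ring

/-- coordinates are coarsely Lipschitz -/
theorem lip (g h : G) : |A.κ g - A.κ h| ≤ A.c * (H.d g h : ℤ) + A.c * A.c + A.c := by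
  by_cases hc : (A.c : ℤ) < |A.κ g - A.κ h|
  · have h1 := A.proj g h hc
    have h2 := A.lin_z (A.κ g - A.κ h)
    have h3 : H.len (x ^ (A.κ g - A.κ h)) ≤ H.d g h + A.c := by omega
    have h4 : A.c * H.len (x ^ (A.κ g - A.κ h)) ≤ A.c * (H.d g h + A.c) := Nat.mul_le_mul_left _ h3
    rw [natAbs_abs]
    have h5 : (A.κ g - A.κ h).natAbs ≤ A.c * H.d g h + A.c * A.c + A.c := by
      rw [Nat.mul_add] at h4
      omega
    exact_mod_cast h5
  · push Not at hc
    have h1 : (0 : ℤ) ≤ A.c * (H.d g h : ℤ) := by positivity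
    have h2 : (0 : ℤ) ≤ (A.c : ℤ) * A.c := by positivity
    omega

theorem lip_s (u p q : G) : |A.s u p q| ≤ A.c * (H.d p q : ℤ) + A.c * A.c + A.c := by
  have := A.lip (u⁻¹ * q) (u⁻¹ * p)
  rw [H.d_mul, H.d_comm] at this
  exact this

theorem s_adj {p q : G} (h : H.d p q ≤ 1) (u : G) : |A.s u p q| ≤ A.th := by
  have h1 := A.lip_s u p q
  have h2 : (A.c : ℤ) * (H.d p q : ℤ) ≤ A.c * 1 :=
    mul_le_mul_of_nonneg_left (by exact_mod_cast h) (by positivity)
  have h3 : (A.th : ℤ) = A.c * A.c + 3 * A.c + 1 := by unfold th; push_cast; ring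
  rw [h3]
  omega

/-- the projection inequality -/
theorem proj_s (u p q : G) (h : (A.c : ℤ) < |A.s u p q|) :
    H.d p (u * x ^ A.κ (u⁻¹ * p)) + H.len (x ^ A.s u p q) + H.d q (u * x ^ A.κ (u⁻¹ * q))
      ≤ H.d p q + A.c := by
  have h1 := A.proj (u⁻¹ * q) (u⁻¹ * p) h
  have e : ∀ q, H.d (u⁻¹ * q) (x ^ A.κ (u⁻¹ * q)) = H.d q (u * x ^ A.κ (u⁻¹ * q)) := by
    intro q
    rw [← H.d_mul u]
    congr 1
    group
  rw [e, e, H.d_mul, H.d_comm q p] at h1
  unfold s
  omega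

theorem len_le_of (k : ℤ) (m : ℕ) (h : H.len (x ^ k) ≤ m) : |k| ≤ A.c * m + A.c := by
  have h1 := A.lin_z k
  have h2 : A.c * H.len (x ^ k) ≤ A.c * m := Nat.mul_le_mul_left _ h
  rw [natAbs_abs]
  have : k.natAbs ≤ A.c * m + A.c := by omega
  exact_mod_cast this

/-- the coordinate of a point of the line `u⟨x⟩` -/
theorem κ_one : A.κ 1 = 0 := by
  have h1 := A.near 1 0
  rw [zpow_zero, H.d_self] at h1
  have h2 : H.d 1 (x ^ A.κ 1) = 0 := by omega
  have h3 := H.eq_of_d h2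
  by_contra hne
  have hfin : ∀ m : ℕ, x ^ ((A.κ 1).natAbs * m) = 1 := by
    intro m
    have : x ^ ((A.κ 1).natAbs) = 1 := by
      rcases Int.natAbs_eq (A.κ 1) with h | h
      · rw [h, zpow_natCast] at h3
        exact h3.symm
      · rw [h, zpow_neg, zpow_natCast] at h3
        exact inv_eq_one.1 h3.symm
    rw [pow_mul, this, one_pow]
  have h4 := A.lin ((A.κ 1).natAbs * (A.c + 1))
  rw [hfin, H.len_one] at h4
  have h5 : 1 ≤ (A.κ 1).natAbs := Int.natAbs_pos.2 hne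
  nlinarith

theorem κ_zpow (j : ℤ) : A.κ (x ^ j) = j := by
  have := A.shift j 1
  rw [mul_one, A.κ_one] at this
  omega

include A in
/-- `x` has infinite order -/
theorem zpow_inj {i j : ℤ} (h : x ^ i = x ^ j) : i = j := by
  rw [← A.κ_zpow i, ← A.κ_zpow j, h]

/-- coarse monotonicity of coordinates between two points -/
theorem mono (u : G) {a b p : G} {e : ℕ} (h : H.d a p + H.d p b ≤ H.d a b + e) :
    |A.s u a p| + |A.s u p b| ≤ |A.s u a b| + 2 * (A.c * (3 * A.c + e) + A.c) := by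
  have hadd := A.s_add u a p b
  have hc0 : (0 : ℤ) ≤ A.c * (3 * A.c + e) := by positivity
  by_cases h1 : (A.c : ℤ) < |A.s u a p|
  swap
  · push Not at h1
    have := abs_sub_abs_le_abs_sub (A.s u p b) (- A.s u a p)
    rw [abs_neg, sub_neg_eq_add, add_comm (A.s u p b), hadd] at this
    omega
  by_cases h2 : (A.c : ℤ) < |A.s u p b|
  swap
  · push Not at h2
    have := abs_sub_abs_le_abs_sub (A.s u a p) (- A.s u p b)
    rw [abs_neg, sub_neg_eq_add, hadd] at this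
    omega
  have p1 := A.proj_s u a p h1
  have p2 := A.proj_s u p b h2
  have p3 : H.d a b ≤ H.d a (u * x ^ A.κ (u⁻¹ * a)) + H.len (x ^ A.s u a b)
      + H.d b (u * x ^ A.κ (u⁻¹ * b)) := by
    have t1 := H.d_tri a (u * x ^ A.κ (u⁻¹ * a)) b
    have t2 := H.d_tri (u * x ^ A.κ (u⁻¹ * a)) (u * x ^ A.κ (u⁻¹ * b)) b
    rw [H.d_mul, d_axis, H.d_comm (u * x ^ A.κ (u⁻¹ * b)) b] at t2
    unfold s
    omega
  rw [len_zpow] at p1 p2 p3
  have l1 := A.lin (A.s u a p).natAbs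
  have l2 := A.lin (A.s u p b).natAbs
  have s1 := A.sup (A.s u a b).natAbs (A.s u p b).natAbs
  have s2 := A.sup (A.s u a b).natAbs (A.s u a p).natAbs
  rw [natAbs_abs, natAbs_abs, natAbs_abs]
  have key : ∀ v : ℕ, v ≤ A.c * H.len (x ^ v) + A.c → H.len (x ^ v) ≤ 3 * A.c + e →
      (v : ℤ) ≤ A.c * (3 * A.c + e) + A.c := by
    intro v hv1 hv2
    have : A.c * H.len (x ^ v) ≤ A.c * (3 * A.c + e) := Nat.mul_le_mul_left _ hv2
    exact_mod_cast hv1.trans (by omega)
  by_cases h3 : (A.s u a b).natAbs + (A.s u p b).natAbs = (A.s u a p).natAbs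
  · rw [h3] at s1
    have := key _ l2 (by omega)
    omega
  by_cases h4 : (A.s u a b).natAbs + (A.s u a p).natAbs = (A.s u p b).natAbs
  · rw [h4] at s2
    have := key _ l1 (by omega)
    omega
  omega

end PAx

namespace Ax

variable {H : Hyp G} {x : G} (A : Ax H x)

/-- distinct lines have bounded overlap -/
theorem ov_s {u w : G} (h : u⁻¹ * w ∉ Subgroup.zpowers x) (i j : ℤ) :
    |A.s u (w * x ^ i) (w * x ^ j)| ≤ A.c := by
  unfold PAx.s
  have := A.ov (u⁻¹ * w) h j i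
  rwa [mul_assoc, mul_assoc] at this

/-- the Behrstock inequality -/
theorem beh {u w : G} (h : u⁻¹ * w ∉ Subgroup.zpowers x) (v : G) :
    (∀ i : ℤ, |A.s u v (w * x ^ i)| ≤ A.th) ∨ (∀ i : ℤ, |A.s w v (u * x ^ i)| ≤ A.th) := by
  by_contra hcon
  push Not at hcon
  obtain ⟨⟨i, hi⟩, j, hj⟩ := hcon
  have hth : (A.th : ℤ) = A.c * A.c + 3 * A.c + 1 := by unfold PAx.th; push_cast; ring
  have h' : w⁻¹ * u ∉ Subgroup.zpowers x := by
    intro h2
    apply h
    have := (Subgroup.zpowers x).inv_mem h2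
    rwa [mul_inv_rev, inv_inv] at this
  set p := u * x ^ A.κ (u⁻¹ * v) with hp
  set q := w * x ^ A.κ (w⁻¹ * v) with hq
  have hcc : (0 : ℤ) ≤ (A.c : ℤ) * A.c := by positivity
  have h1 : (A.c : ℤ) * A.c + A.c + A.c < |A.s u v q| := by
    have e := A.s_add u v (w * x ^ i) q
    have e2 := A.ov_s h i (A.κ (w⁻¹ * v))
    rw [← hq] at e2
    rw [← e]
    have := abs_sub_abs_le_abs_sub (A.s u v (w * x ^ i)) (-A.s u (w * x ^ i) q)
    rw [abs_neg, sub_neg_eq_add] at this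
    omega
  have h2 : (A.c : ℤ) * A.c + A.c + A.c < |A.s w v p| := by
    have e := A.s_add w v (u * x ^ j) p
    have e2 := A.ov_s h' j (A.κ (u⁻¹ * v))
    rw [← hp] at e2
    rw [← e]
    have := abs_sub_abs_le_abs_sub (A.s w v (u * x ^ j)) (-A.s w (u * x ^ j) p)
    rw [abs_neg, sub_neg_eq_add] at this
    omega
  have h3 := A.proj_s u v q (by omega)
  have h4 := A.proj_s w v p (by omega)
  rw [← hp] at h3
  rw [← hq] at h4
  have h5 : H.len (x ^ A.s u v q) ≤ A.c ∨ H.len (x ^ A.s w v p) ≤ A.c := by omega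
  rcases h5 with h5 | h5
  · have := A.len_le_of _ _ h5
    omega
  · have := A.len_le_of _ _ h5
    omega

end Ax

end Pool.Agent.TH64
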