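import Mathlib

/-!
# Discrete hyperbolic length functions on groups (helper64)

`Hyp G` is an integer valued word type length on a group which is geodesic, has finite balls and
satisfies the four point inequality with error `D`.
-/

set_option autoImplicit false

namespace Pool.Agent.TH64

/-- a hyperbolic geodesic length with finite balls -/
structure Hyp (G : Type*) [Group G] where
  len : G → ℕ
  D : ℕ
  len_one : len 1 = 0
  eq_one : ∀ g, len g = 0 → g = 1
  len_inv : ∀ g, len g⁻¹ = len g
  len_mul : ∀ g h, len (g * h) ≤ len g + len h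
  fp' : ∀ u v w z : G, len (u⁻¹ * v) + len (w⁻¹ * z) ≤
      max (len (u⁻¹ * w) + len (v⁻¹ * z)) (len (u⁻¹ * z) + len (v⁻¹ * w)) + D
  step : ∀ g k, k ≤ len g → ∃ h, len h = k ∧ len (h⁻¹ * g) + k = len g
  fin : ∀ n, {g | len g ≤ n}.Finite

variable {G : Type*} [Group G]

namespace Hyp

variable (H : Hyp G)

/-- the left invariant distance -/
def d (u v : G) : ℕ := H.len (u⁻¹ * v)

theorem d_self (u : G) : H.d u u = 0 := by simp [d, H.len_one]

theorem d_comm (u v : G) : H.d u v = H.d v u := by
  unfold d
  rw [← H.len_inv]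
  congr 1
  group

theorem d_tri (u v w : G) : H.d u w ≤ H.d u v + H.d v w := by
  unfold d
  have := H.len_mul (u⁻¹ * v) (v⁻¹ * w)
  rwa [show u⁻¹ * v * (v⁻¹ * w) = u⁻¹ * w by group] at this

theorem d_mul (g u v : G) : H.d (g * u) (g * v) = H.d u v := by
  unfold d
  congr 1
  group

theorem eq_of_d {u v : G} (h : H.d u v = 0) : u = v := by
  have := H.eq_one _ h
  exact inv_mul_eq_one.1 this

theorem d_one (g : G) : H.d 1 g = H.len g := by simp [d]

theorem d_one' (g : G) : H.d g 1 = H.len g := by rw [d_comm, d_one]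

/-- the four point inequality -/
theorem fp (u v w z : G) : H.d u v + H.d w z ≤
    max (H.d u w + H.d v z) (H.d u z + H.d v w) + H.D := H.fp' u v w z

/-- points on geodesics -/
theorem between (u v : G) (k : ℕ) (hk : k ≤ H.d u v) :
    ∃ p, H.d u p = k ∧ H.d p v + k = H.d u v := by
  obtain ⟨h, h1, h2⟩ := H.step (u⁻¹ * v) k hk
  refine ⟨u * h, ?_, ?_⟩
  · unfold d
    rw [show u⁻¹ * (u * h) = h by group, h1]
  · unfold d
    rw [show (u * h)⁻¹ * v = h⁻¹ * (u⁻¹ * v) by group, h2]

/-- a discrete geodesic of length `n` -/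
def Geo (σ : ℕ → G) (n : ℕ) : Prop := ∀ i j, i ≤ j → j ≤ n → H.d (σ i) (σ j) = j - i

theorem exists_geo (u v : G) : ∃ σ : ℕ → G, σ 0 = u ∧ σ (H.d u v) = v ∧ H.Geo σ (H.d u v) := by
  have key : ∀ n, ∀ u v : G, H.d u v = n → ∃ σ : ℕ → G, σ 0 = u ∧ σ n = v ∧ H.Geo σ n := by
    intro n
    induction n with
    | zero =>
      intro u v h
      have huv := H.eq_of_d h
      subst huv
      refine ⟨fun _ => u, rfl, rfl, ?_⟩
      intro i j _ hj
      simp only [H.d_self]
      omega
    | succ n ih =>
      intro u v h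
      obtain ⟨p, hp1, hp2⟩ := H.between u v n (by omega)
      obtain ⟨σ, h0, hn, hg⟩ := ih u p hp1
      refine ⟨fun i => if i ≤ n then σ i else v, by simp [h0], by simp, ?_⟩
      intro i j hij hj
      by_cases hjn : j ≤ n
      · have hin : i ≤ n := hij.trans hjn
        simp only [if_pos hjn, if_pos hin]
        exact hg i j hij hjn
      · have hjn' : j = n + 1 := by omega
        subst hjn'
        simp only [if_neg hjn]
        by_cases hin : i ≤ n
        · simp only [if_pos hin]
          have h1 := hg i n hin le_rfl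
          have h2 := hg 0 i (Nat.zero_le _) hin
          rw [h0] at h2
          rw [hn] at h1
          have h3 := H.d_tri (σ i) p v
          have h4 := H.d_tri u (σ i) v
          omega
        · have : i = n + 1 := by omega
          subst this
          simp only [if_neg hin, H.d_self]
          omega
  exact key _ u v rfl

/-- a point which is almost between `p` and `q` is close to the corresponding point of a
geodesic -/
theorem almost {p q P A : G} {e : ℕ} (h : H.d p P + H.d P q ≤ H.d p q + e)
    (hA : H.d p A + H.d A q = H.d p q)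
    (h1 : H.d p A = H.d p P ∨ (H.d p q ≤ H.d p P ∧ A = q)) : H.d A P ≤ e + H.D := by
  have h2 := H.fp A P p q
  rw [H.d_comm A p, H.d_comm P p] at h2
  rcases h1 with h1 | ⟨h1, rfl⟩
  · omega
  · rw [H.d_self] at h2 hA
    omega

/-- fellow travelling near a common endpoint -/
theorem fellow {u v w q q' : G} {s : ℕ} (hq : H.d u q = s) (hqv : H.d q v + s = H.d u v)
    (hq' : H.d u q' = s) (hqw : H.d q' w + s = H.d u w)
    (hs : 2 * s + H.d v w ≤ H.d u v + H.d u w) : H.d q q' ≤ 2 * H.D := by
  have h1 := H.fp q w u v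
  have h2 := H.fp q q' u w
  rw [H.d_comm q u, H.d_comm w u, H.d_comm w v] at h1
  rw [H.d_comm q u, H.d_comm q' u] at h2
  omega

/-- slim triangles -/
theorem slim {u v p : G} (z : G) (h : H.d u p + H.d p v = H.d u v) :
    (∃ q, H.d u q + H.d q z = H.d u z ∧ H.d p q ≤ 2 * H.D) ∨
    (∃ q, H.d v q + H.d q z = H.d v z ∧ H.d p q ≤ 2 * H.D) := by
  have h1 := H.fp z p u v
  rw [H.d_comm z u, H.d_comm z v, H.d_comm p u] at h1
  have aux : ∀ u v : G, H.d u p + H.d p v = H.d u v → H.d z p + H.d u p ≤ H.d u z + H.D →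
      ∃ q, H.d u q + H.d q z = H.d u z ∧ H.d p q ≤ 2 * H.D := by
    intro u v h h1
    by_cases hk : H.d u p ≤ H.d u z
    · obtain ⟨q, hq1, hq2⟩ := H.between u z (H.d u p) hk
      refine ⟨q, by omega, ?_⟩
      have h2 := H.fp p q u z
      rw [H.d_comm p u, H.d_comm q u] at h2
      rw [H.d_comm z p] at h1
      omega
    · refine ⟨z, by rw [H.d_self]; omega, ?_⟩
      rw [H.d_comm]
      omega
  by_cases hc : H.d z p + H.d u v ≤ H.d u z + H.d p v + H.D
  · left
    exact aux u v h (by omega)
  · right
    refine aux v u ?_ ?_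
    · rw [H.d_comm v p, H.d_comm p u, H.d_comm v u]
      omega
    · rw [H.d_comm v p]
      rw [H.d_comm p v] at *
      omega

end Hyp

end Pool.Agent.TH64
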