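import Pool.Agent.TH64.Fill
import Pool.Agent.TH64.Lox

/-!
# Every element of infinite order has an axis (helper64)
-/

set_option autoImplicit false

namespace Pool.Agent.TH64

variable {G : Type*} [Group G]

namespace Hyp

variable (H : Hyp G)

theorem len_zpow_abs (x : G) (k : ℤ) : H.len (x ^ k) = H.len (x ^ k.natAbs) := by
  rcases Int.natAbs_eq k with h | h
  · conv_lhs => rw [h, zpow_natCast]
  · conv_lhs => rw [h, zpow_neg, zpow_natCast, H.len_inv]

theorem d_zpow (x : G) (i j : ℤ) : H.d (x ^ i) (x ^ j) = H.len (x ^ (j - i)) := by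
  unfold Hyp.d
  rw [← zpow_neg, ← zpow_add]
  congr 2
  ring

theorem len_pow_le (x : G) (k : ℕ) : H.len (x ^ k) ≤ k * H.len x := by
  induction k with
  | zero => simp [H.len_one]
  | succ k ih =>
    rw [pow_succ]
    have := H.len_mul (x ^ k) x
    rw [Nat.succ_mul]
    omega

/-- points almost between two powers are near a power -/
theorem near_powers {x : G} {C : ℕ}
    (hsup : ∀ a b : ℕ, H.len (x ^ a) + H.len (x ^ b) ≤ H.len (x ^ (a + b)) + C)
    (i j : ℤ) (p : G) (e : ℕ) (h : H.d (x ^ i) p + H.d p (x ^ j) ≤ H.d (x ^ i) (x ^ j) + e) :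
    ∃ l : ℤ, H.d p (x ^ l) ≤ C + e + H.len x + H.D := by
  -- wlog i ≤ j
  have aux : ∀ i j : ℤ, i ≤ j → H.d (x ^ i) p + H.d p (x ^ j) ≤ H.d (x ^ i) (x ^ j) + e →
      ∃ l : ℤ, H.d p (x ^ l) ≤ C + e + H.len x + H.D := by
    intro i j hij h
    by_cases hbig : H.d (x ^ i) (x ^ j) ≤ H.d (x ^ i) p
    · exact ⟨j, by omega⟩
    push Not at hbig
    obtain ⟨n, hn⟩ := Int.le.dest hij
    have hex : ∃ l : ℕ, H.d (x ^ i) p ≤ H.d (x ^ i) (x ^ (i + l)) :=
      ⟨n, by rw [hn]; omega⟩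
    classical
    set l := Nat.find hex with hl
    have hl1 := Nat.find_spec hex
    rw [← hl] at hl1
    have hln : l ≤ n := Nat.find_min' hex (by rw [hn]; omega)
    have hl2 : H.d (x ^ i) (x ^ (i + (l : ℤ))) ≤ H.d (x ^ i) p + H.len x := by
      rcases Nat.eq_zero_or_pos l with h0 | h0
      · rw [h0]
        simp only [Nat.cast_zero, add_zero, H.d_self]
        omega
      · have h1 := Nat.find_min hex (m := l - 1) (by omega)
        push Not at h1
        have h2 := H.d_tri (x ^ i) (x ^ (i + ((l - 1 : ℕ) : ℤ))) (x ^ (i + (l : ℤ)))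
        rw [H.d_zpow x (i + ((l - 1 : ℕ) : ℤ))] at h2
        have e1 : i + (l : ℤ) - (i + ((l - 1 : ℕ) : ℤ)) = 1 := by omega
        rw [e1, zpow_one] at h2
        omega
    have h3 := hsup l (n - l)
    rw [Nat.add_sub_cancel' hln] at h3
    have e2 : H.d (x ^ i) (x ^ (i + (l : ℤ))) = H.len (x ^ l) := by
      rw [H.d_zpow, show i + (l : ℤ) - i = l by ring, zpow_natCast]
    have e3 : H.d (x ^ (i + (l : ℤ))) (x ^ j) = H.len (x ^ (n - l)) := by
      rw [H.d_zpow, show j - (i + (l : ℤ)) = ((n - l : ℕ) : ℤ) by omega, zpow_natCast]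
    have e4 : H.d (x ^ i) (x ^ j) = H.len (x ^ n) := by
      rw [H.d_zpow, show j - i = (n : ℤ) by omega, zpow_natCast]
    have h4 := H.fp p (x ^ (i + (l : ℤ))) (x ^ i) (x ^ j)
    rw [H.d_comm (x ^ (i + (l : ℤ))) (x ^ i), H.d_comm p (x ^ i)] at h4
    refine ⟨i + l, ?_⟩
    omega
  rcases le_total i j with hij | hij
  · exact aux i j hij h
  · refine aux j i hij ?_
    rw [H.d_comm (x ^ j) p, H.d_comm p (x ^ i), H.d_comm (x ^ j) (x ^ i)]
    omega

/-- the powers of an infinite order element are coarsely superadditive and grow linearly -/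
theorem exists_consts (helly : ∀ (x : G), (∀ k : ℤ, x ^ k = 1 → k = 0) → ∀ C : ℕ,
      ∃ m : ℕ, 1 ≤ m ∧ ∀ p : G, C ≤ H.len (p⁻¹ * x ^ m * p))
    (x : G) (hx : ∀ k : ℤ, x ^ k = 1 → k = 0) : ∃ C : ℕ,
    (∀ a b : ℕ, H.len (x ^ a) + H.len (x ^ b) ≤ H.len (x ^ (a + b)) + C) ∧
    (∀ a : ℕ, a ≤ C * H.len (x ^ a) + C) := by
  obtain ⟨m, hm1, hm⟩ := helly x hx (4 * H.D + 2)
  -- minimal conjugate
  obtain ⟨p, hp⟩ : ∃ p : G, ∀ q : G, H.len (p⁻¹ * x ^ m * p) ≤ H.len (q⁻¹ * x ^ m * q) := by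
    classical
    have hne : ∃ n, ∃ p : G, H.len (p⁻¹ * x ^ m * p) = n := ⟨_, 1, rfl⟩
    obtain ⟨p, hp⟩ := Nat.find_spec hne
    exact ⟨p, fun q => by rw [hp]; exact Nat.find_min' hne ⟨q, rfl⟩⟩
  set z := p⁻¹ * x ^ m * p with hz
  have hmin : ∀ q, H.len z ≤ H.len (q⁻¹ * z * q) := by
    intro q
    have := hp (p * q)
    rwa [show (p * q)⁻¹ * x ^ m * (p * q) = q⁻¹ * z * q by rw [hz]; group] at this
  have hbig : 4 * H.D + 2 ≤ H.len z := hm p
  have hsup := H.lox_sup_min hmin hbig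
  have hlin := H.lox_lin_min hmin hbig
  have hzk : ∀ k : ℕ, x ^ (m * k) = p * z ^ k * p⁻¹ := by
    intro k
    rw [hz, pow_mul]
    have : p⁻¹ * x ^ m * p = p⁻¹ * x ^ m * p⁻¹⁻¹ := by rw [inv_inv]
    rw [this, conj_pow]
    group
  set K := 2 * H.len p + m * H.len x with hK
  have hr : ∀ r, r < m → H.len (x ^ r) ≤ m * H.len x := by
    intro r hr
    exact (H.len_pow_le x r).trans (Nat.mul_le_mul_right _ hr.le)
  have hup : ∀ a : ℕ, H.len (x ^ a) ≤ H.len (z ^ (a / m)) + K := by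
    intro a
    have h1 : x ^ a = x ^ (m * (a / m)) * x ^ (a % m) := by
      rw [← pow_add, Nat.div_add_mod]
    rw [h1, hzk]
    have h2 := H.len_mul (p * z ^ (a / m) * p⁻¹) (x ^ (a % m))
    have h3 := H.len_mul (p * z ^ (a / m)) p⁻¹
    have h4 := H.len_mul p (z ^ (a / m))
    rw [H.len_inv] at h3
    have h5 := hr _ (Nat.mod_lt a (by omega))
    omega
  have hlow : ∀ a : ℕ, H.len (z ^ (a / m)) ≤ H.len (x ^ a) + K := by
    intro a
    have h1 : x ^ a = x ^ (m * (a / m)) * x ^ (a % m) := by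
      rw [← pow_add, Nat.div_add_mod]
    have h2 : z ^ (a / m) = p⁻¹ * (x ^ a * (x ^ (a % m))⁻¹) * p := by
      rw [h1, mul_inv_cancel_right, hzk]
      group
    rw [h2]
    have h3 := H.len_mul (p⁻¹ * (x ^ a * (x ^ (a % m))⁻¹)) p
    have h4 := H.len_mul p⁻¹ (x ^ a * (x ^ (a % m))⁻¹)
    have h6 := H.len_mul (x ^ a) (x ^ (a % m))⁻¹
    rw [H.len_inv] at h4 h6
    have h5 := hr _ (Nat.mod_lt a (by omega))
    omega
  refine ⟨3 * K + H.len z + 4 * H.D + 1 + m * (K + 1), ?_, ?_⟩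
  · intro a b
    have h1 := hup a
    have h2 := hup b
    have h3 := hsup (a / m) (b / m)
    have h4 := hlow (a + b)
    have h5 : H.len (z ^ (a / m + b / m)) ≤ H.len (z ^ ((a + b) / m)) + H.len z := by
      have h6 : (a + b) / m = a / m + b / m ∨ (a + b) / m = a / m + b / m + 1 := by
        have e1 := Nat.div_add_mod a m
        have e2 := Nat.div_add_mod b m
        have m1 := Nat.mod_lt a (show 0 < m by omega)
        have m2 := Nat.mod_lt b (show 0 < m by omega)
        have e3 : a + b = m * (a / m + b / m) + (a % m + b % m) := by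
          rw [Nat.mul_add]
          omega
        by_cases hc : a % m + b % m < m
        · left
          rw [e3, Nat.mul_add_div (by omega), Nat.div_eq_of_lt hc, add_zero]
        · right
          rw [e3, Nat.mul_add_div (by omega)]
          congr 1
          rw [Nat.div_eq_iff (by omega)]
          omega
      rcases h6 with h6 | h6
      · rw [h6]
        omega
      · rw [h6]
        have : z ^ (a / m + b / m) = z ^ (a / m + b / m + 1) * z⁻¹ := by
          rw [pow_succ, mul_inv_cancel_right]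
        have h7 := H.len_mul (z ^ (a / m + b / m + 1)) z⁻¹
        rw [H.len_inv] at h7
        rw [this]
        exact h7
    omega
  · intro a
    have h1 := hlin (a / m)
    have h2 := hlow a
    have h3 : a ≤ m * (a / m) + m := by
      have e1 := Nat.div_add_mod a m
      have m1 := Nat.mod_lt a (show 0 < m by omega)
      omega
    have h4 : m * (a / m) ≤ m * (H.len (x ^ a) + K) := Nat.mul_le_mul_left _ (h1.trans h2)
    have h5 : m * (H.len (x ^ a) + K) = m * H.len (x ^ a) + m * K := Nat.mul_add _ _ _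
    have h6 : m * (K + 1) = m * K + m := by ring
    have h7 : m * H.len (x ^ a) ≤
        (3 * K + H.len z + 4 * H.D + 1 + m * (K + 1)) * H.len (x ^ a) := by
      apply Nat.mul_le_mul_right
      nlinarith
    omega

end Hyp

/-- existence of axes -/
theorem exists_pax (H : Hyp G) (helly : ∀ (x : G), (∀ k : ℤ, x ^ k = 1 → k = 0) → ∀ C : ℕ,
      ∃ m : ℕ, 1 ≤ m ∧ ∀ p : G, C ≤ H.len (p⁻¹ * x ^ m * p))
    (x : G) (hx : ∀ k : ℤ, x ^ k = 1 → k = 0) : Nonempty (PAx H x) := by
  classical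
  obtain ⟨C, hsup, hlin⟩ := H.exists_consts helly x hx
  have hinj : ∀ i j : ℤ, x ^ i = x ^ j → i = j := by
    intro i j h
    have : x ^ (i - j) = 1 := by rw [zpow_sub, h, mul_inv_cancel]
    have := hx _ this
    omega
  set Z : Set G := (Subgroup.zpowers x : Set G) with hZ
  have hQC : H.QC Z (C + H.len x + H.D) := by
    rintro a ⟨i, rfl⟩ b ⟨j, rfl⟩ p hp
    obtain ⟨l, hl⟩ := H.near_powers hsup i j p 0 (by simpa using hp.le)
    exact ⟨x ^ l, ⟨l, rfl⟩, by omega⟩
  -- exponents of nearest points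
  have hk0 : ∀ g : G, ∃ k : ℤ, ∀ j : ℤ, H.d g (x ^ k) ≤ H.d g (x ^ j) := by
    intro g
    obtain ⟨p, ⟨k, rfl⟩, hp⟩ := H.exists_near (A := Z) ⟨1, Subgroup.one_mem _⟩ g
    exact ⟨k, fun j => hp _ ⟨j, rfl⟩⟩
  choose κ0 hκ0 using hk0
  let rep : G → G := fun g => Quotient.out (Quotient.mk (QuotientGroup.rightRel
    (Subgroup.zpowers x)) g)
  have hrep : ∀ g, ∃ j : ℤ, x ^ j = g * (rep g)⁻¹ := by
    intro g
    have h1 : (QuotientGroup.rightRel (Subgroup.zpowers x)) (rep g) g := by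
      apply Quotient.exact
      exact Quotient.out_eq _
    rw [QuotientGroup.rightRel_apply] at h1
    obtain ⟨j, hj⟩ := h1
    exact ⟨j, hj⟩
  choose jj hjj using hrep
  have hrep_shift : ∀ (j : ℤ) (g : G), rep (x ^ j * g) = rep g := by
    intro j g
    show Quotient.out _ = Quotient.out _
    congr 1
    apply Quotient.sound
    show (QuotientGroup.rightRel (Subgroup.zpowers x)) _ _
    rw [QuotientGroup.rightRel_apply]
    refine ⟨-j, ?_⟩
    simp only [zpow_neg, mul_inv_rev]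
    group
  let κ : G → ℤ := fun g => jj g + κ0 (rep g)
  have hshift : ∀ (j : ℤ) (g : G), κ (x ^ j * g) = κ g + j := by
    intro j g
    have h1 : jj (x ^ j * g) = jj g + j := by
      apply hinj
      rw [hjj, hrep_shift, mul_assoc, ← hjj g, ← zpow_add]
      congr 1
      ring
    show jj (x ^ j * g) + κ0 (rep (x ^ j * g)) = jj g + κ0 (rep g) + j
    rw [h1, hrep_shift]
    ring
  have hnear : ∀ (g : G) (k : ℤ), H.d g (x ^ κ g) ≤ H.d g (x ^ k) := by
    intro g k
    have h1 : g = x ^ jj g * rep g := by rw [hjj, inv_mul_cancel_right]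
    have h2 := hκ0 (rep g) (k - jj g)
    have h3 : ∀ i : ℤ, H.d g (x ^ (jj g + i)) = H.d (rep g) (x ^ i) := by
      intro i
      rw [zpow_add]
      calc H.d g (x ^ jj g * x ^ i) = H.d (x ^ jj g * rep g) (x ^ jj g * x ^ i) := by rw [← h1]
        _ = _ := H.d_mul _ _ _
    have h4 := h3 (κ0 (rep g))
    have h5 := h3 (k - jj g)
    rw [show jj g + (k - jj g) = k by ring] at h5
    show H.d g (x ^ (jj g + κ0 (rep g))) ≤ _
    rw [h4, h5]
    exact h2
  have hN : ∀ g, H.Near Z g (x ^ κ g) := by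
    intro g
    refine ⟨⟨_, rfl⟩, ?_⟩
    rintro a ⟨k, rfl⟩
    exact hnear g k
  set k1 := C + H.len x + H.D with hk1
  set c := C * (2 * k1 + 3 * H.D + 1) + 2 * C + (4 * k1 + 5 * H.D + 2) with hc
  refine ⟨⟨κ, c, hshift, hnear, ?_, ?_, ?_⟩⟩
  · intro g h hgh
    have h1 : 2 * k1 + 3 * H.D + 1 < H.d (x ^ κ g) (x ^ κ h) := by
      rw [H.d_zpow, H.len_zpow_abs]
      by_contra hcon
      push Not at hcon
      have h2 := hlin (κ h - κ g).natAbs
      have h3 : C * H.len (x ^ (κ h - κ g).natAbs) ≤ C * (2 * k1 + 3 * H.D + 1) :=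
        Nat.mul_le_mul_left _ hcon
      have h4 : |κ g - κ h| = ((κ h - κ g).natAbs : ℤ) := by
        rw [← Int.abs_eq_natAbs, abs_sub_comm]
      rw [h4] at hgh
      have h5 : (c : ℤ) < ((κ h - κ g).natAbs : ℤ) := hgh
      have h6 : c < (κ h - κ g).natAbs := by exact_mod_cast h5
      omega
    have h2 := H.near_near hQC (hN g) (hN h) h1
    have h3 : H.d (x ^ κ g) (x ^ κ h) = H.len (x ^ (κ g - κ h)) := by
      rw [H.d_comm, H.d_zpow]
    rw [h3, H.d_comm (x ^ κ h) h] at h2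
    omega
  · intro a b
    have := hsup a b
    omega
  · intro a
    have h1 := hlin a
    have h2 : C * H.len (x ^ a) ≤ c * H.len (x ^ a) := by
      apply Nat.mul_le_mul_right
      omega
    omega

end Pool.Agent.TH64
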