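import Pool.Agent.TH64.Axis

/-!
# Projections to the lines `u⟨x⟩` and the data of a large power quotient (helper64)
-/

set_option autoImplicit false

namespace Pool.Agent.TH64

variable {G : Type*} [Group G]

namespace PAx

variable {H : Hyp G} {x : G} (A : PAx H x)

/-- the projection of `p` to the line `u⟨x⟩` -/
def pr (u p : G) : G := u * x ^ A.κ (u⁻¹ * p)

theorem pr_mem (u p : G) : u⁻¹ * A.pr u p ∈ Subgroup.zpowers x := by
  unfold pr
  rw [inv_mul_cancel_left]
  exact ⟨_, rfl⟩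

/-- the projection is a nearest point of the line -/
theorem pr_near (u p : G) (k : ℤ) : H.d p (A.pr u p) ≤ H.d p (u * x ^ k) := by
  unfold pr
  have := A.near (u⁻¹ * p) k
  rw [← H.d_mul u, ← H.d_mul u (u⁻¹ * p), mul_inv_cancel_left] at this
  exact this

theorem pr_mul (g u p : G) : A.pr (g * u) (g * p) = g * A.pr u p := by
  unfold pr
  rw [show (g * u)⁻¹ * (g * p) = u⁻¹ * p by group, mul_assoc]

theorem pr_base (u : G) (j : ℤ) (p : G) : A.pr (u * x ^ j) p = A.pr u p := by
  unfold pr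
  rw [show (u * x ^ j)⁻¹ * p = x ^ (-j) * (u⁻¹ * p) by rw [zpow_neg]; group, A.shift,
    mul_assoc, ← zpow_add]
  congr 2
  ring

theorem d_pr_pr (u p q : G) : H.d (A.pr u p) (A.pr u q) = H.len (x ^ A.s u p q) := by
  unfold pr s
  rw [H.d_mul, d_axis]

/-- the projection has the same coordinate -/
theorem s_pr_right (u p q : G) : A.s u p (A.pr u q) = A.s u p q := by
  unfold s pr
  rw [inv_mul_cancel_left, A.κ_zpow]

theorem s_pr_left (u p q : G) : A.s u (A.pr u p) q = A.s u p q := by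
  unfold s pr
  rw [inv_mul_cancel_left, A.κ_zpow]

theorem s_line (u p : G) (k : ℤ) : A.s u p (u * x ^ k) = k - A.κ (u⁻¹ * p) := by
  unfold s
  rw [inv_mul_cancel_left, A.κ_zpow]

/-- the projection inequality, in terms of `pr` -/
theorem proj_pr (u p q : G) (h : (A.c : ℤ) < |A.s u p q|) :
    H.d p (A.pr u p) + H.len (x ^ A.s u p q) + H.d q (A.pr u q) ≤ H.d p q + A.c :=
  A.proj_s u p q h

/-- the trivial upper bound -/
theorem d_le_pr (u p q : G) :
    H.d p q ≤ H.d p (A.pr u p) + H.len (x ^ A.s u p q) + H.d q (A.pr u q) := by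
  have t1 := H.d_tri p (A.pr u p) q
  have t2 := H.d_tri (A.pr u p) (A.pr u q) q
  rw [A.d_pr_pr, H.d_comm (A.pr u q) q] at t2
  omega

/-- the rotation by `k` around the line `u⟨x⟩` -/
def rt (x u : G) (k : ℤ) : G := u * x ^ k * u⁻¹

theorem rt_mul_pr (u p : G) (k : ℤ) : A.pr u (rt x u k * p) = rt x u k * A.pr u p := by
  unfold pr rt
  rw [show u⁻¹ * (u * x ^ k * u⁻¹ * p) = x ^ k * (u⁻¹ * p) by group, A.shift, zpow_add,
    show u * x ^ k * u⁻¹ * (u * x ^ A.κ (u⁻¹ * p)) = u * (x ^ k * x ^ A.κ (u⁻¹ * p)) by group,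
    ← zpow_add, ← zpow_add, add_comm]

theorem s_rt_right (u p q : G) (k : ℤ) : A.s u p (rt x u k * q) = A.s u p q + k := by
  unfold s rt
  rw [show u⁻¹ * (u * x ^ k * u⁻¹ * q) = x ^ k * (u⁻¹ * q) by group, A.shift]
  ring

theorem s_rt_left (u p q : G) (k : ℤ) : A.s u (rt x u k * p) q = A.s u p q - k := by
  unfold s rt
  rw [show u⁻¹ * (u * x ^ k * u⁻¹ * p) = x ^ k * (u⁻¹ * p) by group, A.shift]
  ring

/-- rotations preserve the distance to the line -/
theorem d_rt_pr (u p : G) (k : ℤ) : H.d (rt x u k * p) (A.pr u (rt x u k * p)) =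
    H.d p (A.pr u p) := by
  rw [A.rt_mul_pr, H.d_mul]

/-- points of the line between the projections of `p` and `q` are almost between `p` and `q` -/
theorem line_between (u p q : G) (h : (A.c : ℤ) < |A.s u p q|) (k : ℤ)
    (hk : |A.s u p (u * x ^ k)| + |A.s u (u * x ^ k) q| = |A.s u p q|) :
    H.d p (u * x ^ k) + H.d (u * x ^ k) q ≤ H.d p q + 2 * A.c := by
  have h1 := A.proj_pr u p q h
  have e : A.pr u (u * x ^ k) = u * x ^ k := by
    unfold pr
    rw [inv_mul_cancel_left, A.κ_zpow]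
  have h2 := A.d_le_pr u p (u * x ^ k)
  have h3 := A.d_le_pr u (u * x ^ k) q
  rw [e, H.d_self] at h2 h3
  have h4 := A.sup (A.s u p (u * x ^ k)).natAbs (A.s u (u * x ^ k) q).natAbs
  have e2 : (A.s u p (u * x ^ k)).natAbs + (A.s u (u * x ^ k) q).natAbs =
      (A.s u p q).natAbs := by
    rw [natAbs_abs, natAbs_abs, natAbs_abs] at hk
    exact_mod_cast hk
  rw [e2] at h4
  rw [len_zpow] at h1 h2 h3
  omega

/-- the projection of `p` is almost between `p` and `q` -/
theorem pr_between (u p q : G) (h : (A.c : ℤ) < |A.s u p q|) :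
    H.d p (A.pr u p) + H.d (A.pr u p) q ≤ H.d p q + A.c := by
  have h1 := A.proj_pr u p q h
  have t2 := H.d_tri (A.pr u p) (A.pr u q) q
  rw [A.d_pr_pr, H.d_comm (A.pr u q) q] at t2
  omega

theorem pr_between' (u p q : G) (h : (A.c : ℤ) < |A.s u p q|) :
    H.d p (A.pr u q) + H.d (A.pr u q) q ≤ H.d p q + A.c := by
  have h1 := A.proj_pr u p q h
  have t1 := H.d_tri p (A.pr u p) (A.pr u q)
  rw [A.d_pr_pr] at t1
  rw [H.d_comm q (A.pr u q)] at h1
  omega

/-- lengths of powers are coarsely monotone -/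
theorem len_mono {i j : ℤ} (h : |i| ≤ |j|) : H.len (x ^ i) ≤ H.len (x ^ j) + A.c := by
  rw [len_zpow i, len_zpow j]
  rw [natAbs_abs, natAbs_abs] at h
  have h' : i.natAbs ≤ j.natAbs := by exact_mod_cast h
  have := A.sup i.natAbs (j.natAbs - i.natAbs)
  rw [Nat.add_sub_cancel' h'] at this
  omega

/-- coarse superadditivity, for integers of the same sign -/
theorem sup_z {i j k : ℤ} (h : |i| + |j| = |k|) :
    H.len (x ^ i) + H.len (x ^ j) ≤ H.len (x ^ k) + A.c := by
  rw [len_zpow i, len_zpow j, len_zpow k]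
  rw [natAbs_abs, natAbs_abs, natAbs_abs] at h
  have h' : i.natAbs + j.natAbs = k.natAbs := by exact_mod_cast h
  rw [← h']
  exact A.sup _ _

theorem sub_z (i j : ℤ) : H.len (x ^ (i + j)) ≤ H.len (x ^ i) + H.len (x ^ j) := by
  rw [zpow_add]
  exact H.len_mul _ _

/-- large exponents have large length -/
theorem len_ge {i : ℤ} {m : ℕ} (h : (A.c : ℤ) * m + A.c < |i|) : m < H.len (x ^ i) := by
  by_contra hcon
  push Not at hcon
  have := A.len_le_of i m hcon
  omega

end PAx

/-- the data of a large power quotient: `M` contains the `N`-th powers of the conjugates of `x` and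
satisfies the Greendlinger property -/
structure Fill {H : Hyp G} {x : G} (A : Ax H x) (N : ℕ) (M : Subgroup G) : Prop where
  normal : M.Normal
  rot : ∀ (u : G) (k : ℤ), PAx.rt x u (N * k) ∈ M
  gr : ∀ n ∈ M, n ≠ 1 → ∀ p : G, ∃ u : G, (N : ℤ) ≤ |A.s u p (n * p)| + 12 * A.th

end Pool.Agent.TH64
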