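import Pool.Agent.TH64.Fill
import Pool.Agent.TH64.Wind

/-!
# The Greendlinger property of large power quotients (helper64)
-/

set_option autoImplicit false

namespace Pool.Agent.TH64

open Relation

variable {G : Type*} [Group G]

namespace GrAux

variable {G' : Type*} [Group G'] (φ : G' →* G)

/-- the action on points -/
@[reducible] def actV : MulAction G' G := MulAction.compHom G φ

/-- the action on lines -/
@[reducible] def actL (K : Subgroup G) : MulAction G' (G ⧸ K) := MulAction.compHom (G ⧸ K) φ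

end GrAux

/-- `s` only depends on the line -/
theorem PAx.s_congr {H : Hyp G} {x : G} (A : PAx H x) {u w : G}
    (h : (u : G ⧸ Subgroup.zpowers x) = w) (p q : G) : A.s u p q = A.s w p q := by
  obtain ⟨j, hj⟩ := QuotientGroup.eq.1 h
  have : w = u * x ^ j := by
    have h2 : u⁻¹ * w = x ^ j := hj.symm
    rw [← h2, mul_inv_cancel_left]
  rw [this, A.s_base]

theorem Hyp.conn (H : Hyp G) (u v : G) : ReflTransGen (fun a b => H.d a b ≤ 1) u v := by
  have key : ∀ n, ∀ u v : G, H.d u v = n → ReflTransGen (fun a b => H.d a b ≤ 1) u v := by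
    intro n
    induction n with
    | zero =>
      intro u v h
      rw [H.eq_of_d h]
    | succ n ih =>
      intro u v h
      obtain ⟨p, hp1, hp2⟩ := H.between u v n (by omega)
      exact (ih u p hp1).tail (by show H.d p v ≤ 1; omega)
  exact key _ u v rfl

section

variable {G' : Type*} [Group G'] (φ : G' →* G) (hφ : Function.Surjective φ)
  {H : Hyp G} {x : G} (A : Ax H x) (N : ℕ) (hN : 40 * A.th + 1 ≤ N)
  (r : G') (hr : φ r = x ^ N) (hc : ∀ g, φ g ∈ Subgroup.zpowers x → g * r = r * g)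

/-- a lift of the representative of a line -/
noncomputable def lft (Y : G ⧸ Subgroup.zpowers x) : G' := (hφ Y.out).choose

theorem lft_spec (Y : G ⧸ Subgroup.zpowers x) : φ (lft φ hφ Y) = Y.out :=
  (hφ Y.out).choose_spec

include hc in
theorem conj_eq (Y : G ⧸ Subgroup.zpowers x) (u : G') (hu : ((φ u : G) : G ⧸ Subgroup.zpowers x)
    = Y) (k : ℤ) : u * r ^ k * u⁻¹ = lft φ hφ Y * r ^ k * (lft φ hφ Y)⁻¹ := by
  have h1 : φ ((lft φ hφ Y)⁻¹ * u) ∈ Subgroup.zpowers x := by
    rw [map_mul, map_inv, lft_spec]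
    have h2 : ((Y.out : G) : G ⧸ Subgroup.zpowers x) = (φ u : G) := by
      rw [hu]
      exact QuotientGroup.out_eq' Y
    exact QuotientGroup.eq.1 h2
  have h2 : Commute ((lft φ hφ Y)⁻¹ * u) (r ^ k) := Commute.zpow_right (hc _ h1) k
  have h3 : u = lft φ hφ Y * ((lft φ hφ Y)⁻¹ * u) := by group
  have h4 : (lft φ hφ Y)⁻¹ * u * r ^ k * ((lft φ hφ Y)⁻¹ * u)⁻¹ = r ^ k := by
    rw [h2.eq, mul_inv_cancel_right]
  calc u * r ^ k * u⁻¹ = lft φ hφ Y * ((lft φ hφ Y)⁻¹ * u * r ^ k * ((lft φ hφ Y)⁻¹ * u)⁻¹)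
        * (lft φ hφ Y)⁻¹ := by group
    _ = _ := by rw [h4]

/-- the projection system of the lines `u⟨x⟩` -/
noncomputable def sys : @Wind.Sys G' G (G ⧸ Subgroup.zpowers x) _ (GrAux.actV φ)
    (GrAux.actL φ _) := by
  letI := GrAux.actV φ
  letI := GrAux.actL φ (Subgroup.zpowers x)
  have smulV : ∀ (g : G') (v : G), g • v = φ g * v := fun _ _ => rfl
  have smulL : ∀ (g : G') (v : G), g • (v : G ⧸ Subgroup.zpowers x) =
    ((φ g * v : G) : G ⧸ Subgroup.zpowers x) := fun _ _ => rfl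
  have outL : ∀ Y : G ⧸ Subgroup.zpowers x, ((Y.out : G) : G ⧸ Subgroup.zpowers x) = Y :=
    fun Y => QuotientGroup.out_eq' Y
  have onL : ∀ (Y : G ⧸ Subgroup.zpowers x) (v : G), (v : G ⧸ Subgroup.zpowers x) = Y →
      ∃ i : ℤ, v = Y.out * x ^ i := by
    intro Y v hv
    have h2 : ((Y.out : G) : G ⧸ Subgroup.zpowers x) = v := by rw [outL, hv]
    obtain ⟨i, hi⟩ := QuotientGroup.eq.1 h2
    have h3 : x ^ i = (Y.out)⁻¹ * v := hi
    exact ⟨i, by rw [h3, mul_inv_cancel_left]⟩
  refine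
    { adj := fun u v => H.d u v ≤ 1
      on := fun Y v => (v : G ⧸ Subgroup.zpowers x) = Y
      d := fun Y p q => (A.s Y.out p q).natAbs
      rot := fun Y => Subgroup.zpowers (lft φ hφ Y * r * (lft φ hφ Y)⁻¹)
      th := A.th
      T := N
      adj_smul := ?_
      conn := H.conn
      on_smul := ?_
      d_self := ?_
      d_comm := ?_
      d_tri := ?_
      d_smul := ?_
      d_adj := ?_
      line_ne := fun Y => ⟨Y.out, outL Y⟩
      hT := hN
      beh := ?_
      rot_conj := ?_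
      rot_fix := ?_
      rot_big := ?_ }
  · intro g u v h
    rw [smulV, smulV, H.d_mul]
    exact h
  · intro g Y v h
    rw [smulV, ← h, smulL]
  · intro Y u
    rw [A.s_self]
    rfl
  · intro Y u v
    rw [A.s_symm, Int.natAbs_neg]
  · intro Y u v w
    rw [← A.s_add _ u v w]
    exact Int.natAbs_add_le _ _
  · intro g Y u v
    rw [smulV, smulV]
    have h1 : (((g • Y).out : G) : G ⧸ Subgroup.zpowers x) = ((φ g * Y.out : G)) := by
      rw [outL]
      conv_lhs => rw [← outL Y]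
      rw [smulL]
    rw [A.s_congr h1, A.s_mul]
  · intro Y u v h
    have := A.s_adj h Y.out
    rw [PAx.natAbs_abs] at this
    exact_mod_cast this
  · intro Y Z v hYZ
    have h1 : (Y.out)⁻¹ * Z.out ∉ Subgroup.zpowers x := by
      intro h2
      apply hYZ
      have h3 := QuotientGroup.eq.2 h2
      rwa [outL, outL] at h3
    rcases A.beh h1 v with h | h
    · left
      intro w hw
      obtain ⟨i, rfl⟩ := onL Z w hw
      have := h i
      rw [PAx.natAbs_abs] at this
      exact_mod_cast this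
    · right
      intro w hw
      obtain ⟨i, rfl⟩ := onL Y w hw
      have := h i
      rw [PAx.natAbs_abs] at this
      exact_mod_cast this
  · intro g Y ρ hρ
    obtain ⟨k, hk⟩ := hρ
    have h1 : ρ = lft φ hφ Y * r ^ k * (lft φ hφ Y)⁻¹ := by
      rw [← conj_zpow]
      exact hk.symm
    have h2 : ((φ (g * lft φ hφ Y) : G) : G ⧸ Subgroup.zpowers x) = g • Y := by
      rw [map_mul, lft_spec]
      conv_rhs => rw [← outL Y]
      rw [smulL]
    have h3 := conj_eq φ hφ r hc (g • Y) (g * lft φ hφ Y) h2 k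
    refine ⟨k, ?_⟩
    show (lft φ hφ (g • Y) * r * (lft φ hφ (g • Y))⁻¹) ^ k = g * ρ * g⁻¹
    rw [conj_zpow, ← h3, h1]
    group
  · intro Y ρ hρ
    obtain ⟨k, hk⟩ := hρ
    have h1 : ρ = lft φ hφ Y * r ^ k * (lft φ hφ Y)⁻¹ := by
      rw [← conj_zpow]
      exact hk.symm
    conv_lhs => rw [← outL Y]
    rw [smulL, h1, map_mul, map_mul, map_inv, map_zpow, hr, lft_spec, inv_mul_cancel_right]
    conv_rhs => rw [← outL Y]
    apply QuotientGroup.eq.2
    refine ⟨-((N : ℤ) * k), ?_⟩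
    show x ^ (-((N : ℤ) * k)) = _
    rw [zpow_neg, zpow_mul, zpow_natCast]
    group
  · intro Y ρ v hρ hne
    obtain ⟨k, hk⟩ := hρ
    have h1 : ρ = lft φ hφ Y * r ^ k * (lft φ hφ Y)⁻¹ := by
      rw [← conj_zpow]
      exact hk.symm
    have hk0 : k ≠ 0 := by
      rintro rfl
      apply hne
      rw [h1, zpow_zero]
      group
    have h2 : ρ • v = Y.out * x ^ ((N : ℤ) * k) * (Y.out)⁻¹ * v := by
      rw [smulV, h1, map_mul, map_mul, map_inv, map_zpow, hr, lft_spec, zpow_mul, zpow_natCast]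
    show N ≤ (A.s Y.out v (ρ • v)).natAbs
    rw [h2, A.s_rot, Int.natAbs_mul, Int.natAbs_natCast]
    exact Nat.le_mul_of_pos_right _ (Int.natAbs_pos.2 hk0)

include hφ hN hr hc in
/-- **Greendlinger property** -/
theorem gr_main (n : G') (hn : n ∈ Subgroup.normalClosure {r}) (hn1 : n ≠ 1) (p : G) :
    ∃ u : G, (N : ℤ) ≤ |A.s u p (φ n * p)| + 12 * A.th := by
  letI := GrAux.actV φ
  letI := GrAux.actL φ (Subgroup.zpowers x)
  have h1 : n ∈ Subgroup.closure {ρ | ∃ Y, ρ ∈ (sys φ hφ A N hN r hr hc).rot Y} := by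
    unfold Subgroup.normalClosure at hn
    refine (Subgroup.closure_mono ?_) hn
    intro g hg
    rw [Group.mem_conjugatesOfSet_iff] at hg
    obtain ⟨a, ha, hag⟩ := hg
    rw [Set.mem_singleton_iff] at ha
    subst ha
    obtain ⟨c, hcc⟩ := isConj_iff.1 hag
    refine ⟨((φ c : G) : G ⧸ Subgroup.zpowers x), 1, ?_⟩
    show (lft φ hφ _ * a * (lft φ hφ _)⁻¹) ^ (1 : ℤ) = g
    rw [conj_zpow, ← conj_eq φ hφ a hc _ c rfl 1, zpow_one, hcc]
  obtain ⟨Y, hY⟩ := Wind.wind_main (sys φ hφ A N hN r hr hc) p h1 hn1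
  refine ⟨Y.out, ?_⟩
  have h2 : N ≤ (A.s Y.out p (φ n * p)).natAbs + 12 * A.th := hY
  rw [PAx.natAbs_abs]
  exact_mod_cast h2

include hφ hN hr hc in
/-- the relation does not affect the kernel of `φ` -/
theorem gr_ker (n : G') (hn : n ∈ Subgroup.normalClosure {r}) (h : φ n = 1) : n = 1 := by
  by_contra hne
  obtain ⟨u, hu⟩ := gr_main φ hφ A N hN r hr hc n hn hne 1
  rw [h, one_mul, A.s_self, abs_zero] at hu
  omega

end

/-- the normal closure of `x ^ N` -/
theorem fill_normalClosure {H : Hyp G} {x : G} (A : Ax H x) (N : ℕ) (hN : 40 * A.th + 1 ≤ N) :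
    Fill A N (Subgroup.normalClosure {x ^ N}) where
  normal := Subgroup.normalClosure_normal
  rot := by
    intro u k
    unfold PAx.rt
    have h1 : x ^ N ∈ Subgroup.normalClosure ({x ^ N} : Set G) :=
      Subgroup.subset_normalClosure rfl
    have h2 : x ^ ((N : ℤ) * k) ∈ Subgroup.normalClosure ({x ^ N} : Set G) := by
      rw [zpow_mul, zpow_natCast]
      exact Subgroup.zpow_mem _ h1 k
    exact Subgroup.normalClosure_normal.conj_mem _ h2 u
  gr := by
    intro n hn hne p
    exact gr_main (MonoidHom.id G) Function.surjective_id A N hN (x ^ N) rfl (by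
      rintro g ⟨k, hk⟩
      have hk' : x ^ k = g := hk
      rw [← hk']
      exact (Commute.refl x).zpow_left k |>.pow_right N) n hn hne p

end Pool.Agent.TH64
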