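import Pool.Agent.TH64.ExPAx

/-!
# Overlaps of lines with orbits of infinite order elements (helper64)
-/

set_option autoImplicit false

namespace Pool.Agent.TH64

variable {G : Type*} [Group G]

theorem pig {H : Hyp G} {x : G} (A : PAx H x) {z : G} (Pz : PAx H z) :
    ∃ θ : ℕ, ∀ (u : G) (k : ℤ), (θ : ℤ) < |A.s u 1 (z ^ k)| →
      ∃ s : ℕ, 1 ≤ s ∧ ∃ t : ℤ, t ≠ 0 ∧ u * x ^ t * u⁻¹ = z ^ (s : ℤ) := by
  classical
  set ρ := Pz.c + 2 * A.c + H.len z + H.D with hρ
  set B := (H.fin ρ).toFinset with hB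
  refine ⟨B.card + A.c + 1, fun u k hk => ?_⟩
  push_cast at hk
  set a := A.κ (u⁻¹ * 1) with ha
  set b := A.κ (u⁻¹ * z ^ k) with hb
  have hs : A.s u 1 (z ^ k) = b - a := rfl
  rw [hs] at hk
  obtain ⟨ε, hε, hεab⟩ : ∃ ε : ℤ, (ε = 1 ∨ ε = -1) ∧ ε * (b - a) = |b - a| := by
    rcases le_total 0 (b - a) with h | h
    · exact ⟨1, Or.inl rfl, by rw [abs_of_nonneg h]; ring⟩
    · exact ⟨-1, Or.inr rfl, by rw [abs_of_nonpos h]; ring⟩
  -- every point of the line in between is near a power of z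
  have hnear : ∀ i : ℕ, ∃ j : ℤ, i ≤ B.card → H.len ((u * x ^ (a + ε * i))⁻¹ * z ^ j) ≤ ρ := by
    intro i
    by_cases hi : i ≤ B.card
    swap
    · exact ⟨0, fun h => absurd h hi⟩
    have h1 := A.line_between u 1 (z ^ k) (by rw [hs]; omega) (a + ε * i) (by
      rw [A.s_line, ← ha, hs]
      have e1 : A.s u (u * x ^ (a + ε * (i : ℤ))) (z ^ k) = b - (a + ε * i) := by
        unfold PAx.s
        rw [inv_mul_cancel_left, A.κ_zpow]
      rw [e1]
      rcases hε with rfl | rfl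
      · rw [show a + 1 * (i : ℤ) - a = i by ring, abs_of_nonneg (by omega : (0:ℤ) ≤ i),
          abs_of_nonneg (by omega : (0:ℤ) ≤ b - (a + 1 * i))]
        omega
      · rw [show a + -1 * (i : ℤ) - a = - i by ring, abs_neg, abs_of_nonneg (by omega : (0:ℤ) ≤ i),
          abs_of_nonpos (by omega : b - (a + -1 * i) ≤ 0)]
        omega)
    obtain ⟨j, hj⟩ := H.near_powers Pz.sup 0 k (u * x ^ (a + ε * i)) (2 * A.c) (by
      rw [zpow_zero]
      exact h1)
    exact ⟨j, fun _ => by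
      have : H.d (u * x ^ (a + ε * i)) (z ^ j) = H.len ((u * x ^ (a + ε * i))⁻¹ * z ^ j) := rfl
      omega⟩
  choose j hj using hnear
  obtain ⟨i, hi, i', hi', hne, heq⟩ := Finset.exists_ne_map_eq_of_card_lt_of_maps_to
    (s := Finset.range (B.card + 1)) (t := B)
    (f := fun i : ℕ => (u * x ^ (a + ε * (i : ℤ)))⁻¹ * z ^ j i)
    (by rw [Finset.card_range]; omega) (by
      intro i hi
      have hi2 := Finset.mem_range.1 (Finset.mem_coe.1 hi)
      simp only [hB, Set.Finite.coe_toFinset, Set.mem_ofPred_eq]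
      exact hj i (by omega))
  have heq := heq
  -- u x^t u⁻¹ = z^(j i' - j i)
  have key : u * x ^ (ε * ((i' : ℤ) - i)) * u⁻¹ = z ^ (j i' - j i) := by
    have h1 : z ^ j i' = (u * x ^ (a + ε * (i' : ℤ))) * ((u * x ^ (a + ε * (i : ℤ)))⁻¹ * z ^ j i) := by
      rw [heq]
      group
    rw [zpow_sub, h1]
    have h2 : x ^ (a + ε * (i' : ℤ)) = x ^ (ε * ((i' : ℤ) - i)) * x ^ (a + ε * (i : ℤ)) := by
      rw [← zpow_add]
      congr 1
      ring
    rw [h2]
    group
  have ht : ε * ((i' : ℤ) - i) ≠ 0 := by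
    apply mul_ne_zero
    · rcases hε with rfl | rfl <;> norm_num
    · intro h
      apply hne
      omega
  have hjne : j i' - j i ≠ 0 := by
    intro h
    rw [h, zpow_zero] at key
    have h3 : x ^ (ε * ((i' : ℤ) - i)) = x ^ (0 : ℤ) := by
      rw [zpow_zero]
      have := congrArg (fun g => u⁻¹ * g * u) key
      simpa [mul_assoc] using this
    exact ht (A.zpow_inj h3)
  rcases lt_or_gt_of_ne hjne with h | h
  · refine ⟨(j i' - j i).natAbs, by omega, - (ε * ((i' : ℤ) - i)), by omega, ?_⟩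
    have h4 : ((j i' - j i).natAbs : ℤ) = - (j i' - j i) := by omega
    rw [h4, zpow_neg, zpow_neg, ← key]
    group
  · refine ⟨(j i' - j i).natAbs, by omega, ε * ((i' : ℤ) - i), ht, ?_⟩
    have h4 : ((j i' - j i).natAbs : ℤ) = j i' - j i := by omega
    rw [h4, key]

/-- an axis with bounded overlap, for `x` generating its elementary closure -/
theorem exists_ax {H : Hyp G} {x : G} (P : PAx H x)
    (hE : ∀ g : G, (∃ s : ℕ, 1 ≤ s ∧ ∃ t : ℤ, t ≠ 0 ∧ g * x ^ t * g⁻¹ = x ^ (s : ℤ)) →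
      g ∈ Subgroup.zpowers x) : Nonempty (Ax H x) := by
  obtain ⟨θ, hθ⟩ := pig P P
  refine ⟨{ κ := P.κ, c := P.c + θ, shift := P.shift, near := P.near, proj := ?_, sup := ?_,
            lin := ?_, ov := ?_ }⟩
  · intro g h hgh
    have := P.proj g h (by push_cast at hgh; omega)
    omega
  · intro a b
    have := P.sup a b
    omega
  · intro a
    have h1 := P.lin a
    have h2 : (P.c + θ) * H.len (x ^ a) = P.c * H.len (x ^ a) + θ * H.len (x ^ a) := by ring
    omega
  · intro u hu i j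
    by_contra hcon
    push Not at hcon
    apply hu
    have h1 := hθ (u * x ^ i)⁻¹ (j - i) (by
      unfold PAx.s
      rw [inv_inv, mul_one, mul_assoc, ← zpow_add, show i + (j - i) = j by ring, abs_sub_comm]
      push_cast at hcon
      omega)
    have h2 := hE _ h1
    have h3 := (Subgroup.zpowers x).inv_mem h2
    rw [inv_inv] at h3
    have h4 : u = u * x ^ i * x ^ (-i) := by group
    rw [h4]
    exact (Subgroup.zpowers x).mul_mem h3 ⟨-i, rfl⟩

/-- `⟨x⟩` is its own elementary closure -/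
theorem Ax.elem {H : Hyp G} {x : G} (A : Ax H x) {u : G} {s t : ℤ} (ht : t ≠ 0)
    (h : u * x ^ t * u⁻¹ = x ^ s) : u ∈ Subgroup.zpowers x := by
  by_contra hu
  have hs : s ≠ 0 := by
    intro h0
    rw [h0, zpow_zero] at h
    have h3 : x ^ t = x ^ (0 : ℤ) := by
      rw [zpow_zero]
      have := congrArg (fun g => u⁻¹ * g * u) h
      simpa [mul_assoc] using this
    exact ht (A.toPAx.zpow_inj h3)
  have h1 : ∀ n : ℤ, u * x ^ (t * n) = x ^ (s * n) * u := by
    intro n
    rw [zpow_mul, zpow_mul, ← h, conj_zpow]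
    group
  have h2 := A.ov u hu 0 (t * (A.c + 1))
  rw [h1, A.shift, zpow_zero, mul_one] at h2
  have h3 : A.κ u - (A.κ u + s * (A.c + 1)) = -(s * (A.c + 1)) := by ring
  rw [h3, abs_neg, abs_mul] at h2
  have h4 : (1 : ℤ) ≤ |s| := Int.one_le_abs hs
  have h5 : |(A.c : ℤ) + 1| = A.c + 1 := abs_of_nonneg (by positivity)
  rw [h5] at h2
  nlinarith

/-- commuting with a power of `x` -/
theorem Ax.comm {H : Hyp G} {x : G} (A : Ax H x) {u : G} {t : ℤ} (ht : t ≠ 0)
    (h : u * x ^ t = x ^ t * u) : u ∈ Subgroup.zpowers x :=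
  A.elem ht (s := t) (by rw [h, mul_inv_cancel_right])

end Pool.Agent.TH64
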