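import Pool.Agent.TH64.Quo2
import Pool.Agent.TH64.Gr
import Pool.Agent.TH64.Pig
import Pool.Agent.TH921.CommSmall
import Pool.Agent.TH111.CommX
import Pool.Agent.TH629.H64ft
import Pool.Agent.TH629.H64tor
import Pool.Agent.TH142.J475
import Pool.Agent.TH142.J487

/-!
# One step of the construction: large odd power quotients of hyperbolic groups (helper64)
-/

set_option autoImplicit false

namespace Pool.Agent.TH64

/-- hyperbolic groups with control on torsion -/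
structure Nice (G : Type*) [Group G] : Prop where
  hyp : Nonempty (Hyp G)
  odd : ∀ a : G, IsOfFinOrder a → Odd (orderOf a)
  com : ∀ a g : G, a ≠ 1 → IsOfFinOrder a → a * g = g * a → IsOfFinOrder g

section

variable {G : Type*} [Group G]

theorem inf_of_not {x : G} (hx : ¬ IsOfFinOrder x) : ∀ k : ℤ, x ^ k = 1 → k = 0 := by
  intro k hk
  by_contra h
  exact hx (isOfFinOrder_iff_zpow_eq_one.2 ⟨k, h, hk⟩)

theorem exists_pax' (H : Hyp G) {x : G} (hx : ¬ IsOfFinOrder x) : Nonempty (PAx H x) :=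
  exists_pax H (fun x hx C => TH142.J475.helly H x hx C) x (inf_of_not hx)

/-- the quotient is hyperbolic -/
theorem quot_hyp {H : Hyp G} {x : G} (A : Ax H x) : ∃ N0 : ℕ, ∀ N ≥ N0, ∀ (M : Subgroup G)
    [M.Normal], Fill A N M → Nonempty (Hyp (G ⧸ M)) := by
  obtain ⟨cp, N1, hp⟩ := pmin A
  obtain ⟨cs, N2, hs⟩ := smin A
  obtain ⟨N3, hcl⟩ := close A (cs + 2 * cp + 8 * (A.c * (3 * A.c) + A.c))
  refine ⟨N1 + N2 + N3, ?_⟩
  intro N hN M hM hF
  obtain ⟨CL, hCL⟩ := hcl N (by omega) M hF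
  exact ⟨quotHyp H M _ (quot_four A N M _ CL hCL cp cs (hp N (by omega) M hF)
    (hs N (by omega) M hF) le_rfl)⟩

/-- minimal elements up to conjugation and `M` -/
theorem exists_min_conj (H : Hyp G) (M : Subgroup G) [hM : M.Normal] (z : G) :
    ∃ n0 ∈ M, ∃ g0 : G, ∀ g : G, ∀ n ∈ M,
      H.len (g0⁻¹ * (z * n0) * g0) ≤ H.len (g⁻¹ * (g0⁻¹ * (z * n0) * g0 * n) * g) := by
  classical
  have hne : ∃ k, ∃ n ∈ M, ∃ g : G, H.len (g⁻¹ * (z * n) * g) = k :=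
    ⟨_, 1, M.one_mem, 1, rfl⟩
  obtain ⟨n0, hn0, g0, h0⟩ := Nat.find_spec hne
  refine ⟨n0, hn0, g0, ?_⟩
  intro g n hn
  rw [h0]
  refine Nat.find_min' hne ⟨n0 * (g0 * n * g0⁻¹), M.mul_mem hn0 (hM.conj_mem _ hn _), g0 * g, ?_⟩
  congr 1
  group

theorem pow_mem_iff_mul (M : Subgroup G) [hM : M.Normal] {z n : G} (hn : n ∈ M) (m : ℕ) :
    (z * n) ^ m ∈ M ↔ z ^ m ∈ M := by
  rw [← QuotientGroup.eq_one_iff, ← QuotientGroup.eq_one_iff]
  have h1 : (((z * n) ^ m : G) : G ⧸ M) = (z : G ⧸ M) ^ m := by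
    have : ((z * n : G) : G ⧸ M) = (z : G ⧸ M) := by
      rw [QuotientGroup.mk_mul, (QuotientGroup.eq_one_iff n).2 hn, mul_one]
    rw [QuotientGroup.mk_pow, this]
  rw [h1, QuotientGroup.mk_pow]

theorem conj_pow' (g z : G) (m : ℕ) : (g⁻¹ * z * g) ^ m = g⁻¹ * z ^ m * g := by
  have := conj_pow (a := g⁻¹) (b := z) (i := m)
  rwa [inv_inv] at this

/-- torsion modulo `M` comes from torsion or from `x` -/
theorem tor {H : Hyp G} {x : G} (A : Ax H x) : ∃ N0 : ℕ, ∀ N ≥ N0, ∀ (M : Subgroup G)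
    [M.Normal], Fill A N M → ∀ z : G, ∀ m : ℕ, 1 ≤ m → z ^ m ∈ M →
    ∃ n ∈ M, IsOfFinOrder (z * n) ∨ ∃ g : G, g⁻¹ * (z * n) * g ∈ Subgroup.zpowers x := by
  classical
  obtain ⟨N1, hlarge⟩ := tor_large A
  -- overlap constants
  have hθ : ∀ w : G, ∃ θ : ℕ, ¬ IsOfFinOrder w → ∀ (u : G) (k : ℤ),
      (θ : ℤ) < |A.s u 1 (w ^ k)| →
      ∃ s : ℕ, 1 ≤ s ∧ ∃ t : ℤ, t ≠ 0 ∧ u * x ^ t * u⁻¹ = w ^ (s : ℤ) := by
    intro w
    by_cases hw : IsOfFinOrder w
    · exact ⟨0, fun h => absurd hw h⟩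
    · obtain ⟨P⟩ := exists_pax' H hw
      obtain ⟨θ, h⟩ := pig A.toPAx P
      exact ⟨θ, fun _ => h⟩
  choose θ hθ using hθ
  refine ⟨N1 + (((H.fin (4 * H.D + 2)).toFinset.sup θ) + 12 * A.th + 1), ?_⟩
  intro N hN M hM hF z m hm hz
  obtain ⟨n0, hn0, g0, hmin⟩ := exists_min_conj H M z
  set z1 := g0⁻¹ * (z * n0) * g0 with hz1
  have hz1m : z1 ^ m ∈ M := by
    rw [hz1, conj_pow']
    have h1 := (pow_mem_iff_mul M hn0 m).2 hz
    have := hM.conj_mem _ h1 g0⁻¹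
    rwa [inv_inv] at this
  refine ⟨n0, hn0, ?_⟩
  by_cases hlen : 4 * H.D + 2 ≤ H.len z1
  · right
    obtain ⟨g, hg⟩ := hlarge N (by omega) M hF z1 hmin hlen m hm hz1m
    refine ⟨g0 * g, ?_⟩
    rwa [show (g0 * g)⁻¹ * (z * n0) * (g0 * g) = g⁻¹ * z1 * g by rw [hz1]; group]
  · by_cases hfin : IsOfFinOrder z1
    · left
      have h1 : z * n0 = g0 * z1 * g0⁻¹ := by rw [hz1]; group
      rw [h1]
      rw [isOfFinOrder_iff_pow_eq_one] at hfin ⊢
      obtain ⟨k, hk, hk1⟩ := hfin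
      exact ⟨k, hk, by rw [conj_pow, hk1]; group⟩
    · right
      have hne : z1 ^ m ≠ 1 := fun h => hfin (isOfFinOrder_iff_pow_eq_one.2 ⟨m, by omega, h⟩)
      obtain ⟨u, hu⟩ := hF.gr _ hz1m hne 1
      rw [mul_one] at hu
      have hsup : θ z1 ≤ (H.fin (4 * H.D + 2)).toFinset.sup θ :=
        Finset.le_sup (by
          rw [Set.Finite.mem_toFinset]
          show H.len z1 ≤ _
          omega)
      obtain ⟨s, hs, t, ht, hst⟩ := hθ z1 hfin u m (by
        rw [zpow_natCast]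
        have h2 : ((N1 + (((H.fin (4 * H.D + 2)).toFinset.sup θ) + 12 * A.th + 1) : ℕ) : ℤ) ≤ N := by
          exact_mod_cast hN
        push_cast at h2
        have h3 : (θ z1 : ℤ) ≤ (((H.fin (4 * H.D + 2)).toFinset.sup θ : ℕ) : ℤ) := by
          exact_mod_cast hsup
        omega)
      have hcomm : (u⁻¹ * z1 * u) * x ^ t = x ^ t * (u⁻¹ * z1 * u) := by
        have h1 : x ^ t = u⁻¹ * z1 ^ (s : ℤ) * u := by rw [← hst]; group
        rw [h1]
        have h2 : z1 * z1 ^ (s : ℤ) = z1 ^ (s : ℤ) * z1 := by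
          rw [← zpow_one_add, ← zpow_add_one, add_comm]
        calc u⁻¹ * z1 * u * (u⁻¹ * z1 ^ (s : ℤ) * u) = u⁻¹ * (z1 * z1 ^ (s : ℤ)) * u := by group
          _ = u⁻¹ * (z1 ^ (s : ℤ) * z1) * u := by rw [h2]
          _ = _ := by group
      have hmem := A.comm ht hcomm
      refine ⟨g0 * u, ?_⟩
      rwa [show (g0 * u)⁻¹ * (z * n0) * (g0 * u) = u⁻¹ * z1 * u by rw [hz1]; group]

/-- elements of bounded length do not become trivial -/
theorem inj_small {H : Hyp G} {x : G} (A : Ax H x) (R : ℕ) : ∃ N0 : ℕ, ∀ N ≥ N0,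
    ∀ (M : Subgroup G), Fill A N M → ∀ s ∈ M, H.len s ≤ R → s = 1 := by
  refine ⟨A.c * R + A.c * A.c + A.c + 12 * A.th + 1, ?_⟩
  intro N hN M hF s hs hR
  by_contra hne
  obtain ⟨u, hu⟩ := hF.gr s hs hne 1
  rw [mul_one] at hu
  have h1 := A.lip_s u 1 s
  rw [H.d_one] at h1
  have h2 : (A.c : ℤ) * (H.len s : ℤ) ≤ A.c * R :=
    mul_le_mul_of_nonneg_left (by exact_mod_cast hR) (by positivity)
  have h3 : ((A.c * R + A.c * A.c + A.c + 12 * A.th + 1 : ℕ) : ℤ) ≤ N := by exact_mod_cast hN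
  push_cast at h3
  omega

/-- the order of `x` modulo `M` -/
theorem ord_x {H : Hyp G} {x : G} (A : Ax H x) : ∃ N0 : ℕ, ∀ N ≥ N0,
    ∀ (M : Subgroup G), Fill A N M → ∀ k : ℤ, x ^ k ∈ M → (N : ℤ) ∣ k := by
  refine ⟨24 * A.th + 2 * A.c + 2, ?_⟩
  intro N hN M hF k hk
  have hN' : ((24 * A.th + 2 * A.c + 2 : ℕ) : ℤ) ≤ N := by exact_mod_cast hN
  push_cast at hN'
  obtain ⟨q, r, hqr, hr⟩ : ∃ q r : ℤ, k = N * q + r ∧ 2 * |r| ≤ N := by
    refine ⟨(2 * k + N) / (2 * N), k - N * ((2 * k + N) / (2 * N)), by ring, ?_⟩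
    have h1 := Int.emod_nonneg (2 * k + N) (show (2 * N : ℤ) ≠ 0 by omega)
    have h2 := Int.emod_lt_of_pos (2 * k + N) (show (0 : ℤ) < 2 * N by omega)
    have h3 := Int.emod_add_mul_ediv (2 * k + N) (2 * N)
    have h4 : (2 : ℤ) * N * ((2 * k + N) / (2 * N)) = 2 * (N * ((2 * k + N) / (2 * N))) := by ring
    rw [h4] at h3
    rcases abs_cases (k - N * ((2 * k + N) / (2 * N))) with h | h <;> omega
  have hr2 : x ^ r ∈ M := by
    have h1 := hF.rot 1 (-q)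
    unfold PAx.rt at h1
    rw [one_mul, inv_one, mul_one] at h1
    have h2 := M.mul_mem h1 hk
    rw [← zpow_add] at h2
    convert h2 using 2
    rw [hqr]
    ring
  by_cases hr0 : r = 0
  · exact ⟨q, by rw [hqr, hr0, add_zero]⟩
  exfalso
  have hne : x ^ r ≠ 1 := by
    intro h
    exact hr0 (A.toPAx.zpow_inj (by rw [h, zpow_zero]))
  obtain ⟨u, hu⟩ := hF.gr _ hr2 hne 1
  rw [mul_one] at hu
  by_cases hux : u ∈ Subgroup.zpowers x
  · obtain ⟨j, hj⟩ := hux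
    have hj' : x ^ j = u := hj
    have h1 : A.s u 1 (x ^ r) = r := by
      have := A.s_base 1 j 1 (x ^ r)
      rw [one_mul, hj'] at this
      rw [this]
      unfold PAx.s
      rw [inv_one, one_mul, one_mul, A.κ_zpow, A.κ_one, sub_zero]
    rw [h1] at hu
    omega
  · have h1 : u⁻¹ * 1 ∉ Subgroup.zpowers x := by
      intro h
      apply hux
      rw [mul_one] at h
      have := (Subgroup.zpowers x).inv_mem h
      rwa [inv_inv] at this
    have h2 := A.ov_s h1 0 r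
    rw [zpow_zero, mul_one, one_mul] at h2
    omega

end

end Pool.Agent.TH64
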