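import Pool.Agent.TH64.Basic

/-!
# Nearest points on quasi-convex sets (helper64)
-/

set_option autoImplicit false

namespace Pool.Agent.TH64

variable {G : Type*} [Group G]

namespace Hyp

variable (H : Hyp G)

/-- `A` is `k`-quasi-convex -/
def QC (A : Set G) (k : ℕ) : Prop :=
  ∀ a ∈ A, ∀ b ∈ A, ∀ p, H.d a p + H.d p b = H.d a b → ∃ q ∈ A, H.d p q ≤ k

/-- `p` is a point of `A` nearest to `z` -/
def Near (A : Set G) (z p : G) : Prop := p ∈ A ∧ ∀ a ∈ A, H.d z p ≤ H.d z a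

theorem exists_near {A : Set G} (hA : A.Nonempty) (z : G) : ∃ p, H.Near A z p := by
  classical
  have hne : ∃ n, ∃ a ∈ A, H.d z a = n := by
    obtain ⟨a, ha⟩ := hA
    exact ⟨_, a, ha, rfl⟩
  obtain ⟨p, hp, hpn⟩ := Nat.find_spec hne
  refine ⟨p, hp, fun a ha => ?_⟩
  rw [hpn]
  exact Nat.find_min' hne ⟨a, ha, rfl⟩

theorem near_left {A : Set G} {z p a : G} {k : ℕ} (hA : H.QC A k) (hp : H.Near A z p)
    (ha : a ∈ A) : H.d z p + H.d p a ≤ H.d z a + (2 * k + 2 * H.D + 1) := by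
  by_cases hk : k + H.D + 1 ≤ H.d p a
  · obtain ⟨q, hq1, hq2⟩ := H.between p a (k + H.D + 1) hk
    obtain ⟨a', ha', hqa'⟩ := hA p hp.1 a ha q (by omega)
    have h1 := H.fp z q p a
    have h2 := hp.2 a' ha'
    have h3 := H.d_tri z q a'
    rw [H.d_comm q p] at h1
    omega
  · have := hp.2 a ha
    omega

theorem near_near {A : Set G} {z p z' p' : G} {k : ℕ} (hA : H.QC A k) (hp : H.Near A z p)
    (hp' : H.Near A z' p') (h : 2 * k + 3 * H.D + 1 < H.d p p') :
    H.d z p + H.d p p' + H.d p' z' ≤ H.d z z' + (4 * k + 5 * H.D + 2) := by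
  have h1 := H.near_left hA hp hp'.1
  have h2 := H.near_left hA hp' hp.1
  have h3 := H.fp z p' z' p
  rw [H.d_comm p' z', H.d_comm p' p] at h3
  rw [H.d_comm p' p] at h2
  rw [H.d_comm p' z']
  omega

end Hyp

end Pool.Agent.TH64
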