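import Pool.Agent.TH64.Fill
import Pool.Agent.TH739.Close

/-!
# The quotient by a normal subgroup with the Greendlinger property is hyperbolic (helper64)
-/

set_option autoImplicit false

namespace Pool.Agent.TH64

/-- the four point inequality follows from the case of a point between two others -/
theorem four_of_between {X : Type*} (d : X → X → ℕ) (hc : ∀ u v, d u v = d v u)
    (ht : ∀ u v w, d u w ≤ d u v + d v w)
    (hb : ∀ u v k, k ≤ d u v → ∃ p, d u p = k ∧ d p v + k = d u v) (C : ℕ)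
    (h : ∀ u v z p, d u p + d p v = d u v →
      d z p + d u v ≤ max (d z u + d p v) (d z v + d u p) + C) (u v w z : X) :
    d u v + d w z ≤ max (d u w + d v z) (d u z + d v w) + (2 * C + 2) := by
  have t1 := ht w u v
  have t2 := ht u w v
  have t3 := ht w v u
  have c1 := hc w u
  have c2 := hc w v
  have c3 := hc v u
  -- the centre of `u, v, w` on `[u, v]`
  obtain ⟨p, hp1, hp2⟩ := hb u v ((d w u + d u v - d w v) / 2) (by omega)
  have h1 := h u v w p (by omega)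
  have h2 := h u v z p (by omega)
  have t4 := ht w p z
  have c4 := hc z p
  have c5 := hc z u
  have c6 := hc z v
  omega

variable {G : Type*} [Group G]

namespace Hyp

variable (H : Hyp G) (M : Subgroup G) [hM : M.Normal]

/-- the quotient length -/
noncomputable def qlen (q : G ⧸ M) : ℕ := sInf {n | ∃ g : G, (g : G ⧸ M) = q ∧ H.len g = n}

omit hM in
theorem qlen_le (g : G) : H.qlen M (g : G ⧸ M) ≤ H.len g := Nat.sInf_le ⟨g, rfl, rfl⟩

omit hM in
theorem qlen_rep (q : G ⧸ M) : ∃ g : G, (g : G ⧸ M) = q ∧ H.len g = H.qlen M q := by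
  have hne : {n | ∃ g : G, (g : G ⧸ M) = q ∧ H.len g = n}.Nonempty := by
    obtain ⟨g, hg⟩ := QuotientGroup.mk_surjective q
    exact ⟨_, g, hg, rfl⟩
  exact Nat.sInf_mem hne

theorem qlen_one : H.qlen M 1 = 0 := by
  have := H.qlen_le M 1
  rw [H.len_one] at this
  exact Nat.le_zero.1 this

theorem qlen_eq_one (q : G ⧸ M) (h : H.qlen M q = 0) : q = 1 := by
  obtain ⟨g, hg, hl⟩ := H.qlen_rep M q
  rw [h] at hl
  rw [← hg, H.eq_one g hl]
  rfl

theorem qlen_inv (q : G ⧸ M) : H.qlen M q⁻¹ = H.qlen M q := by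
  have key : ∀ q : G ⧸ M, H.qlen M q⁻¹ ≤ H.qlen M q := by
    intro q
    obtain ⟨g, hg, hl⟩ := H.qlen_rep M q
    have := H.qlen_le M g⁻¹
    rw [H.len_inv, hl] at this
    rw [← hg]
    rw [← hg] at this
    exact this
  refine le_antisymm (key q) ?_
  have := key q⁻¹
  rwa [inv_inv] at this

theorem qlen_mul (q q' : G ⧸ M) : H.qlen M (q * q') ≤ H.qlen M q + H.qlen M q' := by
  obtain ⟨g, hg, hl⟩ := H.qlen_rep M q
  obtain ⟨g', hg', hl'⟩ := H.qlen_rep M q'
  have h1 := H.qlen_le M (g * g')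
  have h2 := H.len_mul g g'
  have h3 : ((g * g' : G) : G ⧸ M) = q * q' := by
    rw [← hg, ← hg']
    rfl
  rw [h3] at h1
  omega

theorem qlen_step (q : G ⧸ M) (k : ℕ) (hk : k ≤ H.qlen M q) :
    ∃ p, H.qlen M p = k ∧ H.qlen M (p⁻¹ * q) + k = H.qlen M q := by
  obtain ⟨g, hg, hl⟩ := H.qlen_rep M q
  obtain ⟨h, h1, h2⟩ := H.step g k (by omega)
  have h3 := H.qlen_le M h
  have h4 := H.qlen_le M (h⁻¹ * g)
  have h5 : ((h⁻¹ * g : G) : G ⧸ M) = (h : G ⧸ M)⁻¹ * q := by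
    rw [← hg]
    rfl
  rw [h5] at h4
  have h6 := H.qlen_mul M (h : G ⧸ M) ((h : G ⧸ M)⁻¹ * q)
  rw [mul_inv_cancel_left] at h6
  exact ⟨h, by omega, by omega⟩

theorem qlen_fin (n : ℕ) : {q : G ⧸ M | H.qlen M q ≤ n}.Finite := by
  refine ((H.fin n).image (fun g : G => (g : G ⧸ M))).subset ?_
  intro q hq
  obtain ⟨g, hg, hl⟩ := H.qlen_rep M q
  exact ⟨g, by show H.len g ≤ n; rw [hl]; exact hq, hg⟩

/-- the quotient distance -/
noncomputable def qd (u v : G ⧸ M) : ℕ := H.qlen M (u⁻¹ * v)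

theorem qd_comm (u v : G ⧸ M) : H.qd M u v = H.qd M v u := by
  unfold qd
  rw [← H.qlen_inv]
  congr 1
  group

theorem qd_tri (u v w : G ⧸ M) : H.qd M u w ≤ H.qd M u v + H.qd M v w := by
  unfold qd
  have := H.qlen_mul M (u⁻¹ * v) (v⁻¹ * w)
  rwa [show u⁻¹ * v * (v⁻¹ * w) = u⁻¹ * w by group] at this

theorem qd_between (u v : G ⧸ M) (k : ℕ) (hk : k ≤ H.qd M u v) :
    ∃ p, H.qd M u p = k ∧ H.qd M p v + k = H.qd M u v := by
  obtain ⟨h, h1, h2⟩ := H.qlen_step M (u⁻¹ * v) k hk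
  refine ⟨u * h, ?_, ?_⟩
  · unfold qd
    rw [show u⁻¹ * (u * h) = h by group, h1]
  · unfold qd
    rw [show (u * h)⁻¹ * v = h⁻¹ * (u⁻¹ * v) by group, h2]

theorem qd_le (u v : G) : H.qd M (u : G ⧸ M) (v : G ⧸ M) ≤ H.d u v := H.qlen_le M (u⁻¹ * v)

/-- lifting a point at the minimal distance -/
theorem qd_lift (u : G) (q : G ⧸ M) : ∃ v : G, (v : G ⧸ M) = q ∧ H.d u v = H.qd M (u : G ⧸ M) q := by
  obtain ⟨g, hg, hl⟩ := H.qlen_rep M ((u : G ⧸ M)⁻¹ * q)
  refine ⟨u * g, ?_, ?_⟩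
  · have : ((u * g : G) : G ⧸ M) = (u : G ⧸ M) * (g : G ⧸ M) := rfl
    rw [this, hg, mul_inv_cancel_left]
  · unfold d qd
    rw [inv_mul_cancel_left, hl]

theorem coe_mul_left {m : G} (hm : m ∈ M) (u : G) : ((m * u : G) : G ⧸ M) = u := by
  apply QuotientGroup.eq.2
  have := hM.conj_mem _ (M.inv_mem hm) u⁻¹
  rw [inv_inv] at this
  rwa [mul_inv_rev]

theorem exists_of_coe_eq {u v : G} (h : (u : G ⧸ M) = v) : ∃ m ∈ M, v = m * u := by
  have h1 := QuotientGroup.eq.1 h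
  refine ⟨v * u⁻¹, ?_, by group⟩
  have := hM.conj_mem _ h1 u
  rwa [show u * (u⁻¹ * v) * u⁻¹ = v * u⁻¹ by group] at this

/-- the triangle lifts of minimal perimeter -/
theorem exists_smin (u v z : G ⧸ M) : ∃ u' v' z' : G, (u' : G ⧸ M) = u ∧ (v' : G ⧸ M) = v ∧
    (z' : G ⧸ M) = z ∧ ∀ u'' v'' z'' : G, (u'' : G ⧸ M) = u → (v'' : G ⧸ M) = v →
      (z'' : G ⧸ M) = z →
      H.d u' v' + H.d u' z' + H.d v' z' ≤ H.d u'' v'' + H.d u'' z'' + H.d v'' z'' := by
  classical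
  have hne : ∃ n, ∃ u' v' z' : G, (u' : G ⧸ M) = u ∧ (v' : G ⧸ M) = v ∧
      (z' : G ⧸ M) = z ∧ H.d u' v' + H.d u' z' + H.d v' z' = n := by
    obtain ⟨u', hu⟩ := QuotientGroup.mk_surjective u
    obtain ⟨v', hv⟩ := QuotientGroup.mk_surjective v
    obtain ⟨z', hz⟩ := QuotientGroup.mk_surjective z
    exact ⟨_, u', v', z', hu, hv, hz, rfl⟩
  obtain ⟨u', v', z', hu, hv, hz, hn⟩ := Nat.find_spec hne
  refine ⟨u', v', z', hu, hv, hz, ?_⟩
  intro u'' v'' z'' hu' hv' hz'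
  rw [hn]
  exact Nat.find_min' hne ⟨u'', v'', z'', hu', hv', hz', rfl⟩

end Hyp

theorem good_of {H : Hyp G} {x : G} (A : Ax H x) {B : ℕ} {a b : G}
    (h : ∀ u, 4 * |A.s u a b| ≤ B) : Good A (B + 8 * (A.c * (3 * A.c) + A.c)) a b := by
  intro p q hp hq u
  have h1 := A.mono u (e := 0) (by simpa using hp.le)
  have h2 := A.mono u (e := 0) (by simpa using hq.le)
  have h3 := h u
  have e1 := A.s_add u a p b
  have e2 := A.s_add u a q b
  have e3 := A.s_add u a p q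
  push_cast at *
  rw [add_zero] at h1 h2
  generalize (A.c : ℤ) * (3 * A.c) = X at *
  have a1 : |A.s u p q| ≤ |A.s u a b| + 2 * (X + A.c) := by
    rw [abs_le]
    constructor <;> cases abs_cases (A.s u a p) <;> cases abs_cases (A.s u p b) <;>
      cases abs_cases (A.s u a q) <;> cases abs_cases (A.s u q b) <;>
      cases abs_cases (A.s u a b) <;> omega
  omega

end Pool.Agent.TH64
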