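import Pool.Agent.TH64.Quo

/-!
# The quotient is hyperbolic: assembly (helper64)
-/

set_option autoImplicit false

namespace Pool.Agent.TH64

variable {G : Type*} [Group G]

section

variable {H : Hyp G} {x : G} (A : Ax H x) (N : ℕ) (M : Subgroup G) [hM : M.Normal]
  (c1 CL : ℕ)
  (hcl : ∀ a b b' : G, Good A (3 * N + c1) a b → Good A (3 * N + c1) a b' →
    (∃ n ∈ M, b' = n * b) → ∀ p' : G, H.d a p' + H.d p' b' = H.d a b' →
    ∃ p : G, H.d a p + H.d p b = H.d a b ∧ ∃ m ∈ M, H.d p' (m * p) ≤ CL)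

include hM hcl in
/-- one half of the estimate: `p` is close to a good side starting at `u` -/
theorem half_est {u z q : G} {p : G ⧸ M} {δ : ℕ}
    (hu1 : Good A (3 * N + c1) u z)
    (hmin : ∀ z0 : G, (z0 : G ⧸ M) = (z : G ⧸ M) → H.d u z0 = H.qd M (u : G ⧸ M) (z : G ⧸ M) →
      Good A (3 * N + c1) u z0)
    (hq : H.d u q + H.d q z = H.d u z) (hpq : H.qd M p (q : G ⧸ M) ≤ δ) :
    H.qd M (z : G ⧸ M) p + H.qd M (u : G ⧸ M) p ≤ H.qd M (z : G ⧸ M) (u : G ⧸ M)
      + 2 * (δ + CL) := by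
  obtain ⟨z0, hz0, hz1⟩ := H.qd_lift M u (z : G ⧸ M)
  have hz2 : (∃ n ∈ M, z = n * z0) := Hyp.exists_of_coe_eq M hz0
  obtain ⟨q0, hq0, m, hm, hqm⟩ := hcl u z0 z (hmin z0 hz0 hz1) hu1 hz2 q hq
  have h1 := H.qd_le M q (m * q0)
  rw [Hyp.coe_mul_left M hm] at h1
  have h2 := H.qd_le M q0 z0
  have h3 := H.qd_le M u q0
  rw [hz0] at h2
  have t1 := H.qd_tri M p (q : G ⧸ M) (q0 : G ⧸ M)
  have t2 := H.qd_tri M (z : G ⧸ M) (q0 : G ⧸ M) p
  have t3 := H.qd_tri M (u : G ⧸ M) (q0 : G ⧸ M) p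
  have c1 := H.qd_comm M (z : G ⧸ M) (q0 : G ⧸ M)
  have c2 := H.qd_comm M (q0 : G ⧸ M) p
  have c3 := H.qd_comm M (z : G ⧸ M) (u : G ⧸ M)
  omega

variable (cp cs : ℕ)
  (hp : ∀ u v : G, (∀ m ∈ M, H.d u v ≤ H.d u (m * v)) → ∀ w : G, 2 * |A.s w u v| ≤ N + cp)
  (hs : ∀ u v z : G, (∀ m ∈ M, H.d u v + H.d u z ≤ H.d (m * u) v + H.d (m * u) z) →
    (∀ m ∈ M, H.d u v + H.d v z ≤ H.d u (m * v) + H.d (m * v) z) →
    ∀ w : G, 4 * A.s w u v ≤ 3 * N + cs)
  (hc1 : cs + 2 * cp + 8 * (A.c * (3 * A.c) + A.c) ≤ c1)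

include hM hp hc1 in
theorem good_min {u v : G} (h : H.d u v = H.qd M (u : G ⧸ M) (v : G ⧸ M)) :
    Good A (3 * N + c1) u v := by
  have h1 : ∀ w, 4 * |A.s w u v| ≤ ((2 * N + 2 * cp : ℕ) : ℤ) := by
    intro w
    have := hp u v (by
      intro m hm
      have h2 := H.qd_le M u (m * v)
      rw [Hyp.coe_mul_left M hm] at h2
      omega) w
    push_cast
    omega
  have h2 := good_of A h1
  intro p q h3 h4 w
  have := h2 p q h3 h4 w
  have h5 : ((2 * N + 2 * cp + 8 * (A.c * (3 * A.c) + A.c) : ℕ) : ℤ) ≤ ((3 * N + c1 : ℕ) : ℤ) := by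
    exact_mod_cast (by omega)
  exact this.trans h5

include hM hcl hp hs hc1 in
theorem quot_four (u v z p : G ⧸ M) (h : H.qd M u p + H.qd M p v = H.qd M u v) :
    H.qd M z p + H.qd M u v ≤ max (H.qd M z u + H.qd M p v) (H.qd M z v + H.qd M u p)
      + 2 * (2 * CL + 2 * H.D) := by
  obtain ⟨u', v', z', hu, hv, hz, hmin⟩ := H.exists_smin M u v z
  -- the sides are good
  have hsg : ∀ a b e : G, (∀ m ∈ M, H.d a b + H.d a e ≤ H.d (m * a) b + H.d (m * a) e) →
      (∀ m ∈ M, H.d a b + H.d b e ≤ H.d a (m * b) + H.d (m * b) e) →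
      Good A (3 * N + c1) a b := by
    intro a b e h1 h2
    have h3 : ∀ w, 4 * |A.s w a b| ≤ ((3 * N + cs : ℕ) : ℤ) := by
      intro w
      have e1 := hs a b e h1 h2 w
      have e2 := hs b a e (by
        intro m hm
        have := h2 m hm
        rw [H.d_comm b a, H.d_comm (m * b) a]
        exact this) (by
        intro m hm
        have := h1 m hm
        rw [H.d_comm b a, H.d_comm b (m * a)]
        exact this) w
      rw [A.s_symm w a b] at e2
      push_cast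
      rcases abs_cases (A.s w a b) with h | h <;> omega
    have h4 := good_of A h3
    intro p q h5 h6 w
    have := h4 p q h5 h6 w
    have h7 : ((3 * N + cs + 8 * (A.c * (3 * A.c) + A.c) : ℕ) : ℤ) ≤ ((3 * N + c1 : ℕ) : ℤ) := by
      exact_mod_cast (by omega)
    exact this.trans h7
  have mu : ∀ m ∈ M, H.d u' v' + H.d u' z' ≤ H.d (m * u') v' + H.d (m * u') z' := by
    intro m hm
    have := hmin (m * u') v' z' (by rw [Hyp.coe_mul_left M hm, hu]) hv hz
    omega
  have mv : ∀ m ∈ M, H.d u' v' + H.d v' z' ≤ H.d u' (m * v') + H.d (m * v') z' := by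
    intro m hm
    have := hmin u' (m * v') z' hu (by rw [Hyp.coe_mul_left M hm, hv]) hz
    omega
  have mz : ∀ m ∈ M, H.d u' z' + H.d v' z' ≤ H.d u' (m * z') + H.d v' (m * z') := by
    intro m hm
    have := hmin u' v' (m * z') hu hv (by rw [Hyp.coe_mul_left M hm, hz])
    omega
  have guv : Good A (3 * N + c1) u' v' := hsg u' v' z' mu mv
  have guz : Good A (3 * N + c1) u' z' := hsg u' z' v' (by
    intro m hm
    have := mu m hm
    omega) (by
    intro m hm
    have := mz m hm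
    rw [H.d_comm z' v', H.d_comm (m * z') v']
    omega)
  have gvz : Good A (3 * N + c1) v' z' := hsg v' z' u' (by
    intro m hm
    have := mv m hm
    rw [H.d_comm v' u', H.d_comm (m * v') u']
    omega) (by
    intro m hm
    have := mz m hm
    rw [H.d_comm z' u', H.d_comm (m * z') u']
    omega)
  -- lift the geodesic from `u` to `v` through `p`
  obtain ⟨p0, hp0, hp1⟩ := H.qd_lift M u' p
  obtain ⟨v0, hv0, hv1⟩ := H.qd_lift M p0 v
  rw [hu] at hp1
  rw [hp0] at hv1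
  have l1 := H.d_tri u' p0 v0
  have l2 := H.qd_le M u' v0
  rw [hu, hv0] at l2
  have g0 : Good A (3 * N + c1) u' v0 := good_min A N M c1 cp cs hp hc1 (by rw [hu, hv0]; omega)
  obtain ⟨p1, hp2, m1, hm1, hp3⟩ := hcl u' v' v0 guv g0
    (Hyp.exists_of_coe_eq M (by rw [hv, hv0])) p0 (by omega)
  have d1 := H.qd_le M p0 (m1 * p1)
  rw [Hyp.coe_mul_left M hm1, hp0] at d1
  rcases H.slim z' hp2 with ⟨q, hq1, hq2⟩ | ⟨q, hq1, hq2⟩
  · have d2 := H.qd_le M p1 q
    have d3 := H.qd_tri M p (p1 : G ⧸ M) (q : G ⧸ M)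
    have key := half_est A N M c1 CL hcl (u := u') (z := z') (q := q) (p := p)
      (δ := CL + 2 * H.D) guz (by
        intro z0 h1 h2
        exact good_min A N M c1 cp cs hp hc1 (by rw [h1]; exact h2)) hq1 (by omega)
    rw [hu, hz] at key
    omega
  · have d2 := H.qd_le M p1 q
    have d3 := H.qd_tri M p (p1 : G ⧸ M) (q : G ⧸ M)
    have key := half_est A N M c1 CL hcl (u := v') (z := z') (q := q) (p := p)
      (δ := CL + 2 * H.D) gvz (by
        intro z0 h1 h2
        exact good_min A N M c1 cp cs hp hc1 (by rw [h1]; exact h2)) hq1 (by omega)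
    rw [hv, hz] at key
    have c3 := H.qd_comm M p v
    omega

end

/-- the quotient length as a hyperbolic length -/
noncomputable def quotHyp (H : Hyp G) (M : Subgroup G) [M.Normal] (C : ℕ)
    (h : ∀ u v z p : G ⧸ M, H.qd M u p + H.qd M p v = H.qd M u v →
      H.qd M z p + H.qd M u v ≤ max (H.qd M z u + H.qd M p v) (H.qd M z v + H.qd M u p) + C) :
    Hyp (G ⧸ M) where
  len := H.qlen M
  D := 2 * C + 2
  len_one := H.qlen_one M
  eq_one := H.qlen_eq_one M
  len_inv := H.qlen_inv M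
  len_mul := H.qlen_mul M
  fp' := four_of_between (H.qd M) (H.qd_comm M) (H.qd_tri M) (H.qd_between M) C h
  step := H.qlen_step M
  fin := H.qlen_fin M

end Pool.Agent.TH64
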